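import Mathlib

/-!
# Fields which are closed under solving equations of small degree
-/

set_option autoImplicit false

namespace Pool.Agent.N205.SD

open Polynomial

/-- `K` contains all solutions of equations of degree less than `d` with coefficients in `K`. -/
def ClosedUnder (d : ℕ) (K : IntermediateField ℚ ℂ) : Prop :=
  ∀ (P : Polynomial K) (z : ℂ), P ≠ 0 → P.natDegree < d → aeval z P = 0 → z ∈ K

/-- The smallest subfield of `ℂ` which contains `E` and all solutions of equations of degree less
than `d` with coefficients in it. -/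
noncomputable def lowField (E : IntermediateField ℚ ℂ) (d : ℕ) : IntermediateField ℚ ℂ :=
  sInf {K | E ≤ K ∧ ClosedUnder d K}

/-- No root of one of the polynomials lies in `K`. -/
def NoRoot {I : Type} (f : I → ℤ[X]) (K : IntermediateField ℚ ℂ) : Prop :=
  ∀ i, ∀ z : ℂ, aeval z (f i) = 0 → z ∉ K

/-- The property `P K r` holds for every normal extension `K` of `ℚ` in `ℂ`, finite or not, which
contains no root of the polynomials, and every number `r` less than all the `g i`. -/
def ForEveryField {I : Type} (g : I → ℕ) (f : I → ℤ[X]) (P : IntermediateField ℚ ℂ → ℕ → Prop) :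
    Prop :=
  ∀ K : IntermediateField ℚ ℂ, Normal ℚ K → NoRoot f K → ∀ r : ℕ, (∀ i, r < g i) → P K r

/-- The condition on the degrees: `d ≤ 2`, or `3 ≤ d ≤ g i` for all `i`, and `d = 3` if one of the
`g i` is at most four. -/
def Dims {I : Type} (g : I → ℕ) (d : ℕ) : Prop :=
  3 ≤ d → ∀ i, d ≤ g i ∧ (4 ≤ d → 5 ≤ g i)

end Pool.Agent.N205.SD
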