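import Mathlib

/-!
# Kernels of actions on small sets
-/

set_option autoImplicit false

namespace Pool.Agent.N205.SD

open Equiv Equiv.Perm

variable {Γ : Type*} [Group Γ]

/-- The subgroups which are obtained from `Γ₀` by passing successively to subgroups containing the
kernel of an action on a set with less than `d` elements. -/
inductive Low (Γ₀ : Subgroup Γ) (d : ℕ) : Subgroup Γ → Prop
  | base : Low Γ₀ d Γ₀
  | step (N N' : Subgroup Γ) (h : Low Γ₀ d N) (hle : N' ≤ N) (T : Type) (_ : Finite T)
      (hT : Nat.card T < d) (ψ : N →* Perm T) (hker : ∀ σ : N, ψ σ = 1 → (σ : Γ) ∈ N') :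
      Low Γ₀ d N'

theorem Low.le {Γ₀ : Subgroup Γ} {d : ℕ} {N : Subgroup Γ} (h : Low Γ₀ d N) : N ≤ Γ₀ := by
  induction h with
  | base => exact le_rfl
  | step N N' _ hle _ _ _ _ _ ih => exact hle.trans ih

theorem Low.inf {Γ₀ : Subgroup Γ} {d : ℕ} {N₁ N₂ : Subgroup Γ} (h₁ : Low Γ₀ d N₁)
    (h₂ : Low Γ₀ d N₂) : Low Γ₀ d (N₁ ⊓ N₂) := by
  induction h₂ with
  | base => rwa [inf_eq_left.2 h₁.le]
  | step N N' _ hle T hfin hT ψ hker ih =>
    refine Low.step (N₁ ⊓ N) (N₁ ⊓ N') ih (inf_le_inf_left _ hle) T hfin hT
      (ψ.comp (Subgroup.inclusion inf_le_right)) ?_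
    rintro ⟨σ, hσ⟩ h1
    exact ⟨hσ.1, hker ⟨σ, hσ.2⟩ h1⟩

theorem Low.conj {Γ₀ : Subgroup Γ} (hn : Γ₀.Normal) {d : ℕ} (τ : Γ) {N : Subgroup Γ}
    (h : Low Γ₀ d N) : Low Γ₀ d (N.map (MulAut.conj τ).toMonoidHom) := by
  induction h with
  | base =>
    have h1 : Γ₀.map (MulAut.conj τ).toMonoidHom = Γ₀ := by
      ext x
      rw [Subgroup.mem_map]
      constructor
      · rintro ⟨y, hy, rfl⟩
        exact hn.conj_mem y hy τ
      · intro hx
        refine ⟨τ⁻¹ * x * τ, ?_, ?_⟩
        · have := hn.conj_mem x hx τ⁻¹
          rwa [inv_inv] at this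
        · change τ * (τ⁻¹ * x * τ) * τ⁻¹ = x
          group
    rw [h1]
    exact Low.base
  | step N N' _ hle T hfin hT ψ hker ih =>
    let e : N ≃* N.map (MulAut.conj τ).toMonoidHom := (MulAut.conj τ).subgroupMap N
    refine Low.step _ _ ih (Subgroup.map_mono hle) T hfin hT (ψ.comp e.symm.toMonoidHom) ?_
    rintro σ h1
    obtain ⟨s, rfl⟩ := e.surjective σ
    have h2 : ψ s = 1 := by
      have h3 : (ψ.comp e.symm.toMonoidHom) (e s) = ψ (e.symm (e s)) := rfl
      rw [h3, e.symm_apply_apply] at h1
      exact h1
    exact ⟨(s : Γ), hker s h2, rfl⟩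

section alt

variable {α : Type*} [Fintype α] [DecidableEq α] (π : Γ →* Perm α)

/-- **The kernels are large.** -/
theorem alternating_le_of_low {Γ₀ : Subgroup Γ} {d : ℕ}
    (h0 : alternatingGroup α ≤ Γ₀.map π) (hd : d ≤ Fintype.card α) (h3 : 3 ≤ Fintype.card α)
    (hd4 : 4 ≤ d → 5 ≤ Fintype.card α) {N : Subgroup Γ} (h : Low Γ₀ d N) :
    alternatingGroup α ≤ N.map π := by
  induction h with
  | base => exact h0
  | step N N' _ hle T hfin hT ψ hker ih =>
    -- the image of the kernel
    set P : Subgroup (Perm α) := (ψ.ker.map N.subtype).map π with hP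
    have hPN : P ≤ N'.map π := by
      refine Subgroup.map_mono ?_
      rintro _ ⟨σ, hσ, rfl⟩
      exact hker σ hσ
    refine le_trans ?_ hPN
    have hPmem : ∀ n : N, ψ n = 1 → π n ∈ P := fun n hn => ⟨n, ⟨n, hn, rfl⟩, rfl⟩
    have hlift : ∀ a : Perm α, a ∈ alternatingGroup α → ∃ n : N, π n = a := by
      intro a ha
      obtain ⟨n, hn, hna⟩ := ih ha
      exact ⟨⟨n, hn⟩, hna⟩
    rcases Nat.lt_or_ge d 4 with hd' | hd'
    · -- the case of at most two elements
      have hsq : ∀ s : Perm T, s ^ 2 = 1 := by
        intro s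
        have hfT := Fintype.ofFinite T
        classical
        have h1 : Fintype.card (Perm T) ∣ 2 := by
          rw [Fintype.card_perm]
          rw [Nat.card_eq_fintype_card] at hT
          have h2 : Fintype.card T ≤ 2 := by omega
          interval_cases Fintype.card T <;> decide
        obtain ⟨c, hc⟩ := h1
        rw [hc, pow_mul, pow_card_eq_one, one_pow]
      rw [← closure_three_cycles_eq_alternating, Subgroup.closure_le]
      intro c hc
      have hc3 : IsThreeCycle c := hc
      obtain ⟨n, hn⟩ := hlift c (by rw [mem_alternatingGroup]; exact hc3.sign)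
      have h4 : c ^ 4 = c := by
        have h5 : c ^ 3 = 1 := by
          rw [← hc3.orderOf]
          exact pow_orderOf_eq_one c
        calc c ^ 4 = c ^ 3 * c := by rw [← pow_succ]
          _ = c := by rw [h5, one_mul]
      have h5 := hPmem (n ^ 4) (by
        rw [map_pow, show (4 : ℕ) = 2 * 2 by rfl, pow_mul, hsq])
      rw [Subgroup.coe_pow, map_pow, hn, h4] at h5
      exact h5
    · -- simplicity
      have h5 := hd4 hd'
      have hsimple : IsSimpleGroup (alternatingGroup α) :=
        alternatingGroup.isSimpleGroup (by rwa [Nat.card_eq_fintype_card])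
      have hnorm : (P.subgroupOf (alternatingGroup α)).Normal := by
        refine ⟨fun x hx a => ?_⟩
        rw [Subgroup.mem_subgroupOf] at hx ⊢
        obtain ⟨_, ⟨k, hk, rfl⟩, hkx⟩ := hx
        obtain ⟨n, hn⟩ := hlift a a.2
        have h6 := hPmem (n * k * n⁻¹) (by
          have hk' : ψ k = 1 := hk
          rw [map_mul, map_mul, hk', mul_one, map_inv, mul_inv_cancel])
        have h7 : π ((n * k * n⁻¹ : N) : Γ) = a * x * (a : Perm α)⁻¹ := by
          rw [Subgroup.coe_mul, Subgroup.coe_mul, Subgroup.coe_inv, map_mul, map_mul, map_inv, hn]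
          congr 2
        rw [h7] at h6
        exact h6
      rcases hnorm.eq_bot_or_eq_top with h6 | h6
      · exfalso
        -- an injection
        choose n hn using fun a : alternatingGroup α => hlift a a.2
        have hinj : Function.Injective fun a : alternatingGroup α => ψ (n a) := by
          intro a b hab
          have h7 := hPmem (n a * (n b)⁻¹) (by
            rw [map_mul, map_inv]
            exact mul_inv_eq_one.2 hab)
          rw [Subgroup.coe_mul, Subgroup.coe_inv, map_mul, map_inv, hn, hn] at h7
          have h8 : a * b⁻¹ ∈ P.subgroupOf (alternatingGroup α) := by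
            rw [Subgroup.mem_subgroupOf]
            exact h7
          rw [h6, Subgroup.mem_bot] at h8
          exact mul_inv_eq_one.1 h8
        have h7 := Nat.card_le_card_of_injective _ hinj
        have : Nontrivial α := Fintype.one_lt_card_iff_nontrivial.1 (by omega)
        have h8 := two_mul_nat_card_alternatingGroup (α := α)
        rw [Nat.card_perm, Nat.card_eq_fintype_card (α := α)] at h8
        rw [Nat.card_perm] at h7
        have h9 : (Nat.card T).factorial ≤ (Fintype.card α - 1).factorial :=
          Nat.factorial_le (by omega)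
        have h10 : (Fintype.card α).factorial =
            Fintype.card α * (Fintype.card α - 1).factorial := by
          rw [Nat.mul_factorial_pred (by omega)]
        have h11 : 0 < (Fintype.card α - 1).factorial := Nat.factorial_pos _
        have h12 : Fintype.card α * (Fintype.card α - 1).factorial ≤
            2 * (Fintype.card α - 1).factorial := by
          rw [← h10, ← h8]
          have := h7.trans h9
          omega
        have h13 := Nat.le_of_mul_le_mul_right h12 h11
        omega
      · intro a ha
        have h7 : (⟨a, ha⟩ : alternatingGroup α) ∈ P.subgroupOf (alternatingGroup α) := by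
          rw [h6]
          exact Subgroup.mem_top _
        exact h7

end alt

end Pool.Agent.N205.SD
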