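import Mathlib
import Pool.Agent.N205.SD.Defs

/-!
# Facts on `lowField`
-/

set_option autoImplicit false

namespace Pool.Agent.N205.SD

open Polynomial

theorem le_lowField (E : IntermediateField ℚ ℂ) (d : ℕ) : E ≤ lowField E d :=
  le_sInf fun _ hK => hK.1

theorem closed_lowField (E : IntermediateField ℚ ℂ) (d : ℕ) : ClosedUnder d (lowField E d) := by
  intro P z hP hd hz
  unfold lowField
  rw [IntermediateField.mem_sInf]
  intro K hK
  have hle : lowField E d ≤ K := sInf_le hK
  refine hK.2 (P.map (IntermediateField.inclusion hle).toRingHom) z ?_ ?_ ?_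
  · rwa [Ne, Polynomial.map_eq_zero]
  · rwa [Polynomial.natDegree_map]
  · rw [← hz, aeval_def, eval₂_map, aeval_def]
    rfl

theorem lowField_le {E K : IntermediateField ℚ ℂ} {d : ℕ} (h1 : E ≤ K) (h2 : ClosedUnder d K) :
    lowField E d ≤ K := sInf_le ⟨h1, h2⟩

theorem lowField_eq (E : IntermediateField ℚ ℂ) {d : ℕ} (hd : d ≤ 2) : lowField E d = E := by
  refine le_antisymm (lowField_le le_rfl ?_) (le_lowField E d)
  intro P z hP hPd hz
  have h1 : P.natDegree ≤ 1 := by omega
  rw [Polynomial.eq_X_add_C_of_natDegree_le_one h1] at hz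
  rw [map_add, map_mul, aeval_C, aeval_C, aeval_X] at hz
  by_cases ha : P.coeff 1 = 0
  · exfalso
    rw [ha, map_zero, zero_mul, zero_add] at hz
    have h2 : P.coeff 0 = 0 := by
      rw [← map_eq_zero (algebraMap E ℂ)]
      exact hz
    apply hP
    rw [Polynomial.eq_X_add_C_of_natDegree_le_one h1, ha, h2]
    simp
  · have h3 : z = algebraMap E ℂ (-(P.coeff 0) / P.coeff 1) := by
      have h4 : algebraMap E ℂ (P.coeff 1) ≠ 0 := by rwa [Ne, map_eq_zero]
      rw [map_div₀, map_neg, eq_div_iff h4]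
      linear_combination hz
    rw [h3]
    exact (-(P.coeff 0) / P.coeff 1).2

/-- numbers of small degree over `ℚ` -/
theorem mem_lowField_of_root (E : IntermediateField ℚ ℂ) {d : ℕ} (P : ℚ[X]) (hP : P ≠ 0)
    (hd : P.natDegree < d) {z : ℂ} (hz : aeval z P = 0) : z ∈ lowField E d := by
  refine closed_lowField E d (P.map (algebraMap ℚ (lowField E d))) z ?_ ?_ ?_
  · rwa [Ne, Polynomial.map_eq_zero]
  · rwa [Polynomial.natDegree_map]
  · rwa [aeval_map_algebraMap]

/-- quadratic equations -/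
theorem mem_lowField_of_quad (E : IntermediateField ℚ ℂ) {d : ℕ} (hd : 3 ≤ d) {b c z : ℂ}
    (hb : b ∈ lowField E d) (hc : c ∈ lowField E d) (hz : z ^ 2 = b * z + c) :
    z ∈ lowField E d := by
  have hdeg : (X ^ 2 - (C (⟨b, hb⟩ : lowField E d) * X + C ⟨c, hc⟩) :
      (lowField E d)[X]).natDegree = 2 := by
    compute_degree!
  refine closed_lowField E d (X ^ 2 - (C ⟨b, hb⟩ * X + C ⟨c, hc⟩)) z ?_ ?_ ?_
  · intro h0
    rw [h0, natDegree_zero] at hdeg
    omega
  · rw [hdeg]
    omega
  · rw [map_sub, map_pow, aeval_X, map_add, map_mul, aeval_C, aeval_C, aeval_X]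
    change z ^ 2 - (b * z + c) = 0
    rw [hz, sub_self]

end Pool.Agent.N205.SD
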