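import Mathlib
import Pool.Agent.N205.SD.Low
import Pool.Agent.N205.SD.Grp
import Pool.Agent.W484.TB.Pair

/-!
# The field of the elements fixed by large kernels
-/

set_option autoImplicit false

namespace Pool.Agent.N205.SD

open Polynomial Pool.Agent.W484.TB

/-- the algebraic numbers -/
noncomputable abbrev AA : IntermediateField ℚ ℂ := algebraicClosure ℚ ℂ

/-- the automorphisms which are trivial on the Galois closure of `E` -/
def Gam (E : IntermediateField ℚ ℂ) : Subgroup (AA ≃ₐ[ℚ] AA) where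
  carrier := {σ | ∀ y : AA, (y : ℂ) ∈ gal E → σ y = y}
  mul_mem' := by
    intro σ τ hσ hτ y hy
    rw [AlgEquiv.mul_apply, hτ y hy, hσ y hy]
  one_mem' := fun y _ => rfl
  inv_mem' := by
    intro σ hσ y hy
    have h1 := hσ y hy
    change σ.symm y = y
    rw [AlgEquiv.symm_apply_eq, h1]

theorem gal_stable (E : IntermediateField ℚ ℂ) [FiniteDimensional ℚ E] (σ : AA ≃ₐ[ℚ] AA) (y : AA)
    (hy : (y : ℂ) ∈ gal E) : ((σ y : AA) : ℂ) ∈ gal E := by
  have hN : Normal ℚ (gal E) := IsGalois.to_normal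
  have h1 := hN.splits ⟨(y : ℂ), hy⟩
  have h2 : ((minpoly ℚ (⟨(y : ℂ), hy⟩ : gal E)).map (algebraMap ℚ (gal E))).map
      (algebraMap (gal E) ℂ) ≠ 0 := by
    rw [Polynomial.map_map]
    exact ((minpoly.monic (Algebra.IsIntegral.isIntegral _)).map _).ne_zero
  have h3 : (((minpoly ℚ (⟨(y : ℂ), hy⟩ : gal E)).map (algebraMap ℚ (gal E))).map
      (algebraMap (gal E) ℂ)).IsRoot ((σ y : AA) : ℂ) := by
    rw [Polynomial.map_map, IsRoot.def, eval_map]
    have h4 : aeval (σ y) (minpoly ℚ (⟨(y : ℂ), hy⟩ : gal E)) = 0 := by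
      have h5 : aeval y (minpoly ℚ (⟨(y : ℂ), hy⟩ : gal E)) = 0 := by
        apply (algebraMap AA ℂ).injective
        rw [← aeval_algebraMap_apply, map_zero]
        have h6 : aeval ((algebraMap (gal E) ℂ) ⟨(y : ℂ), hy⟩)
            (minpoly ℚ (⟨(y : ℂ), hy⟩ : gal E)) = 0 := by
          rw [aeval_algebraMap_apply, minpoly.aeval, map_zero]
        exact h6
      have h7 := Polynomial.aeval_algHom_apply (σ : AA →ₐ[ℚ] AA) y
        (minpoly ℚ (⟨(y : ℂ), hy⟩ : gal E))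
      rw [h5, map_zero] at h7
      exact h7
    have h8 := aeval_algebraMap_apply ℂ (σ y) (minpoly ℚ (⟨(y : ℂ), hy⟩ : gal E))
    rw [h4, map_zero] at h8
    exact h8
  obtain ⟨w, hw⟩ := h1.mem_range_of_isRoot (Polynomial.map_ne_zero_iff
    (algebraMap (gal E) ℂ).injective |>.1 h2) h3
  rw [← hw]
  exact w.2

theorem gam_normal (E : IntermediateField ℚ ℂ) [FiniteDimensional ℚ E] : (Gam E).Normal := by
  refine ⟨fun σ hσ τ y hy => ?_⟩
  have h1 : ((τ⁻¹ y : AA) : ℂ) ∈ gal E := gal_stable E τ⁻¹ y hy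
  have h2 := hσ (τ⁻¹ y) h1
  rw [AlgEquiv.mul_apply, AlgEquiv.mul_apply, h2]
  exact τ.apply_symm_apply y

section field

variable (Γ₀ : Subgroup (AA ≃ₐ[ℚ] AA)) (d : ℕ)

/-- `z` is fixed by a large kernel -/
def FixLow (z : ℂ) : Prop :=
  ∃ (hz : z ∈ AA) (N : Subgroup (AA ≃ₐ[ℚ] AA)), Low Γ₀ d N ∧ ∀ σ ∈ N, σ ⟨z, hz⟩ = ⟨z, hz⟩

/-- the field of these elements -/
def fixField : IntermediateField ℚ ℂ where
  carrier := {z | FixLow Γ₀ d z}
  mul_mem' := by
    rintro x y ⟨hx, N, hN, hNx⟩ ⟨hy, M, hM, hMy⟩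
    refine ⟨mul_mem hx hy, N ⊓ M, hN.inf hM, fun σ hσ => ?_⟩
    have h1 : (⟨x * y, mul_mem hx hy⟩ : AA) = ⟨x, hx⟩ * ⟨y, hy⟩ := rfl
    rw [h1, map_mul, hNx σ hσ.1, hMy σ hσ.2]
  add_mem' := by
    rintro x y ⟨hx, N, hN, hNx⟩ ⟨hy, M, hM, hMy⟩
    refine ⟨add_mem hx hy, N ⊓ M, hN.inf hM, fun σ hσ => ?_⟩
    have h1 : (⟨x + y, add_mem hx hy⟩ : AA) = ⟨x, hx⟩ + ⟨y, hy⟩ := rfl
    rw [h1, map_add, hNx σ hσ.1, hMy σ hσ.2]
  algebraMap_mem' := by
    intro r
    refine ⟨AA.algebraMap_mem r, Γ₀, Low.base, fun σ _ => ?_⟩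
    exact σ.commutes r
  inv_mem' := by
    rintro x ⟨hx, N, hN, hNx⟩
    refine ⟨inv_mem hx, N, hN, fun σ hσ => ?_⟩
    have h1 : (⟨x⁻¹, inv_mem hx⟩ : AA) = (⟨x, hx⟩ : AA)⁻¹ := rfl
    rw [h1, map_inv₀, hNx σ hσ]

theorem mem_fixField {z : ℂ} : z ∈ fixField Γ₀ d ↔ FixLow Γ₀ d z := Iff.rfl

theorem fixField_le : fixField Γ₀ d ≤ AA := fun _ hz => hz.1

theorem closed_fixField : ClosedUnder d (fixField Γ₀ d) := by
  classical
  intro P z hP hPd hz
  have hle := fixField_le Γ₀ d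
  set P' : Polynomial AA := P.map (IntermediateField.inclusion hle).toRingHom with hP'
  have hP'0 : P' ≠ 0 := by rwa [hP', Ne, Polynomial.map_eq_zero]
  have hP'd : P'.natDegree < d := by rwa [hP', Polynomial.natDegree_map]
  have hzP' : (P'.map (algebraMap AA ℂ)).IsRoot z := by
    rw [IsRoot.def, eval_map, hP', eval₂_map, ← hz, aeval_def]
    rfl
  have hcl : IsAlgClosed AA := (algebraicClosure.isAlgClosure ℚ ℂ).isAlgClosed
  obtain ⟨w, hw⟩ := (IsAlgClosed.splits P').mem_range_of_isRoot hP'0 hzP'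
  have hzA : z ∈ AA := by
    rw [← hw]
    exact w.2
  have hwz : w = ⟨z, hzA⟩ := Subtype.ext hw
  -- a subgroup which fixes all coefficients
  have hN : ∀ n : ℕ, ∃ N, Low Γ₀ d N ∧ ∀ k < n, ∀ σ ∈ N, σ (P'.coeff k) = P'.coeff k := by
    intro n
    induction n with
    | zero => exact ⟨Γ₀, Low.base, fun k hk => absurd hk (Nat.not_lt_zero k)⟩
    | succ n ih =>
      obtain ⟨N, hN, h1⟩ := ih
      obtain ⟨hx, M, hM, h2⟩ := (P.coeff n).2
      refine ⟨N ⊓ M, hN.inf hM, fun k hk σ hσ => ?_⟩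
      rcases Nat.lt_succ_iff_lt_or_eq.1 hk with h3 | h3
      · exact h1 k h3 σ hσ.1
      · subst h3
        have h4 : P'.coeff k = ⟨((P.coeff k : fixField Γ₀ d) : ℂ), hx⟩ := by
          rw [hP', coeff_map]
          rfl
        rw [h4]
        exact h2 σ hσ.2
  obtain ⟨N, hN, hfix⟩ := hN (P'.natDegree + 1)
  have hmap : ∀ σ ∈ N, P'.map ((σ : AA ≃ₐ[ℚ] AA) : AA →+* AA) = P' := by
    intro σ hσ
    ext k
    rw [coeff_map]
    rcases Nat.lt_or_ge k (P'.natDegree + 1) with h | h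
    · exact congrArg _ (hfix k h σ hσ)
    · rw [coeff_eq_zero_of_natDegree_lt (by omega), map_zero]
  -- the action on the roots
  let T := {x : AA // P'.eval x = 0}
  have hst : ∀ σ ∈ N, ∀ x : AA, P'.eval x = 0 → P'.eval (σ x) = 0 := by
    intro σ hσ x hx
    have h1 := Polynomial.hom_eval₂ P' (RingHom.id AA) ((σ : AA ≃ₐ[ℚ] AA) : AA →+* AA) x
    rw [← Polynomial.eval, hx, map_zero, RingHom.comp_id] at h1
    rw [← hmap σ hσ, eval_map]
    exact h1.symm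
  have hTfin : Finite T := by
    have h1 : {x : AA | P'.eval x = 0}.Finite := by
      refine (P'.roots.toFinset.finite_toSet).subset ?_
      intro x hx
      rw [Finset.mem_coe, Multiset.mem_toFinset, mem_roots hP'0]
      exact hx
    exact h1
  have hTcard : Nat.card T < d := by
    refine lt_of_le_of_lt ?_ hP'd
    have h1 : Nat.card T ≤ Nat.card {x // x ∈ P'.roots.toFinset} := by
      refine Nat.card_le_card_of_injective (fun x : T => ⟨x.1, ?_⟩) ?_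
      · rw [Multiset.mem_toFinset, mem_roots hP'0]
        exact x.2
      · intro x y hxy
        exact Subtype.ext (Subtype.mk.inj hxy)
    refine h1.trans ?_
    rw [Nat.card_eq_fintype_card, Fintype.card_coe]
    exact (Multiset.toFinset_card_le _).trans (card_roots' _)
  let f : N →* Function.End T :=
    { toFun := fun σ x => ⟨(σ : AA ≃ₐ[ℚ] AA) x.1, hst σ σ.2 x.1 x.2⟩
      map_one' := rfl
      map_mul' := fun σ τ => rfl }
  let ψ : N →* Equiv.Perm T := MonoidHom.toHomPerm f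
  have hψ : ∀ (σ : N) (x : T), ((ψ σ x : T) : AA) = (σ : AA ≃ₐ[ℚ] AA) x.1 := fun σ x => rfl
  -- the kernel
  let N' : Subgroup (AA ≃ₐ[ℚ] AA) :=
    { carrier := {σ | σ ∈ N ∧ σ ⟨z, hzA⟩ = ⟨z, hzA⟩}
      mul_mem' := by
        rintro σ τ ⟨hσ, hσz⟩ ⟨hτ, hτz⟩
        refine ⟨mul_mem hσ hτ, ?_⟩
        rw [AlgEquiv.mul_apply, hτz, hσz]
      one_mem' := ⟨one_mem N, rfl⟩
      inv_mem' := by
        rintro σ ⟨hσ, hσz⟩
        refine ⟨inv_mem hσ, ?_⟩
        change σ.symm ⟨z, hzA⟩ = ⟨z, hzA⟩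
        rw [AlgEquiv.symm_apply_eq, hσz] }
  have hwroot : P'.eval w = 0 := by
    have h1 := hzP'
    rw [← hw, IsRoot.def, eval_map, Polynomial.eval₂_at_apply, map_eq_zero] at h1
    exact h1
  refine ⟨hzA, N', ?_, fun σ hσ => hσ.2⟩
  refine Low.step N N' hN (fun σ hσ => hσ.1) T hTfin hTcard ψ ?_
  intro σ hσ
  refine ⟨σ.2, ?_⟩
  have h1 := hψ σ ⟨w, hwroot⟩
  rw [hσ] at h1
  rw [← hwz]
  exact h1.symm

end field

theorem lowField_le_fix (E : IntermediateField ℚ ℂ) [FiniteDimensional ℚ E] (d : ℕ) :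
    lowField (gal E) d ≤ fixField (Gam E) d := by
  refine lowField_le ?_ (closed_fixField _ d)
  intro y hyg
  have halg : y ∈ AA := by
    rw [mem_algebraicClosure_iff]
    have h1 : IsAlgebraic ℚ (⟨y, hyg⟩ : gal E) := Algebra.IsAlgebraic.isAlgebraic _
    exact h1.algebraMap (A := ℂ)
  exact ⟨halg, Gam E, Low.base, fun σ hσ => hσ ⟨y, halg⟩ hyg⟩

end Pool.Agent.N205.SD
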