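import Mathlib
import Pool.Agent.N205.SD.Fix

/-!
# Automorphisms which fix an element of the closure and move a root
-/

set_option autoImplicit false

namespace Pool.Agent.N205.SD

open Polynomial Pool.Agent.W484.TB Pool.Agent.W521.Frob Pool.Agent.W521.Criterion

section lift

variable {L : Type} [Field L] [NumberField L] [IsGalois ℚ L]

omit [IsGalois ℚ L] in
theorem exists_jA (j : L →+* ℂ) : ∃ jA : L →ₐ[ℚ] AA, ∀ x, ((jA x : AA) : ℂ) = j x := by
  have h : ∀ x, j.toRatAlgHom x ∈ AA.toSubalgebra := by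
    intro x
    change j.toRatAlgHom x ∈ AA
    rw [mem_algebraicClosure_iff]
    have h1 : IsAlgebraic ℚ x := Algebra.IsAlgebraic.isAlgebraic _
    exact h1.algHom j.toRatAlgHom
  exact ⟨j.toRatAlgHom.codRestrict AA.toSubalgebra h, fun x => rfl⟩

theorem lift_exists (jA : L →ₐ[ℚ] AA) (σ : L ≃ₐ[ℚ] L) :
    ∃ s : AA ≃ₐ[ℚ] AA, ∀ x, s (jA x) = jA (σ x) := by
  let _ : Algebra L AA := jA.toRingHom.toAlgebra
  have _ : IsScalarTower ℚ L AA := IsScalarTower.of_algebraMap_eq' (RingHom.ext_rat _ _)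
  have hcl : IsAlgClosure ℚ AA := algebraicClosure.isAlgClosure ℚ ℂ
  have hN : Normal ℚ AA := IsAlgClosure.normal ℚ AA
  obtain ⟨s, hs⟩ := AlgEquiv.restrictNormalHom_surjective (F := ℚ) (K₁ := L) AA σ
  refine ⟨s, fun x => ?_⟩
  have h1 := AlgEquiv.restrictNormal_commutes s L x
  rw [← hs]
  exact h1.symm

theorem restrict_exists (jA : L →ₐ[ℚ] AA) (s : AA ≃ₐ[ℚ] AA) :
    ∃ σ : L ≃ₐ[ℚ] L, ∀ x, s (jA x) = jA (σ x) := by
  let _ : Algebra L AA := jA.toRingHom.toAlgebra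
  have _ : IsScalarTower ℚ L AA := IsScalarTower.of_algebraMap_eq' (RingHom.ext_rat _ _)
  exact ⟨s.restrictNormal L, fun x => (AlgEquiv.restrictNormal_commutes s L x).symm⟩

end lift

/-- the roots of `h` -/
def Rt (h : ℤ[X]) : Type := {y : AA // aeval y h = 0}

theorem finite_rt {h : ℤ[X]} (hm : h.Monic) : Finite (Rt h) := by
  have h1 : {y : AA | aeval y h = 0}.Finite := by
    have h2 : (h.map (algebraMap ℤ AA)) ≠ 0 := (hm.map _).ne_zero
    refine ((h.map (algebraMap ℤ AA)).roots.toFinset.finite_toSet).subset ?_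
    intro x hx
    rw [Finset.mem_coe, Multiset.mem_toFinset, mem_roots h2, IsRoot.def, eval_map]
    exact hx
  exact h1

theorem aeval_aut (h : ℤ[X]) (σ : AA ≃ₐ[ℚ] AA) (y : AA) (hy : aeval y h = 0) :
    aeval (σ y) h = 0 := by
  have h2 := Polynomial.hom_eval₂ h (algebraMap ℤ AA) (σ : AA →+* AA) y
  have h3 : eval₂ (algebraMap ℤ AA) y h = 0 := hy
  rw [h3, map_zero, RingHom.ext_int ((σ : AA →+* AA).comp (algebraMap ℤ AA)) (algebraMap ℤ AA)]
    at h2
  exact h2.symm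

/-- the action on the roots -/
noncomputable def permRt (h : ℤ[X]) : (AA ≃ₐ[ℚ] AA) →* Equiv.Perm (Rt h) :=
  MonoidHom.toHomPerm
    { toFun := fun σ y => ⟨σ y.1, aeval_aut h σ y.1 y.2⟩
      map_one' := rfl
      map_mul' := fun _ _ => rfl }

theorem permRt_coe (h : ℤ[X]) (σ : AA ≃ₐ[ℚ] AA) (y : Rt h) : (permRt h σ y).1 = σ y.1 := rfl

theorem exists_moves {α : Type*} [Fintype α] [DecidableEq α] (h3 : 3 ≤ Fintype.card α) (a : α) :
    ∃ s ∈ alternatingGroup α, s a ≠ a := by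
  obtain ⟨b, hb, c, hc, hbc⟩ : ∃ b, b ≠ a ∧ ∃ c, c ≠ a ∧ b ≠ c := by
    have h1 : 1 < (Finset.univ.erase a).card := by
      rw [Finset.card_erase_of_mem (Finset.mem_univ a), Finset.card_univ]
      omega
    obtain ⟨b, hb, c, hc, hbc⟩ := Finset.one_lt_card.1 h1
    exact ⟨b, Finset.ne_of_mem_erase hb, c, Finset.ne_of_mem_erase hc, hbc⟩
  refine ⟨Equiv.swap a b * Equiv.swap a c, ?_, ?_⟩
  · rw [Equiv.Perm.mem_alternatingGroup, map_mul, Equiv.Perm.sign_swap hb.symm,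
      Equiv.Perm.sign_swap hc.symm]
    rfl
  · rw [Equiv.Perm.mul_apply, Equiv.swap_apply_left, Equiv.swap_apply_of_ne_of_ne hc hbc.symm]
    exact hc

open Classical in
/-- The elements of the fixed field of a large kernel contain no root. -/
theorem noRoot_of_alt {h : ℤ[X]} {q : ℕ} (hm : h.Monic) (hq : q ≠ 0)
    (E : IntermediateField ℚ ℂ) (d : ℕ) [Fintype (Rt h)]
    (halt : alternatingGroup (Rt h) ≤ (Gam E).map (permRt h))
    (hd : d ≤ Fintype.card (Rt h)) (h3 : 3 ≤ Fintype.card (Rt h))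
    (h5 : 4 ≤ d → 5 ≤ Fintype.card (Rt h)) (z : ℂ) (hz : aeval z (weil q h) = 0) :
    z ∉ fixField (Gam E) d := by
  rintro ⟨hzA, N, hN, hfix⟩
  have hroot := (root_iff hq hm z).1 hz
  obtain ⟨y, hy⟩ : ∃ y : AA, y = ⟨z, hzA⟩ := ⟨_, rfl⟩
  rw [← hy] at hfix
  have hyz : (algebraMap AA ℂ) y = z := by rw [hy]; rfl
  have hθ : aeval (y + q / y) h = 0 := by
    apply (algebraMap AA ℂ).injective
    rw [← aeval_algebraMap_apply, map_zero]
    have h1 : (algebraMap AA ℂ) (y + q / y) = z + q / z := by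
      rw [map_add, map_div₀, map_natCast, hyz]
    rw [h1]
    exact hroot.2
  obtain ⟨a, ha, hmove⟩ := exists_moves h3 (⟨y + q / y, hθ⟩ : Rt h)
  have hle := alternating_le_of_low (permRt h) (by convert halt) hd h3 h5 hN
  obtain ⟨n, hn, hna⟩ := hle ha
  apply hmove
  rw [← hna]
  refine Subtype.ext ?_
  change n (y + q / y) = y + q / y
  rw [map_add, map_div₀, map_natCast, hfix n hn]

end Pool.Agent.N205.SD
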