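import Mathlib
import Pool.Agent.N205.SD.Free

/-!
# Factorisation patterns and the Galois group of the real Weil polynomial
-/

set_option autoImplicit false

namespace Pool.Agent.N205.SD

open Polynomial NumberField Pool.Agent.W484.TB Pool.Agent.W521.Frob Pool.Agent.W521.Criterion

/-- Modulo `l` the polynomial `h` is the product of an irreducible polynomial of degree at least
two and of `n` different linear polynomials. -/
def CycPat (h : ℤ[X]) (l n : ℕ) : Prop :=
  ∃ (u : (ZMod l)[X]) (T : Finset (ZMod l)), Irreducible u ∧ 2 ≤ u.natDegree ∧ T.card = n ∧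
    h.map (Int.castRingHom (ZMod l)) = u * ∏ t ∈ T, (X - C t)

/-- `s` fixes `n` elements and permutes the others cyclically. -/
def Cyc {α : Type*} (G : Subgroup (Equiv.Perm α)) (n : ℕ) : Prop :=
  ∃ s ∈ G, ∃ A : Finset α, A.card = n ∧ (∀ a ∈ A, s a = a) ∧
    ∀ a, a ∉ A → ∀ b, b ∉ A → ∃ m : ℕ, (s ^ m) a = b

section jordan

variable {α : Type*} [Fintype α] [DecidableEq α]

theorem top_of_cyc (G : Subgroup (Equiv.Perm α)) (hα : 3 ≤ Fintype.card α) (h0 : Cyc G 0)
    (h1 : Cyc G 1) (h2 : Cyc G (Fintype.card α - 2)) : G = ⊤ := by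
  -- transitivity
  have htr : ∀ a b : α, ∃ g ∈ G, g a = b := by
    obtain ⟨s, hs, A, hA, -, htr⟩ := h0
    rw [Finset.card_eq_zero] at hA
    subst hA
    intro a b
    obtain ⟨m, hm⟩ := htr a (Finset.notMem_empty a) b (Finset.notMem_empty b)
    exact ⟨s ^ m, pow_mem hs m, hm⟩
  -- double transitivity
  have h2tr : MulAction.IsMultiplyPretransitive G α 2 := by
    rw [MulAction.is_two_pretransitive_iff]
    intro a b c d hab hcd
    obtain ⟨s, hs, A, hA, hfix, htr1⟩ := h1
    obtain ⟨x, hx⟩ := Finset.card_eq_one.1 hA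
    subst hx
    obtain ⟨g₁, hg₁, hg₁a⟩ := htr x a
    obtain ⟨g₂, hg₂, hg₂c⟩ := htr x c
    obtain ⟨m, hm⟩ := htr1 (g₁⁻¹ b) (by
      rw [Finset.mem_singleton, Equiv.Perm.inv_eq_iff_eq, hg₁a]
      exact hab.symm) (g₂⁻¹ d) (by
      rw [Finset.mem_singleton, Equiv.Perm.inv_eq_iff_eq, hg₂c]
      exact hcd.symm)
    have hsx : ∀ m : ℕ, (s ^ m) x = x := by
      intro m
      induction m with
      | zero => rfl
      | succ m ih => rw [pow_succ, Equiv.Perm.mul_apply, hfix x (Finset.mem_singleton_self x), ih]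
    refine ⟨⟨g₂ * s ^ m * g₁⁻¹, mul_mem (mul_mem hg₂ (pow_mem hs m)) (inv_mem hg₁)⟩, ?_, ?_⟩
    · change (g₂ * s ^ m * g₁⁻¹) a = c
      rw [Equiv.Perm.mul_apply, Equiv.Perm.mul_apply]
      have h3 : g₁⁻¹ a = x := by rw [Equiv.Perm.inv_eq_iff_eq, hg₁a]
      rw [h3, hsx, hg₂c]
    · change (g₂ * s ^ m * g₁⁻¹) b = d
      rw [Equiv.Perm.mul_apply, Equiv.Perm.mul_apply, hm]
      exact g₂.apply_symm_apply d
  have hprim : MulAction.IsPreprimitive G α := MulAction.isPreprimitive_of_is_two_pretransitive h2tr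
  -- the transposition
  obtain ⟨s, hs, A, hA, hfix, htr2⟩ := h2
  refine Equiv.Perm.subgroup_eq_top_of_isPreprimitive_of_isSwap_mem hprim s ?_ hs
  have hAc : Aᶜ.card = 2 := by
    rw [Finset.card_compl, hA]
    omega
  obtain ⟨a, b, hab, hAab⟩ := Finset.card_eq_two.1 hAc
  have haA : a ∉ A := by
    rw [← Finset.mem_compl, hAab]
    simp
  have hbA : b ∉ A := by
    rw [← Finset.mem_compl, hAab]
    simp
  have hmem : ∀ c, c ∉ A → c = a ∨ c = b := by
    intro c hc
    rw [← Finset.mem_compl, hAab] at hc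
    simpa using hc
  have hst : ∀ c, c ∉ A → s c ∉ A := by
    intro c hc h3
    have h4 : s c = c := s.injective (hfix _ h3)
    rw [h4] at h3
    exact hc h3
  have hpow : ∀ c, s c = c → ∀ m : ℕ, (s ^ m) c = c := by
    intro c hc m
    induction m with
    | zero => rfl
    | succ m ih => rw [pow_succ, Equiv.Perm.mul_apply, hc, ih]
  have hsa : s a = b := by
    rcases hmem _ (hst a haA) with h3 | h3
    · exfalso
      obtain ⟨m, hm⟩ := htr2 a haA b hbA
      rw [hpow a h3 m] at hm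
      exact hab hm
    · exact h3
  have hsb : s b = a := by
    rcases hmem _ (hst b hbA) with h3 | h3
    · exact h3
    · exfalso
      obtain ⟨m, hm⟩ := htr2 b hbA a haA
      rw [hpow b h3 m] at hm
      exact hab hm.symm
  refine ⟨a, b, hab, ?_⟩
  ext c
  by_cases hc : c ∈ A
  · rw [hfix c hc, Equiv.swap_apply_of_ne_of_ne]
    · rintro rfl
      exact haA hc
    · rintro rfl
      exact hbA hc
  · rcases hmem c hc with rfl | rfl
    · rw [hsa, Equiv.swap_apply_left]
    · rw [hsb, Equiv.swap_apply_right]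

end jordan

/-- The orbits of Frobenius. -/
theorem frob_orbit {l : ℕ} [hl : Fact l.Prime] {k : Type*} [Field k] [Algebra (ZMod l) k]
    (u : (ZMod l)[X]) (hu : Irreducible u) (x y : k) (hx : aeval x u = 0) (hy : aeval y u = 0) :
    ∃ m : ℕ, x ^ (l ^ m) = y := by
  classical
  have hxi : IsIntegral (ZMod l) x := (isAlgebraic_iff_isIntegral).1 ⟨u, hu.ne_zero, hx⟩
  have hyi : IsIntegral (ZMod l) y := (isAlgebraic_iff_isIntegral).1 ⟨u, hu.ne_zero, hy⟩
  let M : IntermediateField (ZMod l) k := IntermediateField.adjoin (ZMod l) {x, y}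
  have hfd : FiniteDimensional (ZMod l) M := by
    refine IntermediateField.finiteDimensional_adjoin ?_
    intro z hz
    rcases hz with rfl | hz
    · exact hxi
    · rw [Set.mem_singleton_iff] at hz
      rw [hz]
      exact hyi
  have hfin : Finite M := Module.finite_of_finite (ZMod l)
  have hxM : x ∈ M := IntermediateField.subset_adjoin _ _ (by simp)
  have hyM : y ∈ M := IntermediateField.subset_adjoin _ _ (by simp)
  have hx' : aeval (⟨x, hxM⟩ : M) u = 0 := by
    apply (algebraMap M k).injective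
    rw [← aeval_algebraMap_apply, map_zero]
    exact hx
  have hy' : aeval (⟨y, hyM⟩ : M) u = 0 := by
    apply (algebraMap M k).injective
    rw [← aeval_algebraMap_apply, map_zero]
    exact hy
  have hmin := minpoly.eq_of_irreducible hu hx'
  have hN : Normal (ZMod l) M := inferInstance
  obtain ⟨σ, hσ⟩ := minpoly.exists_algEquiv_of_root' (K := ZMod l) (x := (⟨y, hyM⟩ : M))
    (y := (⟨x, hxM⟩ : M)) (Algebra.IsAlgebraic.isAlgebraic _) (by
      rw [← hmin, map_mul, hy', zero_mul])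
  obtain ⟨n, hn⟩ := (FiniteField.bijective_frobeniusAlgEquivOfAlgebraic_pow (ZMod l) M).2 σ
  refine ⟨n, ?_⟩
  have h1 := congrArg (fun τ : M ≃ₐ[ZMod l] M => ((τ ⟨x, hxM⟩ : M) : k)) hn
  have h2 : ∀ (m : ℕ) (z : M),
      (FiniteField.frobeniusAlgEquivOfAlgebraic (ZMod l) M ^ m) z = z ^ (l ^ m) := by
    intro m z
    induction m with
    | zero => simp
    | succ m ih =>
      rw [pow_succ', AlgEquiv.mul_apply, ih, FiniteField.coe_frobeniusAlgEquivOfAlgebraic,
        ZMod.card]
      change (z ^ l ^ m) ^ l = z ^ l ^ (m + 1)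
      rw [← pow_mul, ← pow_succ]
  simp only [h2, hσ] at h1
  exact h1

theorem card_rt {h : ℤ[X]} (hm : h.Monic) (hirr : Irreducible (h.map (Int.castRingHom ℚ)))
    [Fintype (Rt h)] : Fintype.card (Rt h) = h.natDegree := by
  classical
  have hcl : IsAlgClosed AA := (algebraicClosure.isAlgClosure ℚ ℂ).isAlgClosed
  have hsep : (h.map (algebraMap ℤ AA)).Separable := by
    have h1 := hirr.separable
    have h2 := h1.map (f := algebraMap ℚ AA)
    rwa [Polynomial.map_map, RingHom.ext_int ((algebraMap ℚ AA).comp (Int.castRingHom ℚ))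
      (algebraMap ℤ AA)] at h2
  have h1 : (h.map (algebraMap ℤ AA)).roots.toFinset.card = h.natDegree := by
    rw [Multiset.toFinset_card_of_nodup (nodup_roots hsep),
      ← (IsAlgClosed.splits (h.map (algebraMap ℤ AA))).natDegree_eq_card_roots, hm.natDegree_map]
  rw [← h1, ← Fintype.card_coe]
  refine Fintype.card_congr (Equiv.subtypeEquivRight fun y => ?_)
  rw [Multiset.mem_toFinset, mem_roots ((hm.map _).ne_zero), IsRoot.def, eval_map]
  rfl

theorem separable_of_pat {h : ℤ[X]} {l n : ℕ} [hl : Fact l.Prime] (hpat : CycPat h l n) {k : Type*}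
    [Field k] (ψ : ZMod l →+* k) : (h.map (Int.castRingHom k)).Separable := by
  classical
  obtain ⟨u, T, hu, hdeg, -, hfac⟩ := hpat
  have h1 : (h.map (Int.castRingHom (ZMod l))).Separable := by
    rw [hfac]
    refine Separable.mul (PerfectField.separable_of_irreducible hu) (separable_prod_X_sub_C_iff'.2 fun a _ b _ hab => hab) ?_
    refine IsCoprime.prod_right fun t _ => ?_
    rw [hu.coprime_iff_not_dvd]
    intro h2
    have h3 := natDegree_le_of_dvd h2 (X_sub_C_ne_zero t)
    rw [natDegree_X_sub_C] at h3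
    omega
  have h2 := h1.map (f := ψ)
  rwa [Polynomial.map_map, RingHom.ext_int (ψ.comp (Int.castRingHom (ZMod l)))
    (Int.castRingHom k)] at h2

open Classical in
/-- The action of a Frobenius element on the roots. -/
theorem cyc_frob {h : ℤ[X]} (hm : h.Monic) (hirr : Irreducible (h.map (Int.castRingHom ℚ)))
    {L : Type} [Field L] [NumberField L] [IsGalois ℚ L] (jA : L →ₐ[ℚ] AA)
    (hL : ∀ y : AA, aeval y h = 0 → ∃ x : L, jA x = y)
    {l n : ℕ} [Fact l.Prime] (hpat : CycPat h l n) {k : Type} [Field k] [hchar : CharP k l]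
    (φ : 𝓞 L →+* k) (σ : Gal(L/ℚ)) (hσ : ∀ x : 𝓞 L, φ (σ • x) = φ x ^ l)
    (s : AA ≃ₐ[ℚ] AA) (hs : ∀ x, s (jA x) = jA (σ x)) :
    ∃ A : Finset (Rt h), A.card = n ∧ (∀ a ∈ A, permRt h s a = a) ∧
      ∀ a, a ∉ A → ∀ b, b ∉ A → ∃ m : ℕ, (permRt h s ^ m) a = b := by
  let ψ : ZMod l →+* k := ZMod.castHom dvd_rfl k
  let _ : Algebra (ZMod l) k := ψ.toAlgebra
  have hsep := separable_of_pat hpat ψ
  obtain ⟨u, T, hu, hdeg, hT, hfac⟩ := hpat
  have hfinRt := finite_rt hm
  have hfRt := Fintype.ofFinite (Rt h)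
  -- integral representatives
  have hrep : ∀ a : Rt h, ∃ t : 𝓞 L, jA (t : L) = a.1 ∧ aeval t h = 0 := by
    intro a
    obtain ⟨x, hx⟩ := hL a.1 a.2
    have h1 : aeval x h = 0 := by
      have h2 := Polynomial.hom_eval₂ h (algebraMap ℤ L) (jA : L →+* AA) x
      rw [RingHom.ext_int ((jA : L →+* AA).comp (algebraMap ℤ L)) (algebraMap ℤ AA)] at h2
      have h3 : (jA : L →+* AA) x = a.1 := hx
      rw [h3] at h2
      have h4 : eval₂ (algebraMap ℤ AA) a.1 h = 0 := a.2
      rw [h4] at h2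
      exact (map_eq_zero _).1 h2
    refine ⟨⟨x, ⟨h, hm, h1⟩⟩, hx, ?_⟩
    apply RingOfIntegers.coe_injective
    have h5 := aeval_algebraMap_apply L (⟨x, ⟨h, hm, h1⟩⟩ : 𝓞 L) h
    exact h5.symm.trans (h1.trans (map_zero _).symm)
  choose t htj hth using hrep
  have hinjt : ∀ (x y : 𝓞 L), jA (x : L) = jA (y : L) → x = y := by
    intro x y hxy
    exact RingOfIntegers.coe_injective ((jA : L →+* AA).injective hxy)
  -- the action
  have hact : ∀ a : Rt h, t (permRt h s a) = σ • t a := by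
    intro a
    apply hinjt
    rw [htj]
    change s a.1 = jA (σ (t a : L))
    rw [← hs, htj]
  -- the images
  have himg : ∀ a : Rt h, aeval (φ (t a)) u = 0 ∨ ∃ c ∈ T, φ (t a) = ψ c := by
    intro a
    have h1 : ((h.map (Int.castRingHom (ZMod l))).map ψ).eval (φ (t a)) = 0 := by
      have h2 : φ (eval₂ (Int.castRingHom (𝓞 L)) (t a) h) = 0 := by
        have h3 : eval₂ (Int.castRingHom (𝓞 L)) (t a) h = aeval (t a) h := rfl
        rw [h3, hth, map_zero]
      rw [Polynomial.hom_eval₂] at h2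
      rw [Polynomial.map_map, eval_map, RingHom.ext_int (ψ.comp (Int.castRingHom (ZMod l)))
        (Int.castRingHom k)]
      rwa [RingHom.ext_int (φ.comp (Int.castRingHom (𝓞 L))) (Int.castRingHom k)] at h2
    rw [hfac, Polynomial.map_mul, eval_mul, Polynomial.map_prod, eval_prod, mul_eq_zero,
      Finset.prod_eq_zero_iff] at h1
    rcases h1 with h1 | ⟨c, hc, h1⟩
    · left
      rw [aeval_def, ← eval_map]
      exact h1
    · right
      refine ⟨c, hc, ?_⟩
      rw [Polynomial.map_sub, map_X, map_C, eval_sub, eval_X, eval_C, sub_eq_zero] at h1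
      exact h1
  have hinjφ : ∀ a b : Rt h, φ (t a) = φ (t b) → a = b := by
    intro a b hab
    have h1 := eq_of_map_eq φ h hsep (t a) (t b) (hth a) (hth b) hab
    apply Subtype.ext
    rw [← htj a, ← htj b, h1]
  set A : Finset (Rt h) := Finset.univ.filter (fun a => ∃ c ∈ T, φ (t a) = ψ c) with hA
  -- the number of fixed roots
  have hA1 : A.card ≤ n := by
    have h1 : (A.image fun a => φ (t a)) ⊆ T.image ψ := by
      intro z hz
      obtain ⟨a, ha, rfl⟩ := Finset.mem_image.1 hz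
      obtain ⟨c, hc, hac⟩ := (Finset.mem_filter.1 ha).2
      exact Finset.mem_image.2 ⟨c, hc, hac.symm⟩
    have h2 := Finset.card_le_card h1
    rw [Finset.card_image_of_injective A (fun a b hab => hinjφ a b hab)] at h2
    exact h2.trans (Finset.card_image_le.trans hT.le)
  have hA2 : Aᶜ.card ≤ u.natDegree := by
    have hu0 : u.map ψ ≠ 0 := by
      rw [Ne, Polynomial.map_eq_zero]
      exact hu.ne_zero
    have h1 : (Aᶜ.image fun a => φ (t a)) ⊆ (u.map ψ).roots.toFinset := by
      intro z hz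
      obtain ⟨a, ha, rfl⟩ := Finset.mem_image.1 hz
      rw [Multiset.mem_toFinset, mem_roots hu0, IsRoot.def, eval_map]
      rcases himg a with h2 | h2
      · exact h2
      · exfalso
        rw [Finset.mem_compl] at ha
        exact ha (Finset.mem_filter.2 ⟨Finset.mem_univ _, h2⟩)
    have h2 := Finset.card_le_card h1
    rw [Finset.card_image_of_injective Aᶜ (fun a b hab => hinjφ a b hab)] at h2
    refine h2.trans ((Multiset.toFinset_card_le _).trans ((card_roots' _).trans ?_))
    rw [natDegree_map]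
  have hdegh : h.natDegree = u.natDegree + n := by
    have h1 := congrArg natDegree hfac
    rw [hm.natDegree_map, natDegree_mul hu.ne_zero (Finset.prod_ne_zero_iff.2 fun c _ =>
      X_sub_C_ne_zero c), natDegree_prod_of_monic _ _ fun c _ => monic_X_sub_C c] at h1
    simp only [natDegree_X_sub_C, Finset.sum_const, smul_eq_mul, mul_one] at h1
    rw [h1, hT]
  have hAn : A.card = n := by
    have h1 := card_rt hm hirr
    have h2 := Finset.card_add_card_compl A
    omega
  refine ⟨A, hAn, ?_, ?_⟩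
  · -- fixed roots
    intro a ha
    obtain ⟨c, hc, hac⟩ := (Finset.mem_filter.1 ha).2
    apply hinjφ
    rw [hact, hσ, hac, ← map_pow, ZMod.pow_card]
  · -- transitivity on the others
    intro a ha b hb
    have hroot : ∀ a, a ∉ A → aeval (φ (t a)) u = 0 := by
      intro a ha
      rcases himg a with h2 | h2
      · exact h2
      · exact (ha (Finset.mem_filter.2 ⟨Finset.mem_univ _, h2⟩)).elim
    obtain ⟨m, hm'⟩ := frob_orbit u hu _ _ (hroot a ha) (hroot b hb)
    refine ⟨m, ?_⟩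
    apply hinjφ
    rw [← hm']
    have h3 : ∀ m : ℕ, φ (t ((permRt h s ^ m) a)) = φ (t a) ^ (l ^ m) := by
      intro m
      induction m with
      | zero => simp
      | succ m ih =>
        rw [pow_succ', Equiv.Perm.mul_apply, hact, hσ, ih, ← pow_mul, ← pow_succ]
    exact h3 m

theorem exists_cyc {h : ℤ[X]} (hm : h.Monic) (hirr : Irreducible (h.map (Int.castRingHom ℚ)))
    (E : IntermediateField ℚ ℂ) [FiniteDimensional ℚ E]
    {L : Type} [Field L] [NumberField L] [IsGalois ℚ L] (jA : L →ₐ[ℚ] AA) [Algebra (gal E) L]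
    (hjE : ∀ y : gal E, ((jA (algebraMap (gal E) L y) : AA) : ℂ) = y)
    (hL : ∀ y : AA, aeval y h = 0 → ∃ x : L, jA x = y)
    {l n : ℕ} (hl : l.Prime) (hlE : TrivFrob (gal E) l) (hpat : CycPat h l n) :
    Cyc ((Gam E).map (permRt h)) n := by
  have : Fact l.Prime := ⟨hl⟩
  obtain ⟨k, _, hchar, φ, σ, hσ⟩ := exists_frob L l hl
  obtain ⟨s, hs⟩ := lift_exists jA σ
  obtain ⟨A, h1, h2, h3⟩ := cyc_frob hm hirr jA hL hpat φ σ hσ s hs
  refine ⟨permRt h s, ⟨s, ?_, rfl⟩, A, h1, h2, h3⟩
  -- trivial on the Galois closure of `E`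
  intro y hy
  have h1 : y = jA (algebraMap (gal E) L ⟨(y : ℂ), hy⟩) := Subtype.ext (hjE ⟨(y : ℂ), hy⟩).symm
  rw [h1, hs, trivial_on hlE ⟨k, inferInstance, hchar, φ, hσ⟩]

theorem exists_cyc_top {h : ℤ[X]} (hm : h.Monic) (hirr : Irreducible (h.map (Int.castRingHom ℚ)))
    {L : Type} [Field L] [NumberField L] [IsGalois ℚ L] (jA : L →ₐ[ℚ] AA)
    (hL : ∀ y : AA, aeval y h = 0 → ∃ x : L, jA x = y)
    {l n : ℕ} (hl : l.Prime) (hpat : CycPat h l n) : Cyc (permRt h).range n := by
  have : Fact l.Prime := ⟨hl⟩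
  obtain ⟨k, _, hchar, φ, σ, hσ⟩ := exists_frob L l hl
  obtain ⟨s, hs⟩ := lift_exists jA σ
  obtain ⟨A, h1, h2, h3⟩ := cyc_frob hm hirr jA hL hpat φ σ hσ s hs
  exact ⟨permRt h s, ⟨s, rfl⟩, A, h1, h2, h3⟩

end Pool.Agent.N205.SD
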