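import Mathlib
import Pool.Agent.N205.SD.Free

/-!
# Relations between the roots of Weil polynomials and numbers of small rank over a field `K`
-/

set_option autoImplicit false
set_option linter.unusedSectionVars false

namespace Pool.Agent.N205.SD

open Polynomial Pool.Agent.W521.Frob Pool.Agent.W521.Criterion Pool.Agent.W484.BB
  IntermediateField Module Pool.Agent.W484.AA Pool.Agent.W484.TB

theorem normal_stable {L : Type} [Field L] [NumberField L] (j : L →+* ℂ)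
    {K : IntermediateField ℚ ℂ} [hKn : Normal ℚ K] {x : L} (hx : j x ∈ K) (σ : L ≃ₐ[ℚ] L) :
    j (σ x) ∈ K := by
  have h1 := hKn.splits ⟨j x, hx⟩
  have hint : IsIntegral ℚ (⟨j x, hx⟩ : K) := hKn.isIntegral _
  have h0 : aeval (j x) (minpoly ℚ (⟨j x, hx⟩ : K)) = 0 := by
    have h2 := aeval_algebraMap_apply ℂ (⟨j x, hx⟩ : K) (minpoly ℚ (⟨j x, hx⟩ : K))
    rw [minpoly.aeval, map_zero] at h2
    exact h2
  have hjq : ∀ (f : ℚ[X]) (x : L), j (aeval x f) = aeval (j x) f := by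
    intro f x
    have h2 := Polynomial.hom_eval₂ f (algebraMap ℚ L) j x
    rw [RingHom.ext_rat (j.comp (algebraMap ℚ L)) (algebraMap ℚ ℂ)] at h2
    exact h2
  have h2 : aeval x (minpoly ℚ (⟨j x, hx⟩ : K)) = 0 := by
    apply j.injective
    rw [hjq, h0, map_zero]
  have h3 : aeval (σ x) (minpoly ℚ (⟨j x, hx⟩ : K)) = 0 := by
    have h4 := Polynomial.aeval_algHom_apply (σ : L →ₐ[ℚ] L) x (minpoly ℚ (⟨j x, hx⟩ : K))
    rw [h2, map_zero] at h4
    exact h4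
  have h4 : (((minpoly ℚ (⟨j x, hx⟩ : K)).map (algebraMap ℚ K)).map (algebraMap K ℂ)).IsRoot
      (j (σ x)) := by
    rw [Polynomial.map_map, IsRoot.def, eval_map]
    have h5 := hjq (minpoly ℚ (⟨j x, hx⟩ : K)) (σ x)
    rw [h3, map_zero] at h5
    exact h5.symm
  obtain ⟨w, hw⟩ := h1.mem_range_of_isRoot ((minpoly.monic hint).map _).ne_zero h4
  rw [← hw]
  exact w.2

theorem no_small_rank_normal {I : Type} {q : ℕ} {h : I → ℤ[X]} (hq : q ≠ 0)
    (hm : ∀ i, (h i).Monic) {L : Type} [Field L] [NumberField L] [IsGalois ℚ L] (j : L →+* ℂ)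
    (hL : ∀ i, ∀ z : ℂ, aeval z (weil q (h i)) = 0 → ∃ x : L, j x = z)
    {K : IntermediateField ℚ ℂ}
    (hK1 : ∀ x : L, j x ∈ K → ∀ σ : L ≃ₐ[ℚ] L, j (σ x) ∈ K)
    (hK2 : ∀ i, ∀ α : L, aeval α (weil q (h i)) = 0 → j α ∉ K)
    (i₀ : I) (hirr : Irreducible ((h i₀).map (Int.castRingHom ℚ)))
    (hfl : ∀ α : L, aeval α (weil q (h i₀)) = 0 → Flippable q h α)
    (hss : ¬ (q : ℤ) ∣ (h i₀).nextCoeff ^ 2) (r : ℕ) (hr : r < (h i₀).natDegree)
    (u : Fin r → ℂ) (hu0 : ∀ j, u j ≠ 0)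
    (hU : ∀ y : L, aeval y (weil q (h i₀)) = 0 → ∃ (M : ℕ) (e : ℂ) (m : Fin r → ℤ), 0 < M ∧
      e ∈ K ∧ e ≠ 0 ∧ (j y ^ 2) ^ M = e * ∏ t, u t ^ m t) : False := by
  classical
  have hqL : (q : L) ≠ 0 := by exact_mod_cast hq
  have hqC : (q : ℂ) ≠ 0 := by exact_mod_cast hq
  -- the real roots
  have hsplit := splits_h hq hm L j hL i₀
  have hsep : ((h i₀).map (algebraMap ℤ L)).Separable := by
    have h1 := hirr.separable
    have h2 := h1.map (f := algebraMap ℚ L)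
    rwa [Polynomial.map_map, RingHom.ext_int ((algebraMap ℚ L).comp (Int.castRingHom ℚ))
      (algebraMap ℤ L)] at h2
  set Θ : Finset L := ((h i₀).map (algebraMap ℤ L)).roots.toFinset with hΘ
  have hΘcard : Θ.card = (h i₀).natDegree := by
    rw [hΘ, Multiset.toFinset_card_of_nodup (nodup_roots hsep), ← hsplit.natDegree_eq_card_roots,
      (hm i₀).natDegree_map]
  have hΘroot : ∀ θ ∈ Θ, aeval θ (h i₀) = 0 := by
    intro θ hθ
    have h1 := (mem_roots'.1 (Multiset.mem_toFinset.1 hθ)).2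
    rw [IsRoot.def, eval_map] at h1
    exact h1
  have hex : ∀ θ : Θ, ∃ α : L, α ^ 2 + q = θ * α :=
    fun θ => quad_L hq hm L j hL i₀ θ (hΘroot θ θ.2)
  choose α hα using hex
  have hroot : ∀ θ : Θ, aeval (α θ) (weil q (h i₀)) = 0 := by
    intro θ
    rw [aeval_weil q (h i₀) (α θ) θ (hα θ), hΘroot θ θ.2, mul_zero]
  have hα0 : ∀ θ : Θ, α θ ≠ 0 := fun θ => root_ne_zero hq (hm i₀) (hroot θ)
  have hαθ : ∀ θ : Θ, α θ + q / α θ = θ := by
    intro θ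
    have := hα0 θ
    have h2 := hα θ
    field_simp
    linear_combination h2
  choose M e m hM heK he0 hMe using fun θ : Θ => hU (α θ) (hroot θ)
  obtain ⟨b, hb0, hb⟩ := exists_int_relation r (by
    rw [Fintype.card_coe, hΘcard]
    exact hr) m
  obtain ⟨θ₀, hθ₀⟩ : ∃ θ, b θ ≠ 0 := by
    by_contra hall0
    push Not at hall0
    exact hb0 (funext hall0)
  -- the relation between the roots of one polynomial
  set x : L := ∏ θ, ((α θ ^ 2) ^ M θ) ^ b θ with hx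
  have hC : j x = ∏ θ, e θ ^ b θ := by
    have h0 : j x = ∏ θ, ((j (α θ) ^ 2) ^ M θ) ^ b θ := by
      rw [hx, map_prod]
      refine Finset.prod_congr rfl fun θ _ => ?_
      rw [map_zpow₀, map_pow, map_pow]
    have h1 : ∀ θ, ((j (α θ) ^ 2) ^ M θ) ^ b θ = e θ ^ b θ *
        ∏ t, u t ^ (b θ * m θ t) := by
      intro θ
      rw [hMe θ, mul_zpow, ← Finset.prod_zpow]
      congr 1
      refine Finset.prod_congr rfl fun t _ => ?_
      rw [← zpow_mul, mul_comm (m θ t)]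
    rw [h0, Finset.prod_congr rfl fun θ _ => h1 θ, Finset.prod_mul_distrib, Finset.prod_comm]
    have h2 : ∏ t, ∏ θ, u t ^ (b θ * m θ t) = 1 := by
      refine Finset.prod_eq_one fun t _ => ?_
      have h3 : ∏ θ, u t ^ (b θ * m θ t) = u t ^ (∑ θ, b θ * m θ t) := by
        have h4 : ∀ S : Finset Θ, ∏ θ ∈ S, u t ^ (b θ * m θ t) = u t ^ (∑ θ ∈ S, b θ * m θ t) := by
          intro S
          induction S using Finset.induction_on with
          | empty => simp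
          | insert θ S hθ ih => rw [Finset.prod_insert hθ, Finset.sum_insert hθ, ih,
              zpow_add₀ (hu0 t)]
        exact h4 _
      rw [h3, hb t, zpow_zero]
    rw [h2, mul_one]
  have hxK : j x ∈ K := by
    rw [hC]
    exact prod_mem fun θ _ => zpow_mem (heK θ) (b θ)
  have hx0 : x ≠ 0 :=
    Finset.prod_ne_zero_iff.2 fun θ _ => zpow_ne_zero _ (pow_ne_zero _ (pow_ne_zero _ (hα0 θ)))
  obtain ⟨σ, h1, -, h3⟩ := hfl (α θ₀) (hroot θ₀)
  have h4 : ∀ θ, θ ≠ θ₀ → σ (α θ) = α θ := by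
    intro θ hθ
    refine h3 i₀ (α θ) (hroot θ) ?_ ?_
    · intro h5
      apply hθ
      apply Subtype.ext
      rw [← hαθ, ← hαθ, h5]
    · intro h5
      apply hθ
      apply Subtype.ext
      rw [← hαθ, ← hαθ θ₀, h5, div_div_cancel₀ hqL, add_comm]
  -- the quotient of the relation by the flipped relation
  set w : L := ((α θ₀ ^ 2 / q) ^ (2 * M θ₀)) ^ b θ₀ with hw
  have hxw : x = w * σ x := by
    have h5 : σ x = ((((q : L) / α θ₀) ^ 2) ^ M θ₀) ^ b θ₀ *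
        ∏ θ ∈ Finset.univ.erase θ₀, ((α θ ^ 2) ^ M θ) ^ b θ := by
      rw [hx, map_prod, ← Finset.mul_prod_erase _ _ (Finset.mem_univ θ₀), map_zpow₀, map_pow,
        map_pow, h1]
      congr 1
      refine Finset.prod_congr rfl fun θ hθ => ?_
      rw [map_zpow₀, map_pow, map_pow, h4 θ (Finset.ne_of_mem_erase hθ)]
    rw [h5, hx, ← Finset.mul_prod_erase _ _ (Finset.mem_univ θ₀), ← mul_assoc]
    congr 1
    rw [hw, ← mul_zpow]
    congr 1
    have := hα0 θ₀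
    rw [pow_mul, ← mul_pow]
    congr 1
    field_simp
  have hσx0 : σ x ≠ 0 := by rwa [Ne, map_eq_zero]
  have hwx : w = x / σ x := by rw [eq_div_iff hσx0]; exact hxw.symm
  have hwK : j w ∈ K := by
    rw [hwx, map_div₀]
    exact div_mem hxK (hK1 x hxK σ)
  -- `w` is not its own inverse
  have hww : w * w ≠ 1 := by
    intro hww
    have h10 : ∃ t : ℕ, 0 < t ∧ (α θ₀ ^ 2) ^ t = (q : L) ^ t := by
      refine ⟨2 * M θ₀ * (b θ₀).natAbs * 2, by
        have := hM θ₀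
        have := Int.natAbs_pos.2 hθ₀
        positivity, ?_⟩
      have h11 : (α θ₀ ^ 2 / q) ^ (2 * M θ₀ * (b θ₀).natAbs * 2) = 1 := by
        rw [pow_mul, pow_mul, sq]
        rcases Int.natAbs_eq (b θ₀) with h12 | h12
        · rw [hw, h12, zpow_natCast] at hww
          exact hww
        · rw [hw, h12, zpow_neg, zpow_natCast, ← mul_inv, inv_eq_one] at hww
          exact hww
      rwa [div_pow, div_eq_one_iff_eq (pow_ne_zero _ hqL)] at h11
    obtain ⟨t, ht, hαt⟩ := h10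
    exact hss (dvd_of_root_of_unity hq hm L j hL i₀ hirr (α θ₀) (hroot θ₀) t ht hαt)
  -- the flip inverts `w`
  have hσw : w * σ w = 1 := by
    rw [hw, map_zpow₀, map_pow, map_div₀, map_pow, map_natCast, h1, ← mul_zpow, ← mul_pow]
    have h6 : α θ₀ ^ 2 / q * (((q : L) / α θ₀) ^ 2 / q) = 1 := by
      have := hα0 θ₀
      field_simp
    rw [h6, one_pow, one_zpow]
  -- every automorphism which fixes `w` fixes the root
  have hfix : ∀ τ : L ≃ₐ[ℚ] L, τ w = w → τ (α θ₀) = α θ₀ := by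
    intro τ hτw
    have h5 : w = ((τ (α θ₀) ^ 2 / q) ^ (2 * M θ₀)) ^ b θ₀ := by
      conv_lhs => rw [← hτw, hw]
      rw [map_zpow₀, map_pow, map_div₀, map_pow, map_natCast]
    by_contra hne
    by_cases hne2 : τ (α θ₀) = q / α θ₀
    · apply hww
      nth_rewrite 1 [h5]
      rw [hne2, hw, ← mul_zpow, ← mul_pow]
      have h6 : ((q : L) / α θ₀) ^ 2 / q * (α θ₀ ^ 2 / q) = 1 := by
        have := hα0 θ₀
        field_simp
      rw [h6, one_pow, one_zpow]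
    · have hτroot : aeval (τ (α θ₀)) (weil q (h i₀)) = 0 := aeval_alg L _ _ _ (hroot θ₀)
      have hστ : σ (τ (α θ₀)) = τ (α θ₀) := h3 i₀ _ hτroot hne hne2
      have hσw1 : σ w = w := by
        conv_lhs => rw [h5]
        rw [map_zpow₀, map_pow, map_div₀, map_pow, map_natCast, hστ, ← h5]
      rw [hσw1] at hσw
      exact hww hσw
  -- so the root lies in `K`
  have hmem : α θ₀ ∈ ℚ⟮w⟯ := by
    rw [← IsGalois.fixedField_fixingSubgroup ℚ⟮w⟯, IntermediateField.mem_fixedField_iff]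
    intro τ hτ
    exact hfix τ ((IntermediateField.mem_fixingSubgroup_iff _ _).1 hτ w
      (IntermediateField.mem_adjoin_simple_self ℚ w))
  have hle : ℚ⟮w⟯ ≤ K.comap j.toRatAlgHom := by
    rw [IntermediateField.adjoin_simple_le_iff]
    exact hwK
  exact hK2 i₀ (α θ₀) (hroot θ₀) (hle hmem)

/-- **No relations with numbers of small rank over `K`.** -/
theorem no_relation_rank_normal {I : Type} [Finite I] {q : ℕ} {h : I → ℤ[X]} (hq : q ≠ 0)
    (hm : ∀ i, (h i).Monic) (hirr : ∀ i, Irreducible ((h i).map (Int.castRingHom ℚ)))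
    (K : IntermediateField ℚ ℂ) [hKn : Normal ℚ K]
    (hroots : ∀ i, ∀ z : ℂ, aeval z (weil q (h i)) = 0 → z ∉ K)
    (hpat : ∀ i, ∃ l : ℕ, l.Prime ∧ l ≠ 2 ∧ ¬ l ∣ q ∧ FlipPattern q h i l)
    (hss : ∀ i, ¬ (q : ℤ) ∣ (h i).nextCoeff ^ 2) (r : ℕ) (hr : ∀ i, r < (h i).natDegree)
    (χ : ℚ[X]) (hχ : χ ≠ 0) (u : Fin r → ℂ) (hu0 : ∀ t, u t ≠ 0)
    (hrank : ∀ ρ : ℂ, aeval ρ χ = 0 → ∃ (N : ℕ) (e : ℂ) (m : Fin r → ℤ), 0 < N ∧ e ∈ K ∧ e ≠ 0 ∧
      ρ ^ N = e * ∏ t, u t ^ m t)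
    (ρ : ℂ) (hρ : aeval ρ χ = 0) (hρ0 : ρ ≠ 0) (s : ℕ) (hs : 0 < s) {n : ℕ} (hn : 0 < n) (c : ℤ)
    (N : ℕ) (hN : 0 < N) (z : Fin n → ℂ) (hz : ∀ k, ∃ i, aeval (z k) (weil q (h i)) = 0)
    (hrel : ((∏ k, z k) ^ s * ρ) ^ N = (((q : ℂ) ^ s) ^ c) ^ N)
    (hno : ∀ k l, k ≠ l → z k * z l ≠ q) : False := by
  classical
  cases nonempty_fintype I
  -- the field
  let T : Finset ℂ := (Finset.univ.biUnion fun i =>
    ((weil q (h i)).map (algebraMap ℤ ℂ)).roots.toFinset) ∪ {ρ}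
  have hTint : ∀ y : T, IsIntegral ℚ (y : ℂ) := by
    rintro ⟨y, hy⟩
    rcases Finset.mem_union.1 hy with h1 | h1
    · obtain ⟨i, -, h2⟩ := Finset.mem_biUnion.1 h1
      have h3 := (mem_roots'.1 (Multiset.mem_toFinset.1 h2)).2
      rw [IsRoot.def, eval_map] at h3
      have h4 : IsIntegral ℤ y := ⟨weil q (h i), weil_monic q (hm i), h3⟩
      exact h4.tower_top
    · rw [Finset.mem_singleton] at h1
      subst h1
      exact (isAlgebraic_iff_isIntegral).1 ⟨χ, hχ, hρ⟩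
  obtain ⟨L, hL1, hL2, j, hj⟩ := exists_galois_of_rat (fun y : T => (y : ℂ)) hTint
  have hL : ∀ i, ∀ z : ℂ, aeval z (weil q (h i)) = 0 → ∃ x : L, j x = z := by
    intro i z hz
    refine hj ⟨z, Finset.mem_union.2 (Or.inl (Finset.mem_biUnion.2 ⟨i, Finset.mem_univ _, ?_⟩))⟩
    rw [Multiset.mem_toFinset, mem_roots ((weil_monic q (hm i)).map _).ne_zero, IsRoot.def, eval_map]
    exact hz
  have hK1 : ∀ x : L, j x ∈ K → ∀ σ : L ≃ₐ[ℚ] L, j (σ x) ∈ K := fun x hx σ =>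
    normal_stable j hx σ
  have hK2 : ∀ i, ∀ α : L, aeval α (weil q (h i)) = 0 → j α ∉ K := by
    intro i α hα
    refine hroots i _ ?_
    have h2 := Polynomial.hom_eval₂ (weil q (h i)) (algebraMap ℤ L) j α
    have h3 : eval₂ (algebraMap ℤ L) α (weil q (h i)) = 0 := hα
    rw [h3, map_zero, RingHom.ext_int (j.comp (algebraMap ℤ L)) (algebraMap ℤ ℂ)] at h2
    exact h2.symm
  obtain ⟨r0, hr0⟩ : ∃ y : L, j y = ρ := hj ⟨ρ, Finset.mem_union.2 (Or.inr (by simp))⟩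
  have hfl : ∀ i, ∀ α : L, aeval α (weil q (h i)) = 0 → Flippable q h α := by
    intro i α hα
    obtain ⟨l, hl, hl2, hlq, hp⟩ := hpat i
    exact all_flippable hq hm L j hL i (hirr i) hl hl2 hlq hp α hα
  have hdown : ∀ (f : ℤ[X]) (x : L), aeval (j x) f = 0 → aeval x f = 0 := by
    intro f x hx
    apply j.injective
    have h2 := Polynomial.hom_eval₂ f (algebraMap ℤ L) j x
    rw [RingHom.ext_int (j.comp (algebraMap ℤ L)) (algebraMap ℤ ℂ)] at h2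
    rw [map_zero]
    exact h2.trans hx
  have hjq : ∀ (f : ℚ[X]) (x : L), j (aeval x f) = aeval (j x) f := by
    intro f x
    have h2 := Polynomial.hom_eval₂ f (algebraMap ℚ L) j x
    rw [RingHom.ext_rat (j.comp (algebraMap ℚ L)) (algebraMap ℚ ℂ)] at h2
    exact h2
  choose i hi using hz
  choose x hx using fun k => hL (i k) (z k) (hi k)
  have hxr : ∀ k, aeval (x k) (weil q (h (i k))) = 0 := fun k => hdown _ _ (by rw [hx]; exact hi k)
  have hx0 : ∀ k, x k ≠ 0 := fun k => root_ne_zero hq (hm (i k)) (hxr k)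
  have hqL : (q : L) ≠ 0 := by exact_mod_cast hq
  have hqC : (q : ℂ) ≠ 0 := by exact_mod_cast hq
  have hnoL : ∀ k l, x l ≠ q / x k := by
    intro k l hkl
    by_cases hk : k = l
    · subst hk
      obtain ⟨-, -, h2, -⟩ := hfl (i k) (x k) (hxr k)
      exact h2 hkl
    · apply hno k l hk
      have h3 := congrArg j hkl
      rw [map_div₀, map_natCast, hx, hx] at h3
      have hz0 : z k ≠ 0 := by
        rw [← hx k, Ne, map_eq_zero]
        exact hx0 k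
      rw [h3]
      field_simp
  have hr00 : r0 ≠ 0 := by
    rintro rfl
    rw [map_zero] at hr0
    exact hρ0 hr0.symm
  have hχL : aeval r0 χ = 0 := by
    apply j.injective
    rw [hjq, hr0, hρ, map_zero]
  have hχσ : ∀ σ : L ≃ₐ[ℚ] L, aeval (σ r0) χ = 0 := by
    intro σ
    have h1 := Polynomial.aeval_algHom_apply (σ : L →ₐ[ℚ] L) r0 χ
    rw [hχL, map_zero] at h1
    exact h1
  -- the relation
  have hrelL : ((∏ k, x k) ^ s * r0) ^ N = (((q : L) ^ s) ^ c) ^ N := by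
    apply j.injective
    rw [map_pow, map_mul, map_pow, map_prod, hr0, map_pow, map_zpow₀, map_pow, map_natCast,
      Finset.prod_congr rfl fun k _ => hx k]
    exact hrel
  -- the flip
  let k₀ : Fin n := ⟨0, hn⟩
  obtain ⟨σ₀, hσ1, -, hσ3⟩ := hfl (i k₀) (x k₀) (hxr k₀)
  obtain ⟨a, ha, hprod⟩ : ∃ a : ℕ, 0 < a ∧ σ₀ (∏ k, x k) = (q / x k₀ ^ 2) ^ a * ∏ k, x k := by
    refine ⟨(Finset.univ.filter (fun k => x k = x k₀)).card, Finset.card_pos.2 ⟨k₀, by simp⟩, ?_⟩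
    refine prod_flip x (x k₀) _ (σ₀ : L ≃+* L) ?_ ?_
    · change σ₀ (x k₀) = _
      rw [hσ1]
      have := hx0 k₀
      field_simp
    · intro k hk
      exact hσ3 (i k) (x k) (hxr k) hk (hnoL k₀ k)
  have hPx : (∏ k, x k) ≠ 0 := Finset.prod_ne_zero_iff.2 fun k _ => hx0 k
  obtain ⟨M, hM, hstep⟩ : ∃ M : ℕ, 0 < M ∧
      r0 ^ N * (x k₀ ^ 2) ^ M = (σ₀ r0) ^ N * (q : L) ^ M := by
    refine ⟨a * s * N, by positivity, ?_⟩
    have h1 := congrArg σ₀ hrelL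
    rw [map_pow, map_mul, map_pow, hprod, map_pow, map_zpow₀, map_pow, map_natCast, ← hrelL] at h1
    have h2 : ((q : L) / x k₀ ^ 2) ^ (a * s * N) * (x k₀ ^ 2) ^ (a * s * N) = (q : L) ^ (a * s * N) := by
      rw [← mul_pow, div_mul_cancel₀ _ (pow_ne_zero _ (hx0 k₀))]
    have h3 : (((q : L) / x k₀ ^ 2) ^ a * ∏ k, x k) ^ s * σ₀ r0 =
        ((q : L) / x k₀ ^ 2) ^ (a * s) * ((∏ k, x k) ^ s * σ₀ r0) := by
      rw [mul_pow, ← pow_mul, mul_assoc]
    rw [h3, mul_pow, ← pow_mul, mul_pow ((∏ k, x k) ^ s), mul_pow ((∏ k, x k) ^ s)] at h1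
    have h4 : ((∏ k, x k) ^ s) ^ N ≠ 0 := pow_ne_zero _ (pow_ne_zero _ hPx)
    apply mul_left_cancel₀ h4
    rw [← h2, ← mul_assoc, ← h1]
    ring
  -- all roots
  have hall : ∀ y : L, aeval y (weil q (h (i k₀))) = 0 → ∃ ρ₁ ρ₂ : L, ρ₁ ≠ 0 ∧ ρ₂ ≠ 0 ∧
      aeval ρ₁ χ = 0 ∧ aeval ρ₂ χ = 0 ∧ ρ₁ ^ N * (y ^ 2) ^ M = ρ₂ ^ N * (q : L) ^ M := by
    intro y hy
    have hy0 : y ≠ 0 := root_ne_zero hq (hm _) hy
    obtain ⟨τ, hτ⟩ := exists_tau hq hm L j hL (i k₀) (hirr _) (x k₀) y (hxr k₀) hy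
    have h1 := congrArg τ hstep
    rw [map_mul, map_mul, map_pow, map_pow, map_pow, map_pow, map_pow, map_natCast] at h1
    have hn1 : τ r0 ≠ 0 := by rw [Ne, map_eq_zero]; exact hr00
    have hn2 : τ (σ₀ r0) ≠ 0 := by rw [Ne, map_eq_zero, map_eq_zero]; exact hr00
    rcases hτ with h2 | h2
    · rw [h2] at h1
      exact ⟨τ r0, τ (σ₀ r0), hn1, hn2, hχσ τ, hχσ (σ₀.trans τ), h1⟩
    · rw [h2] at h1
      refine ⟨τ (σ₀ r0), τ r0, hn2, hn1, hχσ (σ₀.trans τ), hχσ τ, ?_⟩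
      have h3 : (((q : L) / y) ^ 2) ^ M * (y ^ 2) ^ M = (q : L) ^ M * (q : L) ^ M := by
        rw [← mul_pow, ← mul_pow, ← mul_pow]
        congr 1
        field_simp
      apply mul_right_cancel₀ (pow_ne_zero M hqL)
      calc τ (σ₀ r0) ^ N * (y ^ 2) ^ M * (q : L) ^ M = (τ (σ₀ r0) ^ N * (q : L) ^ M) * (y ^ 2) ^ M := by
            ring
        _ = τ r0 ^ N * (((q : L) / y) ^ 2) ^ M * (y ^ 2) ^ M := by rw [← h1]
        _ = τ r0 ^ N * ((((q : L) / y) ^ 2) ^ M * (y ^ 2) ^ M) := by ring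
        _ = _ := by rw [h3]; ring
  have hU : ∀ y : L, aeval y (weil q (h (i k₀))) = 0 → ∃ (M : ℕ) (e : ℂ) (m : Fin r → ℤ), 0 < M ∧
      e ∈ K ∧ e ≠ 0 ∧ (j y ^ 2) ^ M = e * ∏ t, u t ^ m t := by
    intro y hy
    obtain ⟨ρ₁, ρ₂, h1, h2, h3, h4, h5⟩ := hall y hy
    obtain ⟨N₁, e₁, m₁, hN₁, heK₁, he₁, h6⟩ := hrank (j ρ₁) (by rw [← hjq, h3, map_zero])
    obtain ⟨N₂, e₂, m₂, hN₂, heK₂, he₂, h7⟩ := hrank (j ρ₂) (by rw [← hjq, h4, map_zero])
    have hqK : (q : ℂ) ∈ K := _root_.natCast_mem K q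
    refine ⟨M * N₁ * N₂, e₂ ^ (N * N₁) * (q : ℂ) ^ (M * N₁ * N₂) / e₁ ^ (N * N₂),
      fun t => m₂ t * (N * N₁) - m₁ t * (N * N₂), by positivity,
      div_mem (mul_mem (pow_mem heK₂ _) (pow_mem hqK _)) (pow_mem heK₁ _),
        div_ne_zero (mul_ne_zero (pow_ne_zero _ he₂) (pow_ne_zero _ hqC))
          (pow_ne_zero _ he₁), ?_⟩
    have h8 := congrArg j h5
    rw [map_mul, map_mul, map_pow, map_pow, map_pow, map_pow, map_pow, map_natCast] at h8
    have hP : ∀ m : Fin r → ℤ, (∏ t, u t ^ m t) ≠ 0 := fun m =>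
      Finset.prod_ne_zero_iff.2 fun t _ => zpow_ne_zero _ (hu0 t)
    have h9 : (j ρ₁ ^ N₁) ^ (N * N₂) * (j y ^ 2) ^ (M * N₁ * N₂) =
        (j ρ₂ ^ N₂) ^ (N * N₁) * (q : ℂ) ^ (M * N₁ * N₂) := by
      have := congrArg (fun w => w ^ (N₁ * N₂)) h8
      beta_reduce at this
      calc _ = (j ρ₁ ^ N * (j y ^ 2) ^ M) ^ (N₁ * N₂) := by ring
        _ = _ := by rw [this]; ring
    rw [h6, h7] at h9
    have h10 : (e₁ * ∏ t, u t ^ m₁ t) ^ (N * N₂) ≠ 0 :=
      pow_ne_zero _ (mul_ne_zero he₁ (hP _))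
    apply mul_left_cancel₀ h10
    rw [h9]
    have h11 : ∀ (w : ℂ) (m : Fin r → ℤ) (k : ℕ), (w * ∏ t, u t ^ m t) ^ k =
        w ^ k * ∏ t, u t ^ (m t * k) := by
      intro w m k
      rw [mul_pow, ← Finset.prod_pow]
      congr 1
      refine Finset.prod_congr rfl fun t _ => ?_
      rw [← zpow_natCast, ← zpow_mul]
    rw [h11, h11]
    have h12 : ∏ t, u t ^ (m₂ t * ((N * N₁ : ℕ) : ℤ)) =
        (∏ t, u t ^ (m₁ t * ((N * N₂ : ℕ) : ℤ))) *
          ∏ t, u t ^ (m₂ t * (N * N₁) - m₁ t * (N * N₂)) := by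
      rw [← Finset.prod_mul_distrib]
      refine Finset.prod_congr rfl fun t _ => ?_
      rw [← zpow_add₀ (hu0 t)]
      congr 1
      push_cast
      ring
    rw [h12]
    field_simp
  exact no_small_rank_normal hq hm j hL hK1 hK2 (i k₀) (hirr _) (hfl _) (hss _) r (hr _) u hu0 hU

end Pool.Agent.N205.SD
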