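import Mathlib
import Pool.Agent.N205.SD.Pat
import Pool.Agent.N205.SD.Rel
import Pool.Agent.W521.Density

/-!
# The Galois group is large; the resulting property of `lowField`
-/

set_option autoImplicit false

namespace Pool.Agent.N205.SD

open Polynomial NumberField Pool.Agent.W484.TB Pool.Agent.W484.AA Pool.Agent.W521.Frob
  Pool.Agent.W521.Criterion

theorem cyc_of_pat {h : ℤ[X]} (hm : h.Monic) (hirr : Irreducible (h.map (Int.castRingHom ℚ)))
    (E : IntermediateField ℚ ℂ) [FiniteDimensional ℚ E] {l n : ℕ} (hl : l.Prime)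
    (hlE : l ∈ splitPrimes E) (hpat : CycPat h l n) : Cyc ((Gam E).map (permRt h)) n := by
  classical
  obtain ⟨θ, hθ⟩ := Field.exists_primitive_element ℚ (gal E)
  let e₀ : gal E →+* ℂ := algebraMap (gal E) ℂ
  let T : Finset ℂ := (h.map (algebraMap ℤ ℂ)).roots.toFinset ∪ {e₀ θ}
  have hTint : ∀ y : T, IsIntegral ℚ (y : ℂ) := by
    rintro ⟨y, hy⟩
    rcases Finset.mem_union.1 hy with h1 | h1
    · have h3 := (mem_roots'.1 (Multiset.mem_toFinset.1 h1)).2
      rw [IsRoot.def, eval_map] at h3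
      have h4 : IsIntegral ℤ y := ⟨h, hm, h3⟩
      exact h4.tower_top
    · rw [Finset.mem_singleton] at h1
      subst h1
      have h2 : IsIntegral ℚ θ := Algebra.IsIntegral.isIntegral θ
      exact h2.algebraMap
  obtain ⟨L, hL1, hL2, j, hj⟩ := exists_galois_of_rat (fun y : T => (y : ℂ)) hTint
  obtain ⟨ι, hι⟩ := exists_factor e₀ j θ hθ (hj ⟨e₀ θ, Finset.mem_union.2 (Or.inr (by simp))⟩)
  let _ : Algebra (gal E) L := ι.toAlgebra
  obtain ⟨jA, hjA⟩ := exists_jA j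
  refine exists_cyc hm hirr E jA (fun y => ?_) (fun y hy => ?_) hl hlE hpat
  · rw [hjA]
    exact hι y
  · have h1 : aeval ((y : AA) : ℂ) h = 0 := by
      have h2 := aeval_algebraMap_apply ℂ y h
      rw [hy, map_zero] at h2
      exact h2
    obtain ⟨x, hx⟩ := hj ⟨(y : ℂ), Finset.mem_union.2 (Or.inl (by
      rw [Multiset.mem_toFinset, mem_roots ((hm.map _).ne_zero), IsRoot.def, eval_map]
      exact h1))⟩
    exact ⟨x, Subtype.ext ((hjA x).trans hx)⟩

/-- The patterns which imply that the Galois group of `h` is the full symmetric group. -/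
def FullPat (U : Set ℕ) (h : ℤ[X]) : Prop :=
  (∃ l : ℕ, l.Prime ∧ l ∈ U ∧ CycPat h l 0) ∧ (∃ l : ℕ, l.Prime ∧ l ∈ U ∧ CycPat h l 1) ∧
    ∃ l : ℕ, l.Prime ∧ l ∈ U ∧ CycPat h l (h.natDegree - 2)

theorem noRoot_of_pats {h : ℤ[X]} {q : ℕ} (hm : h.Monic) (hq : q ≠ 0)
    (hirr : Irreducible (h.map (Int.castRingHom ℚ)))
    (E : IntermediateField ℚ ℂ) [FiniteDimensional ℚ E] (d : ℕ)
    (hd : d ≤ h.natDegree) (h3 : 3 ≤ h.natDegree) (h5 : 4 ≤ d → 5 ≤ h.natDegree)
    (hpat : FullPat (splitPrimes E) h) (z : ℂ) (hz : aeval z (weil q h) = 0) :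
    z ∉ lowField (gal E) d := by
  classical
  have hfin : Fintype (Rt h) := @Fintype.ofFinite _ (finite_rt hm)
  have hcard : Fintype.card (Rt h) = h.natDegree := card_rt hm hirr
  obtain ⟨⟨l0, hl0, hU0, hp0⟩, ⟨l1, hl1, hU1, hp1⟩, ⟨l2, hl2, hU2, hp2⟩⟩ := hpat
  have htop : (Gam E).map (permRt h) = ⊤ :=
    top_of_cyc _ (by rw [hcard]; exact h3) (cyc_of_pat hm hirr E hl0 hU0 hp0)
      (cyc_of_pat hm hirr E hl1 hU1 hp1)
      (by
        rw [hcard]
        exact cyc_of_pat hm hirr E hl2 hU2 hp2)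
  intro hmem
  exact noRoot_of_alt hm hq E d (by rw [htop]; exact le_top) (by rw [hcard]; exact hd)
    (by rw [hcard]; exact h3) (fun h4 => by rw [hcard]; exact h5 h4) z hz
    (lowField_le_fix E d hmem)

/-- The flips which fix `E` show that `E` contains no root. -/
theorem noRoot_gal {I : Type} [Finite I] {q : ℕ} {h : I → ℤ[X]} (hq : q ≠ 0)
    (hm : ∀ i, (h i).Monic) (E : IntermediateField ℚ ℂ) [FiniteDimensional ℚ E] (i : I)
    (hirr : Irreducible ((h i).map (Int.castRingHom ℚ)))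
    (hpat : ∃ l : ℕ, l.Prime ∧ l ≠ 2 ∧ ¬ l ∣ q ∧ l ∈ splitPrimes E ∧ FlipPattern q h i l)
    (z : ℂ) (hz : aeval z (weil q (h i)) = 0) : z ∉ gal E := by
  classical
  cases nonempty_fintype I
  intro hzE
  obtain ⟨θ, hθ⟩ := Field.exists_primitive_element ℚ (gal E)
  let e₀ : gal E →+* ℂ := algebraMap (gal E) ℂ
  let T : Finset ℂ := (Finset.univ.biUnion fun i =>
    ((weil q (h i)).map (algebraMap ℤ ℂ)).roots.toFinset) ∪ {e₀ θ}
  have hTint : ∀ y : T, IsIntegral ℚ (y : ℂ) := by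
    rintro ⟨y, hy⟩
    rcases Finset.mem_union.1 hy with h1 | h1
    · obtain ⟨i, -, h2⟩ := Finset.mem_biUnion.1 h1
      have h3 := (mem_roots'.1 (Multiset.mem_toFinset.1 h2)).2
      rw [IsRoot.def, eval_map] at h3
      have h4 : IsIntegral ℤ y := ⟨weil q (h i), weil_monic q (hm i), h3⟩
      exact h4.tower_top
    · rw [Finset.mem_singleton] at h1
      subst h1
      have h2 : IsIntegral ℚ θ := Algebra.IsIntegral.isIntegral θ
      exact h2.algebraMap
  obtain ⟨L, hL1, hL2, j, hj⟩ := exists_galois_of_rat (fun y : T => (y : ℂ)) hTint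
  obtain ⟨ι, hι⟩ := exists_factor e₀ j θ hθ (hj ⟨e₀ θ, Finset.mem_union.2 (Or.inr (by simp))⟩)
  let _ : Algebra (gal E) L := ι.toAlgebra
  have hL : ∀ i, ∀ z : ℂ, aeval z (weil q (h i)) = 0 → ∃ x : L, j x = z := by
    intro i z hz
    refine hj ⟨z, Finset.mem_union.2 (Or.inl (Finset.mem_biUnion.2 ⟨i, Finset.mem_univ _, ?_⟩))⟩
    rw [Multiset.mem_toFinset, mem_roots ((weil_monic q (hm i)).map _).ne_zero, IsRoot.def, eval_map]
    exact hz
  obtain ⟨α, hα⟩ := hL i z hz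
  have hαr : aeval α (weil q (h i)) = 0 := by
    apply j.injective
    have h2 := Polynomial.hom_eval₂ (weil q (h i)) (algebraMap ℤ L) j α
    rw [RingHom.ext_int (j.comp (algebraMap ℤ L)) (algebraMap ℤ ℂ), hα] at h2
    rw [map_zero]
    exact h2.trans hz
  obtain ⟨l, hl, hl2, hlq, hlE, hp⟩ := hpat
  obtain ⟨σ, hσE, hσ1, hσ2, -⟩ := all_flippable_over hq hm L j hL (gal E) i hirr hl hl2 hlq hlE hp
    α hαr
  have h1 : α = algebraMap (gal E) L ⟨z, hzE⟩ := by
    apply j.injective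
    rw [hα]
    exact (hι ⟨z, hzE⟩).symm
  apply hσ2
  rw [← hσ1]
  conv_rhs => rw [h1, hσE, ← h1]

end Pool.Agent.N205.SD
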