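import Mathlib
import Pool.Agent.N205.SD.Gal
import Pool.Agent.N205.NS.Tate

/-!
# Products of eigenvalues of Frobenius and numbers of small rank over `lowField E d`
-/

set_option autoImplicit false

namespace Pool.Agent.N205.SD

open Polynomial Module Pool.Agent.W484.AA Pool.Agent.W484.BB Pool.Agent.W521.Frob
  Pool.Agent.W521.Count Pool.Agent.W521.Bad Pool.Agent.W521.Descent Pool.Agent.W521.Density
  Pool.Agent.W521.Criterion Pool.Agent.W484.HS Pool.Agent.W484.TB

/-- The property of the point `x` from which everything else follows. -/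
def PairProp {I : Type} (E : IntermediateField ℚ ℂ) (g : I → ℕ) (q r : ℕ)
    (x : (Σ i, Fin (g i)) → ℤ) : Prop :=
  ∀ (s : ℕ), 0 < s → ∀ χ : ℚ[X], χ ≠ 0 → RankLEOver E r {ρ : ℂ | aeval ρ χ = 0} →
    ∀ ρ : ℂ, aeval ρ χ = 0 →
    ExactPair (fun z : {z : ℂ // ∃ i, aeval z (weil q (polys g x i)) = 0} => (z : ℂ) ^ s)
      ((q : ℂ) ^ s) ρ

/-- **The relations.** -/
theorem pairProp_normal {I : Type} [Finite I] (g : I → ℕ) (K : IntermediateField ℚ ℂ)
    [Normal ℚ K] {q : ℕ} (hq : q ≠ 0) (r : ℕ) (hr : ∀ i, r < g i)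
    (x : (Σ i, Fin (g i)) → ℤ) (hx : Good g q x)
    (hroots : ∀ i, ∀ z : ℂ, aeval z (weil q (polys g x i)) = 0 → z ∉ K) :
    PairProp K g q r x := by
  intro s hs χ hχ hrank ρ hρ
  obtain ⟨hpat, hirr, hss⟩ := hx
  have hm : ∀ i, (polys g x i).Monic := fun i => mkPoly_monic (g i) _
  have hρ0 : ρ ≠ 0 := by
    rintro rfl
    exact zero_not_rank_over hrank hρ
  obtain ⟨u, hu0, hu⟩ := hrank
  intro n c N hN hn ys hlen hrel hpw
  let X := {z : ℂ // ∃ i, aeval z (weil q (polys g x i)) = 0}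
  refine no_relation_rank_normal hq hm hirr K hroots hpat hss r (fun i => by
      rw [show (polys g x i).natDegree = g i from mkPoly_natDegree (g i) _]
      exact hr i) χ hχ u hu0 (fun ρ hρ => ?_) ρ hρ hρ0 s hs hn c N hN
    (fun l => ((ys.get (Fin.cast hlen.symm l) : X) : ℂ))
    (fun l => (ys.get (Fin.cast hlen.symm l)).2) ?_ ?_
  · obtain ⟨N, y, m, hN, hyE, hy0, h2⟩ := hu ρ hρ
    exact ⟨N, y, m, hN, hyE, hy0, h2⟩
  · rw [← hrel]
    congr 2
    have h6 : ∏ l : Fin n, ((ys.get (Fin.cast hlen.symm l) : X) : ℂ) =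
        (ys.map (fun y : X => (y : ℂ))).prod := by
      have h61 : ∏ l : Fin n, ((ys.get (Fin.cast hlen.symm l) : X) : ℂ) =
          ∏ l : Fin ys.length, ((ys.get l : X) : ℂ) :=
        Fintype.prod_equiv (finCongr hlen.symm) _ _ fun l => rfl
      rw [h61, ← List.prod_ofFn]
      congr 1
      apply List.ext_getElem
      · simp
      · intro i h1 h2
        simp
    rw [h6]
    have h7 : ∀ ys : List X, (ys.map (fun y : X => (y : ℂ))).prod ^ s =
        (ys.map (fun y : X => (y : ℂ) ^ s)).prod := by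
      intro ys
      induction ys with
      | nil => simp
      | cons y ys ih =>
        rw [List.map_cons, List.prod_cons, mul_pow, ih, List.map_cons, List.prod_cons]
    exact h7 ys
  · have hbad : ∀ k' l' : Fin ys.length, k' < l' →
        ((ys.get k' : X) : ℂ) * ((ys.get l' : X) : ℂ) ≠ q := by
      intro k' l' hkl h8
      refine (List.pairwise_iff_get.1 hpw) k' l' hkl ?_
      change ((ys.get k' : X) : ℂ) ^ s * ((ys.get l' : X) : ℂ) ^ s = _
      rw [← mul_pow, h8]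
    intro k' l' hkl
    rcases lt_or_gt_of_ne hkl with h | h
    · exact hbad _ _ h
    · intro h8
      rw [mul_comm] at h8
      exact hbad _ _ h h8

/-- The relations for a field of characteristic zero. -/
theorem PairProp.field {I : Type} {g : I → ℕ} {E : IntermediateField ℚ ℂ}
    {q r : ℕ} {x : (Σ i, Fin (g i)) → ℤ} (hx : PairProp E g q r x)
    (s : ℕ) (hs : 0 < s) (χ : ℚ[X]) (hχ : χ ≠ 0)
    (hrank : RankLEOver E r {ρ : ℂ | aeval ρ χ = 0})
    {K : Type*} [Field K] [CharZero K] (ρ : K) (hρ : aeval ρ χ = 0) :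
    ExactPairK (fun z : {z : K // ∃ i, aeval z (weil q (polys g x i)) = 0} => (z : K) ^ s)
      ((q : K) ^ s) ρ := by
  classical
  have hmem : ∀ z : K, (∃ p : ℚ[X], p ≠ 0 ∧ aeval z p = 0) → z ∈ algebraicClosure ℚ K := by
    rintro z ⟨p, hp, hz⟩
    rw [mem_algebraicClosure_iff]
    exact ⟨p, hp, hz⟩
  have halg : Algebra.IsAlgebraic ℚ (algebraicClosure ℚ K) := algebraicClosure.isAlgebraic ℚ K
  let j : algebraicClosure ℚ K →ₐ[ℚ] ℂ := IsAlgClosed.lift
  have hρm := hmem ρ ⟨χ, hχ, hρ⟩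
  have hρj : aeval (j ⟨ρ, hρm⟩) χ = 0 := by
    rw [Polynomial.aeval_algHom_apply]
    have h1 : aeval (⟨ρ, hρm⟩ : algebraicClosure ℚ K) χ = 0 := by
      apply (algebraMap (algebraicClosure ℚ K) K).injective
      rw [← Polynomial.aeval_algebraMap_apply, map_zero]
      exact hρ
    rw [h1, map_zero]
  have h0 := hx s hs χ hχ hrank _ hρj
  have hzm : ∀ z : {z : K // ∃ i, aeval z (weil q (polys g x i)) = 0},
      (z : K) ∈ algebraicClosure ℚ K := by
    rintro ⟨z, i, hi⟩
    refine hmem z ⟨(weil q (polys g x i)).map (algebraMap ℤ ℚ), ?_, ?_⟩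
    · exact ((weil_monic q (mkPoly_monic (g i) (fun k => x ⟨i, k⟩))).map _).ne_zero
    · rw [aeval_map_algebraMap]
      exact hi
  have hz : ∀ z : {z : K // ∃ i, aeval z (weil q (polys g x i)) = 0},
      ∃ i, aeval (j ⟨z, hzm z⟩) (weil q (polys g x i)) = 0 := by
    rintro ⟨z, i, hi⟩
    refine ⟨i, ?_⟩
    have h2 := Polynomial.hom_eval₂ (weil q (polys g x i)) (algebraMap ℤ _)
      (j : algebraicClosure ℚ K →+* ℂ) ⟨z, hzm ⟨z, i, hi⟩⟩
    rw [RingHom.ext_int ((j : algebraicClosure ℚ K →+* ℂ).comp (algebraMap ℤ _))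
      (algebraMap ℤ ℂ)] at h2
    have h3 : eval₂ (algebraMap ℤ (algebraicClosure ℚ K)) (⟨z, hzm ⟨z, i, hi⟩⟩ :
        algebraicClosure ℚ K) (weil q (polys g x i)) = 0 := by
      apply (algebraMap (algebraicClosure ℚ K) K).injective
      rw [map_zero, Polynomial.hom_eval₂, RingHom.ext_int ((algebraMap (algebraicClosure ℚ K)
        K).comp (algebraMap ℤ _)) (algebraMap ℤ K)]
      exact hi
    rw [h3, map_zero] at h2
    exact h2.symm
  intro n c N hN hn ys hlen hrel hpw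
  let φ : {z : K // ∃ i, aeval z (weil q (polys g x i)) = 0} →
      {z : ℂ // ∃ i, aeval z (weil q (polys g x i)) = 0} := fun z => ⟨j ⟨z, hzm z⟩, hz z⟩
  have hrel0 : ((ys.map (fun z : {z : K // ∃ i, aeval z (weil q (polys g x i)) = 0} =>
      (⟨z, hzm z⟩ : algebraicClosure ℚ K) ^ s)).prod * ⟨ρ, hρm⟩) ^ N = (((q : algebraicClosure ℚ K) ^ s) ^ c) ^ N := by
    apply (algebraMap (algebraicClosure ℚ K) K).injective
    rw [map_pow, map_mul, _root_.map_list_prod, List.map_map, map_pow, map_zpow₀, map_pow,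
      map_natCast]
    exact hrel
  refine h0 n c N hN hn (ys.map φ) (by rw [List.length_map, hlen]) ?_ ?_
  · have h4 := congrArg j hrel0
    rw [map_pow, map_mul, _root_.map_list_prod j, List.map_map, map_pow, map_zpow₀, map_pow,
      map_natCast] at h4
    rw [List.map_map, ← h4]
    congr 4
    funext z
    change (j ⟨z, hzm z⟩) ^ s = j (⟨z, hzm z⟩ ^ s)
    rw [map_pow]
  · rw [List.pairwise_map]
    refine hpw.imp ?_
    intro a b hab h5
    apply hab
    change (j ⟨a, hzm a⟩) ^ s * (j ⟨b, hzm b⟩) ^ s = (q : ℂ) ^ s at h5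
    have h6 : (⟨a, hzm a⟩ : algebraicClosure ℚ K) ^ s * ⟨b, hzm b⟩ ^ s =
        (q : algebraicClosure ℚ K) ^ s := by
      apply (j : algebraicClosure ℚ K →+* ℂ).injective
      rw [map_mul, map_pow, map_pow, map_pow, map_natCast]
      exact h5
    have h7 := congrArg (algebraMap (algebraicClosure ℚ K) K) h6
    rw [map_mul, map_pow, map_pow, map_pow, map_natCast] at h7
    exact h7



theorem rank_mono {K K' : IntermediateField ℚ ℂ} (h : K ≤ K') {r : ℕ} {S : Set ℂ}
    (hS : RankLEOver K r S) : RankLEOver K' r S := by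
  obtain ⟨u, hu, h1⟩ := hS
  refine ⟨u, hu, fun ρ hρ => ?_⟩
  obtain ⟨N, y, m, hN, hy, hy0, h2⟩ := h1 ρ hρ
  exact ⟨N, y, m, hN, h hy, hy0, h2⟩

/-- The good points. -/
def GoodS (U : Set ℕ) {I : Type} (g : I → ℕ) (d q : ℕ) (x : (Σ i, Fin (g i)) → ℤ) : Prop :=
  GoodU U g q x ∧ (3 ≤ d → ∀ i, FullPat U (polys g x i))

theorem noRoot_of_good {I : Type} [Finite I] (g : I → ℕ) (E : IntermediateField ℚ ℂ)
    [FiniteDimensional ℚ E] {q : ℕ} (hq : q ≠ 0) (d : ℕ) (hd : Dims g d)
    (x : (Σ i, Fin (g i)) → ℤ) (hx : GoodS (splitPrimes E) g d q x) (i : I) (z : ℂ)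
    (hz : aeval z (weil q (polys g x i)) = 0) : z ∉ lowField (gal E) d := by
  rcases Nat.lt_or_ge d 3 with h | h
  · rw [lowField_eq (gal E) (by omega : d ≤ 2)]
    have hm : ∀ i, (polys g x i).Monic := fun i => mkPoly_monic (g i) _
    exact noRoot_gal (h := polys g x) hq hm E i (hx.1.2.1 i) (hx.1.1 i) z hz
  · have hdeg : (polys g x i).natDegree = g i := mkPoly_natDegree (g i) _
    have hm : (polys g x i).Monic := mkPoly_monic (g i) _
    obtain ⟨h1, h2⟩ := hd h i
    have e1 : d ≤ (polys g x i).natDegree := by rw [hdeg]; exact h1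
    have e2 : 3 ≤ (polys g x i).natDegree := h.trans e1
    have e3 : 4 ≤ d → 5 ≤ (polys g x i).natDegree := fun h4 => by rw [hdeg]; exact h2 h4
    exact noRoot_of_pats hm hq (hx.1.2.1 i) E d e1 e2 e3 (hx.2 h i) z hz

end Pool.Agent.N205.SD
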