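import Mathlib
import Pool.Agent.N205.SD.Gal
import Pool.Agent.N205.NS.Bad

/-!
# The number of polynomials with the patterns
-/

set_option autoImplicit false

namespace Pool.Agent.N205.SD

open Polynomial Pool.Agent.W521.Frob Pool.Agent.W521.Descent Pool.Agent.W521.Density
  Pool.Agent.W521.Count Pool.Agent.W521.Turan Pool.Agent.W521.Total Pool.Agent.W521.Sieve Pool.Agent.W521.Bad
  Pool.Agent.W484.TB Pool.Agent.N205.NS

section one

variable (l : ℕ) [hl : Fact l.Prime]

/-- The coefficient vector of a product of an irreducible polynomial of degree `g - n` and `n`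
different linear polynomials. -/
noncomputable def cvec (g n : ℕ) (y : (Fin (g - n) → ZMod l) × Finset (ZMod l)) : Fin g → ZMod l :=
  fun k => (mkPoly (g - n) y.1 * ∏ t ∈ y.2, (X - C t) : (ZMod l)[X]).coeff k

/-- The vectors of this form. -/
noncomputable def cycSet (g n : ℕ) : Finset (Fin g → ZMod l) := by
  classical
  exact (irrSet l (g - n) ×ˢ (Finset.univ.powersetCard n)).image (cvec l g n)

theorem mkPoly_cvec {g n : ℕ} (hn : n ≤ g) (y : (Fin (g - n) → ZMod l) × Finset (ZMod l))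
    (hy : y.2.card = n) :
    mkPoly g (cvec l g n y) = mkPoly (g - n) y.1 * ∏ t ∈ y.2, (X - C t) := by
  have hmon : (∏ t ∈ y.2, (X - C t) : (ZMod l)[X]).Monic := monic_prod_X_sub_C _ _
  apply eq_mkPoly ((mkPoly_monic (g - n) y.1).mul hmon)
  rw [(mkPoly_monic (g - n) y.1).natDegree_mul hmon, mkPoly_natDegree,
    natDegree_prod_of_monic _ _ fun t _ => monic_X_sub_C t]
  simp only [natDegree_X_sub_C, Finset.sum_const, smul_eq_mul, mul_one, hy]
  omega

theorem roots_irr {u : (ZMod l)[X]} (hu : Irreducible u) (hdeg : 2 ≤ u.natDegree) :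
    u.roots = 0 := by
  rw [Multiset.eq_zero_iff_forall_notMem]
  intro t ht
  have h1 := degree_eq_one_of_irreducible_of_root hu (mem_roots'.1 ht).2
  have h2 : u.natDegree = 1 := natDegree_eq_of_degree_eq_some h1
  omega

theorem card_cycSet {g n : ℕ} (hn : n + 2 ≤ g) :
    (cycSet l g n).card = (irrSet l (g - n)).card * l.choose n := by
  classical
  unfold cycSet
  rw [Finset.card_image_of_injOn, Finset.card_product, Finset.card_powersetCard,
    Finset.card_univ, ZMod.card]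
  rintro ⟨a, T⟩ hy ⟨a', T'⟩ hy' heq
  rw [Finset.mem_coe, Finset.mem_product, Finset.mem_powersetCard] at hy hy'
  obtain ⟨ha, -, hT⟩ := hy
  obtain ⟨ha', -, hT'⟩ := hy'
  unfold irrSet at ha ha'
  have hirr := (Finset.mem_filter.1 ha).2
  have hirr' := (Finset.mem_filter.1 ha').2
  have h1 := mkPoly_cvec l (by omega : n ≤ g) (a, T) hT
  rw [heq, mkPoly_cvec l (by omega : n ≤ g) (a', T') hT'] at h1
  simp only at h1 hirr hirr'
  have hroots : ∀ (b : Fin (g - n) → ZMod l) (S : Finset (ZMod l)), Irreducible (mkPoly (g - n) b) →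
      (mkPoly (g - n) b * ∏ t ∈ S, (X - C t)).roots = S.val := by
    intro b S hb
    rw [roots_mul (mul_ne_zero (mkPoly_monic _ _).ne_zero
      (monic_prod_X_sub_C _ _).ne_zero), roots_irr l hb (by rw [mkPoly_natDegree]; omega), zero_add]
    exact roots_prod_X_sub_C S
  have h2 := congrArg roots h1
  rw [hroots _ _ hirr, hroots _ _ hirr'] at h2
  have h3 : T' = T := Finset.val_inj.1 h2
  subst h3
  have h4 : mkPoly (g - n) a' = mkPoly (g - n) a :=
    mul_right_cancel₀ (monic_prod_X_sub_C (fun t : ZMod l => t) T').ne_zero h1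
  rw [mkPoly_injective _ h4]

omit hl in
theorem choose_ge (n : ℕ) (h : 2 * n ≤ l) : l ^ n ≤ 2 ^ n * n.factorial * l.choose n := by
  have h1 : (l + 1 - n) ^ n ≤ n.factorial * l.choose n := by
    rw [← Nat.descFactorial_eq_factorial_mul_choose]
    exact Nat.pow_sub_le_descFactorial l n
  calc l ^ n ≤ (2 * (l + 1 - n)) ^ n := Nat.pow_le_pow_left (by omega) n
    _ = 2 ^ n * (l + 1 - n) ^ n := by rw [mul_pow]
    _ ≤ 2 ^ n * (n.factorial * l.choose n) := Nat.mul_le_mul_left _ h1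
    _ = _ := by ring

theorem cycSet_lower {g n : ℕ} (hn : n + 2 ≤ g) (hl : 4 * g + 12 ≤ l) :
    l ^ g ≤ (2 * g * (2 ^ g * g.factorial)) * (cycSet l g n).card := by
  rw [card_cycSet l hn]
  have h1 := card_irrSet l (g - n) (by omega) (by omega)
  have h2 := choose_ge l n (by omega)
  have h3 : 2 ^ n * n.factorial ≤ 2 ^ g * g.factorial :=
    Nat.mul_le_mul (Nat.pow_le_pow_right two_pos (by omega)) (Nat.factorial_le (by omega))
  calc l ^ g = l ^ (g - n) * l ^ n := by rw [← pow_add]; congr 1; omega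
    _ ≤ (2 * (g - n) * (irrSet l (g - n)).card) * (2 ^ n * n.factorial * l.choose n) :=
        Nat.mul_le_mul h1 h2
    _ ≤ (2 * g * (irrSet l (g - n)).card) * (2 ^ g * g.factorial * l.choose n) := by
        refine Nat.mul_le_mul (Nat.mul_le_mul_right _ (by omega)) (Nat.mul_le_mul_right _ h3)
    _ = _ := by ring

end one

section event

variable {I : Type} [Fintype I] [DecidableEq I] (g : I → ℕ)

/-- The event that the block `i₀` has the pattern. -/
noncomputable def cycEvent (i₀ : I) (n l : ℕ) [Fact l.Prime] : Finset ((Σ i, Fin (g i)) → ZMod l) :=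
  blocks g (fun i => if i = i₀ then cycSet l (g i) n else Finset.univ)

theorem cycEvent_lower (hg : ∀ i, 0 < g i) (i₀ : I) (n : ℕ) (hn : n + 2 ≤ g i₀) (l : ℕ)
    [Fact l.Prime] (hl : ∀ i, 4 * g i + 12 ≤ l) :
    l ^ (∑ i, g i) ≤ (∏ i, (2 * g i * (2 ^ g i * (g i).factorial))) * (cycEvent g i₀ n l).card := by
  unfold cycEvent
  rw [card_blocks, ← Finset.prod_mul_distrib, ← Finset.prod_pow_eq_pow_sum]
  refine Finset.prod_le_prod' fun i _ => ?_
  split_ifs with h
  · subst h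
    exact cycSet_lower l hn (hl i)
  · rw [Finset.card_univ, Fintype.card_fun, ZMod.card, Fintype.card_fin]
    exact Nat.le_mul_of_pos_left _ (by have := hg i; positivity)

theorem pat_of_mem (i₀ : I) (n : ℕ) (hn : n + 2 ≤ g i₀) (l : ℕ) [Fact l.Prime]
    (x : (Σ i, Fin (g i)) → ℤ) (hx : red l x ∈ cycEvent g i₀ n l) : CycPat (polys g x i₀) l n := by
  classical
  unfold cycEvent at hx
  rw [mem_blocks] at hx
  have h0 := hx i₀
  rw [if_pos rfl] at h0
  unfold cycSet at h0
  obtain ⟨⟨a, T⟩, haT, hv⟩ := Finset.mem_image.1 h0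
  rw [Finset.mem_product, Finset.mem_powersetCard] at haT
  obtain ⟨ha, -, hT⟩ := haT
  unfold irrSet at ha
  have hirr := (Finset.mem_filter.1 ha).2
  refine ⟨mkPoly (g i₀ - n) a, T, hirr, by rw [mkPoly_natDegree]; omega, hT, ?_⟩
  have h1 : (polys g x i₀).map (Int.castRingHom (ZMod l)) =
      mkPoly (g i₀) (fun k => ((x ⟨i₀, k⟩ : ℤ) : ZMod l)) := by
    unfold polys
    rw [map_mkPoly]
    rfl
  rw [h1]
  have h2 := mkPoly_cvec l (by omega : n ≤ g i₀) (a, T) hT
  rw [hv] at h2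
  exact h2

open Classical in
/-- **The exceptional points for one pattern.** -/
theorem cyc_count (U : Set ℕ) (hU : Pool.Agent.W484.TB.Dense U) (hg : ∀ i, 0 < g i) (i₀ : I)
    (n : ℕ) (hn : n + 2 ≤ g i₀) :
    ∃ C : ℝ, 0 < C ∧ ∀ (p a t : ℕ) (m : I → ℕ → ℕ), p.Prime → 0 < t → Room g m a t →
    (((box (nlo g m p a) (nlen g m p a)).filter
      (fun y => ¬ ∃ l : ℕ, l.Prime ∧ l ∈ U ∧ CycPat (polys g (xx g m p y) i₀) l n)).card : ℝ) ≤
      C * rate (p ^ t) * ∏ s, (nlen g m p a s : ℝ) := by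
  obtain ⟨c₀, hc₀, hU⟩ := hU
  have hcardι : Fintype.card (Σ i, Fin (g i)) = ∑ i, g i := by
    rw [Fintype.card_sigma]
    simp
  have hpos : 0 < (∏ i, (2 * g i * (2 ^ g i * (g i).factorial)) : ℕ) :=
    Finset.prod_pos fun i _ => by have := hg i; positivity
  set cF : ℝ := 1 / (∏ i, (2 * g i * (2 ^ g i * (g i).factorial)) : ℕ) with hcF
  have hcFpos : 0 < cF := by positivity
  set l₀ : ℕ := ∑ i, (4 * g i + 12) + 3 with hl₀
  have hl₀' : ∀ i l, l₀ ≤ l → 4 * g i + 12 ≤ l := by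
    intro i l hl
    have := Finset.single_le_sum (f := fun i => 4 * g i + 12) (fun j _ => Nat.zero_le _)
      (Finset.mem_univ i)
    omega
  obtain ⟨CF, hCF, hF⟩ := sieve_bound_set U c₀ hc₀ hU (Fintype.card (Σ i, Fin (g i))) cF hcFpos l₀
  refine ⟨CF, hCF, ?_⟩
  intro p a t m hp ht hR
  have hpp : IsPrimePow (p ^ t) := hp.isPrimePow.pow ht.ne'
  have hlen : ∀ s, Real.sqrt ((p ^ t : ℕ) : ℝ) ≤ (nlen g m p a s : ℝ) := sqrt_le_nlen hp hR
  have hlp : ∀ l : ℕ, l.Prime → ¬ l ∣ p ^ t → ¬ l ∣ p := fun l hl h h' =>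
    h (h'.trans (dvd_pow_self p ht.ne'))
  let ev : ∀ l : ℕ, Finset ((Σ i, Fin (g i)) → ZMod l) := fun l =>
    if h : l.Prime then (haveI := Fact.mk h; cycEvent g i₀ n l) else ∅
  have h1 := hF (p ^ t) hpp rfl (fun l => pull p (ex g m) l (ev l)) (by
    intro l hl _ hl0 hlt
    have : Fact l.Prime := ⟨hl⟩
    rw [card_pull _ hl (hlp l hl hlt)]
    have h1 := cycEvent_lower g hg i₀ n hn l (fun j => hl₀' j l hl0)
    have h2 : ev l = cycEvent g i₀ n l := dif_pos hl
    rw [h2, hcF, hcardι, one_div, inv_mul_le_iff₀ (by exact_mod_cast hpos)]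
    exact_mod_cast h1) (nlo g m p a) (nlen g m p a) hlen
  refine le_trans ?_ h1
  have h2 : ((box (nlo g m p a) (nlen g m p a)).filter
      (fun y => ¬ ∃ l : ℕ, l.Prime ∧ l ∈ U ∧ CycPat (polys g (xx g m p y) i₀) l n)) ⊆
      (box (nlo g m p a) (nlen g m p a)).filter
        (fun x => ∀ l : ℕ, l.Prime → l ∈ U → l₀ ≤ l → ¬ l ∣ p ^ t →
          red l x ∉ pull p (ex g m) l (ev l)) := by
    intro y hy
    obtain ⟨hy1, hy2⟩ := Finset.mem_filter.1 hy
    refine Finset.mem_filter.2 ⟨hy1, ?_⟩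
    intro l hl hlU hl0 hlt hmem
    have : Fact l.Prime := ⟨hl⟩
    have h3 := mem_of_pull (ex g m) hl (hlp l hl hlt) _ y hmem
    have h4 : ev l = cycEvent g i₀ n l := dif_pos hl
    rw [h4] at h3
    exact hy2 ⟨l, hl, hlU, pat_of_mem g i₀ n hn l _ h3⟩
  exact_mod_cast Finset.card_le_card h2

end event

end Pool.Agent.N205.SD
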