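import Mathlib
import Pool.Agent.N205.SD.Low

/-!
# Facts on `lowField`: normality and Weil numbers
-/

set_option autoImplicit false

namespace Pool.Agent.N205.SD

open Polynomial

/-- `lowField E d` is a normal extension of `ℚ` if `E` is one; it contains `E` and all solutions of
equations of degree less than `d` with coefficients in it, and for `d ≥ 3` all complex numbers `z`
which are algebraic of degree less than `2 d` and whose absolute value has a rational square: for
instance the eigenvalues of Frobenius on `H ^ i` of a smooth projective variety with `i`-th Betti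
number less than `2 d`. -/
def LowFacts : Prop :=
  (∀ (E : IntermediateField ℚ ℂ) (d : ℕ), Normal ℚ E →
    Normal ℚ (lowField E d) ∧ E ≤ lowField E d ∧ ClosedUnder d (lowField E d)) ∧
  ∀ (E : IntermediateField ℚ ℂ) (d : ℕ), 3 ≤ d → ∀ (P : ℚ[X]) (Q : ℚ) (z : ℂ), P ≠ 0 →
    P.natDegree < 2 * d → aeval z P = 0 → z * (starRingEnd ℂ) z = Q → z ∈ lowField E d

theorem lowField_mono {E E' : IntermediateField ℚ ℂ} (h : E ≤ E') (d : ℕ) :
    lowField E d ≤ lowField E' d :=
  lowField_le (h.trans (le_lowField E' d)) (closed_lowField E' d)

theorem weil_mem {E : IntermediateField ℚ ℂ} {d : ℕ} (hd : 3 ≤ d) (P : ℚ[X]) (Q : ℚ) (z : ℂ)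
    (hP : P ≠ 0) (hPd : P.natDegree < 2 * d) (hz : aeval z P = 0)
    (hQ : z * (starRingEnd ℂ) z = Q) : z ∈ lowField E d := by
  have hint : IsIntegral ℚ z := (isAlgebraic_iff_isIntegral).1 ⟨P, hP, hz⟩
  by_cases hreal : (starRingEnd ℂ) z = z
  · rw [hreal] at hQ
    refine mem_lowField_of_quad E hd (b := 0) (c := Q) (zero_mem _) ?_ ?_
    · exact (lowField E d).algebraMap_mem Q
    · rw [zero_mul, zero_add, sq, hQ]
  · have hz0 : z ≠ 0 := by
      rintro rfl
      exact hreal (map_zero _)
    -- the trace
    set β : ℂ := z + (starRingEnd ℂ) z with hβ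
    have hconj : (starRingEnd ℂ) z = Q / z := by
      field_simp
      rw [← hQ, mul_comm]
    have hβz : z ^ 2 = β * z + (-(Q : ℂ)) := by
      rw [hβ, ← hQ]
      ring
    have hβmem : β ∈ IntermediateField.adjoin ℚ {z} := by
      rw [hβ, hconj]
      have h1 := IntermediateField.mem_adjoin_simple_self ℚ z
      exact add_mem h1 (div_mem ((IntermediateField.adjoin ℚ {z}).algebraMap_mem Q) h1)
    have hle : IntermediateField.adjoin ℚ {β} ≤ IntermediateField.adjoin ℚ {z} := by
      rw [IntermediateField.adjoin_simple_le_iff]
      exact hβmem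
    have hβint : IsIntegral ℚ β := by
      have h1 := hint.map (Complex.conjAe.toAlgHom.restrictScalars ℚ)
      exact hint.add h1
    have hfdz : FiniteDimensional ℚ (IntermediateField.adjoin ℚ {z}) :=
      IntermediateField.adjoin.finiteDimensional hint
    -- `z` does not lie in `ℚ(β)`
    have hreal2 : ∀ y ∈ IntermediateField.adjoin ℚ {β}, (starRingEnd ℂ) y = y := by
      intro y hy
      let R : IntermediateField ℚ ℂ :=
        { carrier := {y | (starRingEnd ℂ) y = y}
          mul_mem' := fun {a b} ha hb => by
            rw [Set.mem_ofPred_eq] at ha hb ⊢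
            rw [map_mul, ha, hb]
          add_mem' := fun {a b} ha hb => by
            rw [Set.mem_ofPred_eq] at ha hb ⊢
            rw [map_add, ha, hb]
          algebraMap_mem' := fun r => by
            rw [Set.mem_ofPred_eq, eq_ratCast, map_ratCast]
          inv_mem' := fun a ha => by
            rw [Set.mem_ofPred_eq] at ha ⊢
            rw [map_inv₀, ha] }
      have h1 : IntermediateField.adjoin ℚ {β} ≤ R := by
        rw [IntermediateField.adjoin_simple_le_iff]
        change (starRingEnd ℂ) β = β
        rw [hβ, map_add, Complex.conj_conj, add_comm]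
      exact h1 hy
    have hlt : IntermediateField.adjoin ℚ {β} ≠ IntermediateField.adjoin ℚ {z} := by
      intro h1
      apply hreal
      apply hreal2
      rw [h1]
      exact IntermediateField.mem_adjoin_simple_self ℚ z
    -- degrees
    have hdz : (minpoly ℚ z).natDegree < 2 * d :=
      (natDegree_le_of_dvd (minpoly.dvd ℚ z hz) hP).trans_lt hPd
    have hdvd := IntermediateField.finrank_dvd_of_le_right hle
    rw [IntermediateField.adjoin.finrank hint, IntermediateField.adjoin.finrank hβint] at hdvd
    have hne : (minpoly ℚ β).natDegree ≠ (minpoly ℚ z).natDegree := by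
      intro h1
      apply hlt
      apply IntermediateField.eq_of_le_of_finrank_eq hle
      rw [IntermediateField.adjoin.finrank hint, IntermediateField.adjoin.finrank hβint, h1]
    have hpos : 0 < (minpoly ℚ z).natDegree := minpoly.natDegree_pos hint
    have hβd : (minpoly ℚ β).natDegree < d := by
      obtain ⟨c, hc⟩ := hdvd
      have hc1 : c ≠ 0 := by
        rintro rfl
        omega
      have hc2 : c ≠ 1 := by
        rintro rfl
        apply hne
        omega
      have hc3 : 2 ≤ c := by omega
      have h4 : (minpoly ℚ β).natDegree * 2 ≤ (minpoly ℚ z).natDegree := by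
        rw [hc]
        exact Nat.mul_le_mul_left _ hc3
      omega
    have hβlow : β ∈ lowField E d :=
      mem_lowField_of_root E (minpoly ℚ β) (minpoly.ne_zero hβint) hβd (minpoly.aeval ℚ β)
    exact mem_lowField_of_quad E hd hβlow
      (neg_mem ((lowField E d).algebraMap_mem Q)) hβz

end Pool.Agent.N205.SD
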