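import Mathlib
import Pool.Agent.N205.SD.Facts

/-!
# The facts on the fields of the theorem
-/

set_option autoImplicit false

namespace Pool.Agent.N205.SD

open Polynomial

/-- The condition on the degrees: `d ≤ 2`, or `d ≤ g i` and `g i` is three or at least five, for
all `i`. -/
def DimsU {I : Type} (g : I → ℕ) (d : ℕ) : Prop :=
  3 ≤ d → ∀ i, d ≤ g i ∧ (g i = 3 ∨ 5 ≤ g i)

/-- The roots of a polynomial of degree `B` with rational coefficients lie in a normal extension
of `ℚ` of degree at most `B!`. -/
def SplitFact : Prop :=
  ∀ P : ℚ[X], P ≠ 0 → ∃ E : IntermediateField ℚ ℂ, Normal ℚ E ∧ FiniteDimensional ℚ E ∧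
    Module.finrank ℚ E ≤ P.natDegree.factorial ∧ ∀ z : ℂ, aeval z P = 0 → z ∈ E

/-- **The facts on the fields.** For a normal extension `E` of `ℚ` the field `lowField E d` is
normal; it contains `E` and all solutions of equations of degree less than `d` with coefficients in
it, and for `d ≥ 3` all complex numbers `z` which are algebraic of degree less than `2 d` and whose
absolute value has a rational square: for instance the eigenvalues of Frobenius on `H ^ i` of a
smooth projective variety with `i`-th Betti number less than `2 d`. The roots of a polynomial of
degree `B` with rational coefficients, for instance the eigenvalues of Frobenius on the whole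
cohomology of a variety with total Betti number `B`, lie in a normal extension `E` of degree at most
`B!`. -/
def FieldFacts : Prop := LowFacts ∧ SplitFact

end Pool.Agent.N205.SD
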