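import Mathlib

/-!
# Normal subgroups of the symmetric groups
-/

set_option autoImplicit false

namespace Pool.Agent.N205.SD

open Equiv Equiv.Perm

/-- Nontrivial normal subgroups of the symmetric group on `n` letters contain the alternating
group if `n ≥ 5` or `n = 3`. -/
theorem alt_le_of_normal {α : Type*} [Fintype α] [DecidableEq α] (N : Subgroup (Perm α))
    (hN : N.Normal) (n : Perm α) (hn : n ∈ N) (hn1 : n ≠ 1)
    (h : 5 ≤ Fintype.card α ∨ Fintype.card α = 3) : alternatingGroup α ≤ N := by
  rcases h with h | h
  · refine alternatingGroup_le_of_normal (by rwa [Nat.card_eq_fintype_card]) ?_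
    rw [Subgroup.nontrivial_iff_ne_bot]
    rintro rfl
    exact hn1 (Subgroup.mem_bot.1 hn)
  · -- a commutator
    obtain ⟨a, ha⟩ : ∃ a, n a ≠ a := by
      by_contra hcon
      push Not at hcon
      exact hn1 (Equiv.ext hcon)
    obtain ⟨b, hb1, hb2⟩ : ∃ b, b ≠ a ∧ b ≠ n a := by
      by_contra hcon
      push Not at hcon
      have h1 : (Finset.univ : Finset α) ⊆ {a, n a} := by
        intro b _
        by_cases h2 : b = a
        · simp [h2]
        · simp [hcon b h2]
      have h2 := Finset.card_le_card h1
      rw [Finset.card_univ, h, Finset.card_pair ha.symm] at h2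
      omega
    set c : Perm α := swap (n a) b with hc
    have hne : n * (c * n⁻¹ * c⁻¹) ≠ 1 := by
      intro h1
      have h2 : n * c = c * n := by
        have h3 : n * (c * n⁻¹ * c⁻¹) * (c * n) = 1 * (c * n) := by rw [h1]
        rw [one_mul] at h3
        rw [← h3]
        group
      have h3 := congrArg (fun s : Perm α => s a) h2
      simp only [Perm.mul_apply, hc] at h3
      rw [swap_apply_of_ne_of_ne ha.symm hb1.symm, swap_apply_left] at h3
      exact hb2 h3.symm
    have hmem : n * (c * n⁻¹ * c⁻¹) ∈ N := mul_mem hn (hN.conj_mem _ (inv_mem hn) c)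
    have halt : n * (c * n⁻¹ * c⁻¹) ∈ alternatingGroup α := by
      rw [mem_alternatingGroup, map_mul, map_mul, map_mul, map_inv, map_inv]
      rw [mul_comm (sign c) _, mul_assoc, mul_inv_cancel, mul_one, mul_inv_cancel]
    have : Nontrivial α := Fintype.one_lt_card_iff_nontrivial.1 (by omega)
    have hcard : Nat.card (alternatingGroup α) = 3 := by
      have h1 := two_mul_nat_card_alternatingGroup (α := α)
      rw [Nat.card_perm, Nat.card_eq_fintype_card (α := α), h] at h1
      have h2 : (3 : ℕ).factorial = 6 := rfl
      omega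
    have hp : Fact (Nat.card (alternatingGroup α)).Prime := ⟨by rw [hcard]; norm_num⟩
    rcases (N.subgroupOf (alternatingGroup α)).eq_bot_or_eq_top_of_prime_card with h1 | h1
    · exfalso
      have h2 : (⟨_, halt⟩ : alternatingGroup α) ∈ N.subgroupOf (alternatingGroup α) := by
        rw [Subgroup.mem_subgroupOf]
        exact hmem
      rw [h1, Subgroup.mem_bot] at h2
      exact hne (congrArg Subtype.val h2)
    · intro x hx
      have h2 : (⟨x, hx⟩ : alternatingGroup α) ∈ N.subgroupOf (alternatingGroup α) := by
        rw [h1]
        exact Subgroup.mem_top _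
      exact h2

end Pool.Agent.N205.SD
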