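import Mathlib
import Pool.Agent.N205.SD.Facts
import Pool.Agent.N205.SD.Fix

/-!
# `lowField E d` is normal over `ℚ`
-/

set_option autoImplicit false

namespace Pool.Agent.N205.SD

open Polynomial

theorem closed_AA (d : ℕ) : ClosedUnder d AA := by
  intro P z hP _ hz
  have hcl : IsAlgClosed AA := (algebraicClosure.isAlgClosure ℚ ℂ).isAlgClosed
  have h1 : (P.map (algebraMap AA ℂ)).IsRoot z := by
    rw [IsRoot.def, eval_map]
    exact hz
  obtain ⟨w, hw⟩ := (IsAlgClosed.splits P).mem_range_of_isRoot hP h1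
  rw [← hw]
  exact w.2

section conj

variable (σ : AA ≃ₐ[ℚ] AA) (K : IntermediateField ℚ ℂ)

/-- the inverse image under an automorphism -/
def pre : IntermediateField ℚ ℂ where
  carrier := {z | ∃ hz : z ∈ AA, ((σ ⟨z, hz⟩ : AA) : ℂ) ∈ K}
  mul_mem' := by
    rintro x y ⟨hx, h1⟩ ⟨hy, h2⟩
    refine ⟨mul_mem hx hy, ?_⟩
    have h3 : (⟨x * y, mul_mem hx hy⟩ : AA) = ⟨x, hx⟩ * ⟨y, hy⟩ := rfl
    rw [h3, map_mul]
    exact mul_mem h1 h2
  add_mem' := by
    rintro x y ⟨hx, h1⟩ ⟨hy, h2⟩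
    refine ⟨add_mem hx hy, ?_⟩
    have h3 : (⟨x + y, add_mem hx hy⟩ : AA) = ⟨x, hx⟩ + ⟨y, hy⟩ := rfl
    rw [h3, map_add]
    exact add_mem h1 h2
  algebraMap_mem' := by
    intro r
    refine ⟨AA.algebraMap_mem r, ?_⟩
    have h3 : σ (⟨algebraMap ℚ ℂ r, AA.algebraMap_mem r⟩ : AA) = algebraMap ℚ AA r := σ.commutes r
    rw [h3]
    exact K.algebraMap_mem r
  inv_mem' := by
    rintro x ⟨hx, h1⟩
    refine ⟨inv_mem hx, ?_⟩
    have h3 : (⟨x⁻¹, inv_mem hx⟩ : AA) = (⟨x, hx⟩ : AA)⁻¹ := rfl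
    rw [h3, map_inv₀]
    exact inv_mem h1

theorem pre_le : pre σ K ≤ AA := fun _ hz => hz.1

/-- the map to `K` -/
noncomputable def preMap : pre σ K →+* K where
  toFun z := ⟨((σ ⟨(z : ℂ), z.2.1⟩ : AA) : ℂ), z.2.2⟩
  map_one' := by
    apply Subtype.ext
    exact congrArg (fun y : AA => (y : ℂ)) (map_one σ)
  map_zero' := by
    apply Subtype.ext
    exact congrArg (fun y : AA => (y : ℂ)) (map_zero σ)
  map_mul' x y := by
    apply Subtype.ext
    exact congrArg (fun y : AA => (y : ℂ)) (map_mul σ (⟨(x : ℂ), x.2.1⟩ : AA) ⟨(y : ℂ), y.2.1⟩)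
  map_add' x y := by
    apply Subtype.ext
    exact congrArg (fun y : AA => (y : ℂ)) (map_add σ (⟨(x : ℂ), x.2.1⟩ : AA) ⟨(y : ℂ), y.2.1⟩)

theorem closed_pre {d : ℕ} (hK : ClosedUnder d K) : ClosedUnder d (pre σ K) := by
  intro P z hP hPd hz
  have hle := pre_le σ K
  have hzA : z ∈ AA := by
    refine closed_AA (P.natDegree + 1) (P.map (IntermediateField.inclusion hle).toRingHom) z ?_ ?_ ?_
    · rwa [Ne, Polynomial.map_eq_zero]
    · rw [Polynomial.natDegree_map]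
      exact Nat.lt_succ_self _
    · rw [← hz, aeval_def, eval₂_map, aeval_def]
      rfl
  refine ⟨hzA, hK (P.map (preMap σ K)) _ ?_ ?_ ?_⟩
  · rwa [Ne, Polynomial.map_eq_zero]
  · rwa [Polynomial.natDegree_map]
  · have h1 : eval₂ (IntermediateField.inclusion hle).toRingHom (⟨z, hzA⟩ : AA) P = 0 := by
      apply (algebraMap AA ℂ).injective
      rw [Polynomial.hom_eval₂, map_zero]
      exact hz
    have h2 := congrArg (σ : AA →+* AA) h1
    rw [Polynomial.hom_eval₂, map_zero] at h2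
    have h3 := congrArg (algebraMap AA ℂ) h2
    rw [Polynomial.hom_eval₂, map_zero] at h3
    rw [aeval_def, eval₂_map]
    exact h3

end conj

theorem root_mem_normal {K : IntermediateField ℚ ℂ} [hK : Normal ℚ K] (x : K) (z : ℂ)
    (hz : aeval z (minpoly ℚ x) = 0) : z ∈ K := by
  have h1 := hK.splits x
  have hint : IsIntegral ℚ x := hK.isIntegral _
  have h4 : (((minpoly ℚ x).map (algebraMap ℚ K)).map (algebraMap K ℂ)).IsRoot z := by
    rw [Polynomial.map_map, IsRoot.def, eval_map]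
    exact hz
  obtain ⟨w, hw⟩ := h1.mem_range_of_isRoot ((minpoly.monic hint).map _).ne_zero h4
  rw [← hw]
  exact w.2

theorem aut_aeval (σ : AA ≃ₐ[ℚ] AA) (y : AA) (P : ℚ[X]) (h : aeval (y : ℂ) P = 0) :
    aeval ((σ y : AA) : ℂ) P = 0 := by
  have h1 : aeval y P = 0 := by
    apply (algebraMap AA ℂ).injective
    rw [← aeval_algebraMap_apply, map_zero]
    exact h
  have h2 := Polynomial.aeval_algHom_apply (σ : AA →ₐ[ℚ] AA) y P
  rw [h1, map_zero] at h2
  have h3 := aeval_algebraMap_apply ℂ (σ y) P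
  have h4 : aeval (σ y) P = 0 := h2
  rw [h4, map_zero] at h3
  exact h3

theorem normal_le_AA (K : IntermediateField ℚ ℂ) [hK : Normal ℚ K] : K ≤ AA := by
  intro y hy
  rw [mem_algebraicClosure_iff]
  have h1 : IsAlgebraic ℚ (⟨y, hy⟩ : K) := (hK.isIntegral _).isAlgebraic
  exact h1.algebraMap (A := ℂ)

theorem normal_lowField (E : IntermediateField ℚ ℂ) (d : ℕ) (hE : Normal ℚ E) :
    Normal ℚ (lowField E d) := by
  have hcl : IsAlgClosure ℚ AA := algebraicClosure.isAlgClosure ℚ ℂ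
  have hN : Normal ℚ AA := IsAlgClosure.normal ℚ AA
  have hEA : E ≤ AA := normal_le_AA E
  have hle : lowField E d ≤ AA := lowField_le hEA (closed_AA d)
  have hst : ∀ σ : AA ≃ₐ[ℚ] AA, lowField E d ≤ pre σ (lowField E d) := by
    intro σ
    refine lowField_le ?_ (closed_pre σ _ (closed_lowField E d))
    intro y hy
    refine ⟨hEA hy, le_lowField E d ?_⟩
    refine root_mem_normal (⟨y, hy⟩ : E) _ (aut_aeval σ ⟨y, hEA hy⟩ _ ?_)
    have h2 := aeval_algebraMap_apply ℂ (⟨y, hy⟩ : E) (minpoly ℚ (⟨y, hy⟩ : E))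
    rw [minpoly.aeval, map_zero] at h2
    exact h2
  have halg : Algebra.IsAlgebraic ℚ (lowField E d) := by
    refine ⟨fun x => ?_⟩
    have h1 : IsAlgebraic ℚ ((x : lowField E d) : ℂ) := by
      rw [← mem_algebraicClosure_iff]
      exact hle x.2
    exact (isAlgebraic_algebraMap_iff (A := ℂ) (algebraMap (lowField E d) ℂ).injective).1 h1
  refine ⟨fun x => ?_⟩
  refine Splits.of_splits_map (algebraMap (lowField E d) ℂ) (IsAlgClosed.splits _) ?_
  intro z hz
  have h1 := (mem_roots'.1 hz).2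
  rw [Polynomial.map_map, IsRoot.def, eval_map] at h1
  have hzx : aeval z (minpoly ℚ x) = 0 := h1
  have hxi : IsIntegral ℚ x := Algebra.IsIntegral.isIntegral x
  have hzA : z ∈ AA := by
    rw [mem_algebraicClosure_iff]
    exact ⟨minpoly ℚ x, minpoly.ne_zero hxi, hzx⟩
  have hminx : minpoly ℚ (⟨(x : ℂ), hle x.2⟩ : AA) = minpoly ℚ x := by
    have e1 := minpoly.algebraMap_eq (A := ℚ) (B := AA) (B' := ℂ) (algebraMap AA ℂ).injective
      (⟨(x : ℂ), hle x.2⟩ : AA)
    have e2 := minpoly.algebraMap_eq (A := ℚ) (B := lowField E d) (B' := ℂ)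
      (algebraMap (lowField E d) ℂ).injective x
    exact e1.symm.trans e2
  obtain ⟨σ, hσ⟩ := minpoly.exists_algEquiv_of_root' (K := ℚ) (L := AA) (x := (⟨z, hzA⟩ : AA))
    (y := (⟨(x : ℂ), hle x.2⟩ : AA)) (Algebra.IsAlgebraic.isAlgebraic _) (by
      rw [hminx]
      apply (algebraMap AA ℂ).injective
      rw [← aeval_algebraMap_apply, map_zero]
      exact hzx)
  obtain ⟨hx', h3⟩ := hst σ x.2
  rw [hσ] at h3
  exact ⟨⟨z, h3⟩, rfl⟩

theorem lowFacts : LowFacts :=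
  ⟨fun E d hE => ⟨normal_lowField E d hE, le_lowField E d, closed_lowField E d⟩,
    fun _ _ hd P Q z hP hPd hz hQ => weil_mem hd P Q z hP hPd hz hQ⟩

end Pool.Agent.N205.SD
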