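import Mathlib
import Pool.Agent.N205.NS.Final
import Pool.Agent.N205.SD.Cnt
import Pool.Agent.N205.SD.Pair
import Pool.Agent.N205.SD.Nrm

/-! The count of exceptional tuples in a product of Newton strata, for a general notion of good
points. -/

set_option autoImplicit false

namespace Pool.Agent.N205.SD

open Polynomial Pool.Agent.W521.Frob Pool.Agent.W521.Lower Pool.Agent.W521.Descent
  Pool.Agent.W521.Density Pool.Agent.W521.Count Pool.Agent.W521.Turan Pool.Agent.W521.Sieve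
  Pool.Agent.W521.Bad Pool.Agent.W521.Total Pool.Agent.W484.TB Pool.Agent.N205.NS

open Classical in
/-- the exceptional points are rare -/
def Rare {I : Type} [Fintype I] (g : I → ℕ) (G : ℕ → ((Σ i, Fin (g i)) → ℤ) → Prop) : Prop :=
  ∃ C : ℝ, 0 < C ∧ ∀ (p a t : ℕ) (m : I → ℕ → ℕ), p.Prime → 0 < t → Room g m a t →
    (((box (nlo g m p a) (nlen g m p a)).filter
      (fun y => ¬ G (p ^ a) (xx g m p y))).card : ℝ) ≤
      C * rate (p ^ t) * ∏ s, (nlen g m p a s : ℝ)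

section

variable {I : Type} [Fintype I] (g : I → ℕ) (G : ℕ → ((Σ i, Fin (g i)) → ℤ) → Prop)

theorem main_count_gen (hG : Rare g G) (hg : ∀ i, 0 < g i) :
    ∃ C : ℝ, 0 < C ∧ ∀ (p a t : ℕ), p.Prime → 0 < t → (∀ i, (2 : ℝ) ^ g i ≤ Real.sqrt p ^ t) →
    ∀ (m : I → ℕ → ℕ) (T : I → ℕ → Prop), (∀ i, IsData a (g i) (m i) (T i)) → Room g m a t →
    ∀ P : (I → ℤ[X]) → Prop, (∀ x, G (p ^ a) x → P (fun i => weil (p ^ a) (polys g x i))) →
    ({f : I → ℤ[X] | (∀ i, f i ∈ Closed p a (g i) (m i)) ∧ ¬ P f}.ncard : ℝ) ≤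
      C * rate (p ^ t) * ∏ i, ((Open p a (g i) (m i) (T i)).ncard : ℝ) := by
  classical
  obtain ⟨C, hC, hbad⟩ := hG
  have hK : 0 < ∏ i, ((3 * 4 ^ g i) ^ g i * (4 ^ g i * 2 ^ (g i ^ 2)) : ℝ) :=
    Finset.prod_pos fun i _ => by positivity
  refine ⟨C * ∏ i, ((3 * 4 ^ g i) ^ g i * (4 ^ g i * 2 ^ (g i ^ 2))), mul_pos hC hK, ?_⟩
  intro p a t hp ht htl m T hD hR P hP
  let F : ((Σ i, Fin (g i)) → ℤ) → (I → ℤ[X]) := fun y i => weil (p ^ a) (polys g (xx g m p y) i)
  have hsub : {f : I → ℤ[X] | (∀ i, f i ∈ Closed p a (g i) (m i)) ∧ ¬ P f} ⊆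
      F '' (((box (nlo g m p a) (nlen g m p a)).filter
        (fun y => ¬ G (p ^ a) (xx g m p y)) : Finset _) : Set _) := by
    rintro f ⟨hf, hPf⟩
    choose y hy hyb using fun i => exists_point_closed hp (hD i) (hf i)
    have hfx : f = F (fun s => y s.1 s.2) := by
      funext i
      exact hy i
    refine ⟨fun s => y s.1 s.2, ?_, hfx.symm⟩
    rw [Finset.mem_coe, Finset.mem_filter]
    constructor
    · unfold box
      rw [Fintype.mem_piFinset]
      intro s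
      rw [Finset.mem_Ico]
      have h1 := abs_le.1 (hyb s.1 s.2)
      have h2 : (hs g m p a s : ℤ) =
        ((bd (p ^ a) (g s.1) s.2 / p ^ m s.1 (g s.1 - (s.2 : ℕ)) : ℕ) : ℤ) := rfl
      rw [← h2] at h1
      unfold nlo nlen
      push_cast
      omega
    · intro hgood
      apply hPf
      rw [hfx]
      exact hP _ hgood
  have h1 := Set.ncard_le_ncard hsub ((Finset.finite_toSet _).image _)
  have h2 := h1.trans (Set.ncard_image_le (Finset.finite_toSet _))
  rw [Set.ncard_coe_finset] at h2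
  have h3 := hbad p a t m hp ht hR
  have h4 : ({f : I → ℤ[X] | (∀ i, f i ∈ Closed p a (g i) (m i)) ∧ ¬ P f}.ncard : ℝ) ≤
      (((box (nlo g m p a) (nlen g m p a)).filter
        (fun y => ¬ G (p ^ a) (xx g m p y))).card : ℝ) := by
    exact_mod_cast h2
  calc ({f : I → ℤ[X] | (∀ i, f i ∈ Closed p a (g i) (m i)) ∧ ¬ P f}.ncard : ℝ) ≤
      C * rate (p ^ t) * ∏ s, (nlen g m p a s : ℝ) := h4.trans h3
    _ ≤ C * rate (p ^ t) * ((∏ i, ((3 * 4 ^ g i) ^ g i * (4 ^ g i * 2 ^ (g i ^ 2)))) *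
      ∏ i, ((Open p a (g i) (m i) (T i)).ncard : ℝ)) :=
        mul_le_mul_of_nonneg_left (prod_nlen_le g hp hg hD hR htl)
          (mul_nonneg hC.le (rate_nonneg _))
    _ = _ := by ring

end

/-- **The count in Newton strata.** -/
theorem newton_count_gen {I : Type} [Fintype I]
    (g : I → ℕ) (G : ℕ → ((Σ i, Fin (g i)) → ℤ) → Prop) (hG : Rare g G) (hg : ∀ i, 0 < g i) :
    ∃ C : ℝ, ∀ (p a t : ℕ), p.Prime → 0 < t →
    ∀ (m : I → ℕ → ℕ) (T : I → ℕ → Prop), (∀ i, IsData a (g i) (m i) (T i)) → Room g m a t →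
    ∀ P : (I → ℤ[X]) → Prop, (∀ x, G (p ^ a) x → P (fun i => weil (p ^ a) (polys g x i))) →
    ∀ S : I → Set ℤ[X],
      (∀ i, Open p a (g i) (m i) (T i) ⊆ S i ∧ S i ⊆ Closed p a (g i) (m i)) →
      (∀ i, (S i).Finite ∧ (4 ^ g i ≤ p ^ t → (S i).Nonempty)) ∧
      ({f : I → ℤ[X] | (∀ i, f i ∈ S i) ∧ ¬ P f}.ncard : ℝ) ≤
        C * (Real.log ((p ^ t : ℕ) : ℝ) * ((p ^ t : ℕ) : ℝ) ^ (-(1 / 6) : ℝ)) *
          ∏ i, ((S i).ncard : ℝ) := by
  classical
  obtain ⟨C, hC, h⟩ := main_count_gen g G hG hg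
  -- the bound on `p ^ t`
  set Q : ℕ := ∏ i, 4 ^ g i with hQ
  have hQpos : 0 < Q := Finset.prod_pos fun i _ => by positivity
  have hQi : ∀ i, 4 ^ g i ≤ Q := by
    intro i
    exact Finset.single_le_prod' (f := fun i => 4 ^ g i) (fun j _ => Nat.one_le_pow _ _ (by norm_num))
      (Finset.mem_univ i)
  set c₀ : ℝ := Real.log 2 * (Q : ℝ) ^ (-(1 / 6) : ℝ) with hc₀
  have hQr : (0 : ℝ) < Q := by exact_mod_cast hQpos
  have hc₀pos : 0 < c₀ := mul_pos (Real.log_pos (by norm_num)) (Real.rpow_pos_of_pos hQr _)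
  refine ⟨C + 1 / c₀, ?_⟩
  intro p a t hp ht m T hD hR P hP S hS
  have hfinS : ∀ i, (S i).Finite := fun i => (finite_closed hp a (g i) (m i)).subset (hS i).2
  have hsq : ∀ i, 4 ^ g i ≤ p ^ t → (2 : ℝ) ^ g i ≤ Real.sqrt p ^ t := by
    intro i hi
    rw [← sqrt_pow_nat]
    apply Real.le_sqrt_of_sq_le
    rw [← pow_mul, mul_comm, pow_mul]
    norm_num
    exact_mod_cast hi
  have hr : 0 ≤ Real.log ((p ^ t : ℕ) : ℝ) * ((p ^ t : ℕ) : ℝ) ^ (-(1 / 6) : ℝ) := rate_nonneg _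
  have hprod : (0 : ℝ) ≤ ∏ i, ((S i).ncard : ℝ) := Finset.prod_nonneg fun i _ => Nat.cast_nonneg _
  refine ⟨fun i => ⟨hfinS i, fun hi => ?_⟩, ?_⟩
  · have h1 := open_lower hp (hg i) (hD i) (hR i) (hsq i hi)
    have h2 : 0 < (Open p a (g i) (m i) (T i)).ncard := by
      by_contra hcon
      have h3 : (Open p a (g i) (m i) (T i)).ncard = 0 := by omega
      rw [h3] at h1
      have := h1.1
      have := h1.2
      simp only [Nat.cast_zero, mul_zero] at this
      linarith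
    exact ((Set.ncard_pos (finite_open hp a (g i) (m i) (T i))).1 h2).mono (hS i).1
  · rcases Nat.lt_or_ge (p ^ t) Q with hlt | hge
    · -- the trivial bound
      have h1 : {f : I → ℤ[X] | (∀ i, f i ∈ S i) ∧ ¬ P f} ⊆ Set.pi Set.univ S :=
        fun f hf i _ => hf.1 i
      have hfin : (Set.pi Set.univ S).Finite := Set.Finite.pi fun i => hfinS i
      have h2 := Set.ncard_le_ncard h1 hfin
      have h3 : (Set.pi Set.univ S).ncard = ∏ i, (S i).ncard := by
        have h4 : Set.pi Set.univ S = ((Fintype.piFinset fun i => (hfinS i).toFinset :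
            Finset (I → ℤ[X])) : Set (I → ℤ[X])) := by
          ext f
          simp
        rw [h4, Set.ncard_coe_finset, Fintype.card_piFinset]
        refine Finset.prod_congr rfl fun i _ => ?_
        rw [Set.ncard_eq_toFinset_card _ (hfinS i)]
      rw [h3] at h2
      have h4 : ({f : I → ℤ[X] | (∀ i, f i ∈ S i) ∧ ¬ P f}.ncard : ℝ) ≤
          ∏ i, ((S i).ncard : ℝ) := by exact_mod_cast h2
      have h2t : 2 ≤ p ^ t := hp.two_le.trans (Nat.le_self_pow ht.ne' p)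
      have h2t' : (2 : ℝ) ≤ ((p ^ t : ℕ) : ℝ) := by exact_mod_cast h2t
      have h5 : c₀ ≤ Real.log ((p ^ t : ℕ) : ℝ) * ((p ^ t : ℕ) : ℝ) ^ (-(1 / 6) : ℝ) := by
        rw [hc₀]
        refine mul_le_mul ?_ ?_ (Real.rpow_nonneg hQr.le _) (Real.log_nonneg (by linarith))
        · exact Real.log_le_log (by norm_num) h2t'
        · apply Real.rpow_le_rpow_of_nonpos (by linarith)
          · exact_mod_cast hlt.le
          · norm_num
      have h6 : 1 ≤ (1 / c₀) *
          (Real.log ((p ^ t : ℕ) : ℝ) * ((p ^ t : ℕ) : ℝ) ^ (-(1 / 6) : ℝ)) := by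
        rw [one_div, le_inv_mul_iff₀ hc₀pos, mul_one]
        exact h5
      have h7 : 1 ≤ (C + 1 / c₀) *
          (Real.log ((p ^ t : ℕ) : ℝ) * ((p ^ t : ℕ) : ℝ) ^ (-(1 / 6) : ℝ)) := by
        rw [add_mul]
        have := mul_nonneg hC.le hr
        linarith
      exact h4.trans (le_mul_of_one_le_left hprod h7)
    · have htl : ∀ i, (2 : ℝ) ^ g i ≤ Real.sqrt p ^ t := fun i => hsq i ((hQi i).trans hge)
      have h1 := h p a t hp ht htl m T hD hR P hP
      have hfin : {f : I → ℤ[X] | (∀ i, f i ∈ Closed p a (g i) (m i)) ∧ ¬ P f}.Finite :=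
        (Pool.Agent.W521.Total.finite_tuples g (pow_ne_zero a hp.ne_zero)).subset
          fun f hf i => (hf.1 i).1
      have h2 : {f : I → ℤ[X] | (∀ i, f i ∈ S i) ∧ ¬ P f}.ncard ≤
          {f : I → ℤ[X] | (∀ i, f i ∈ Closed p a (g i) (m i)) ∧ ¬ P f}.ncard :=
        Set.ncard_le_ncard (fun f hf => ⟨fun i => (hS i).2 (hf.1 i), hf.2⟩) hfin
      calc ({f : I → ℤ[X] | (∀ i, f i ∈ S i) ∧ ¬ P f}.ncard : ℝ) ≤ _ := by
            exact_mod_cast h2
        _ ≤ C * (Real.log ((p ^ t : ℕ) : ℝ) * ((p ^ t : ℕ) : ℝ) ^ (-(1 / 6) : ℝ)) *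
              ∏ i, ((Open p a (g i) (m i) (T i)).ncard : ℝ) := h1
        _ ≤ C * (Real.log ((p ^ t : ℕ) : ℝ) * ((p ^ t : ℕ) : ℝ) ^ (-(1 / 6) : ℝ)) *
              ∏ i, ((S i).ncard : ℝ) := by
            refine mul_le_mul_of_nonneg_left ?_ (mul_nonneg hC.le hr)
            refine Finset.prod_le_prod (fun i _ => Nat.cast_nonneg _) fun i _ => ?_
            exact_mod_cast Set.ncard_le_ncard (hS i).1 (hfinS i)
        _ ≤ _ := by
            refine mul_le_mul_of_nonneg_right ?_ hprod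
            refine mul_le_mul_of_nonneg_right ?_ hr
            have : 0 < 1 / c₀ := by positivity
            linarith


/-- **The count.** -/
theorem strata_count_gen {I : Type} [Fintype I]
    (g : I → ℕ) (G : ℕ → ((Σ i, Fin (g i)) → ℤ) → Prop) (hG : Rare g G)
    (hg : ∀ i, 0 < g i) (P : ℕ → (I → ℤ[X]) → Prop)
    (hP : ∀ q : ℕ, IsPrimePow q → ∀ x : (Σ i, Fin (g i)) → ℤ,
      G q x → P q (fun i => weil q (polys g x i))) :
    ∃ C : ℝ, ∀ p a t : ℕ, p.Prime → 0 < a → 0 < t → ∀ S : I → Set ℤ[X],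
      (∀ i, IsStratum p a (g i) t (S i)) →
      (∀ i, (S i).Finite ∧ (4 ^ g i ≤ p ^ t → (S i).Nonempty)) ∧
      ({f : I → ℤ[X] | (∀ i, f i ∈ S i) ∧ ¬ P (p ^ a) f}.ncard : ℝ) ≤
        C * (Real.log ((p ^ t : ℕ) : ℝ) * ((p ^ t : ℕ) : ℝ) ^ (-(1 / 6) : ℝ)) *
          ∏ i, ((S i).ncard : ℝ) := by
  obtain ⟨C, hC⟩ := newton_count_gen g G hG hg
  refine ⟨C, fun p a t hp ha ht S hS => ?_⟩
  choose m T hD hR hS1 hS2 using hS
  exact hC p a t hp ht m T hD (fun i j => hR i j) (P (p ^ a))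
    (fun x hx => hP _ (hp.isPrimePow.pow ha.ne') x hx) S (fun i => ⟨hS1 i, hS2 i⟩)


theorem rare_and {I : Type} [Fintype I] {g : I → ℕ} {G G' : ℕ → ((Σ i, Fin (g i)) → ℤ) → Prop}
    (h : Rare g G) (h' : Rare g G') : Rare g (fun q x => G q x ∧ G' q x) := by
  classical
  obtain ⟨C, hC, h1⟩ := h
  obtain ⟨C', hC', h2⟩ := h'
  refine ⟨C + C', by linarith, ?_⟩
  intro p a t m hp ht hR
  have e1 := h1 p a t m hp ht hR
  have e2 := h2 p a t m hp ht hR
  have h3 : ((box (nlo g m p a) (nlen g m p a)).filter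
      (fun y => ¬ (G (p ^ a) (xx g m p y) ∧ G' (p ^ a) (xx g m p y)))) ⊆
      ((box (nlo g m p a) (nlen g m p a)).filter (fun y => ¬ G (p ^ a) (xx g m p y))) ∪
      ((box (nlo g m p a) (nlen g m p a)).filter (fun y => ¬ G' (p ^ a) (xx g m p y))) := by
    intro y hy
    obtain ⟨hy1, hy2⟩ := Finset.mem_filter.1 hy
    rw [Finset.mem_union, Finset.mem_filter, Finset.mem_filter]
    by_cases h4 : G (p ^ a) (xx g m p y)
    · exact Or.inr ⟨hy1, fun h5 => hy2 ⟨h4, h5⟩⟩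
    · exact Or.inl ⟨hy1, h4⟩
  have h4 := (Finset.card_le_card h3).trans (Finset.card_union_le _ _)
  have h5 : (((box (nlo g m p a) (nlen g m p a)).filter
      (fun y => ¬ (G (p ^ a) (xx g m p y) ∧ G' (p ^ a) (xx g m p y)))).card : ℝ) ≤
      (((box (nlo g m p a) (nlen g m p a)).filter (fun y => ¬ G (p ^ a) (xx g m p y))).card : ℝ) +
      (((box (nlo g m p a) (nlen g m p a)).filter (fun y => ¬ G' (p ^ a) (xx g m p y))).card : ℝ) := by
    exact_mod_cast h4
  have h6 := h5.trans (add_le_add e1 e2)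
  rw [← add_mul, ← add_mul] at h6
  refine le_trans (le_of_eq ?_) h6
  congr!

theorem rare_true {I : Type} [Fintype I] {g : I → ℕ} {G : ℕ → ((Σ i, Fin (g i)) → ℤ) → Prop}
    (h : ∀ q x, G q x) : Rare g G := by
  classical
  refine ⟨1, one_pos, ?_⟩
  intro p a t m hp ht hR
  have h1 : ((box (nlo g m p a) (nlen g m p a)).filter (fun y => ¬ G (p ^ a) (xx g m p y))) = ∅ :=
    Finset.filter_false_of_mem fun y _ h2 => h2 (h _ _)
  have h2 : (0 : ℝ) ≤ 1 * rate (p ^ t) * ∏ s, (nlen g m p a s : ℝ) := by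
    refine mul_nonneg (mul_nonneg zero_le_one (rate_nonneg _))
      (Finset.prod_nonneg fun s _ => Nat.cast_nonneg _)
  refine le_trans (le_of_eq ?_) h2
  have h3 : (Finset.card ((box (nlo g m p a) (nlen g m p a)).filter
      (fun y => ¬ G (p ^ a) (xx g m p y)))) = 0 := by rw [h1, Finset.card_empty]
  exact_mod_cast h3

theorem rare_all {I J : Type} [Fintype I] [Fintype J] {g : I → ℕ}
    {G : J → ℕ → ((Σ i, Fin (g i)) → ℤ) → Prop} (h : ∀ j, Rare g (G j)) :
    Rare g (fun q x => ∀ j, G j q x) := by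
  classical
  have key : ∀ S : Finset J, Rare g (fun q x => ∀ j ∈ S, G j q x) := by
    intro S
    induction S using Finset.induction_on with
    | empty => exact rare_true fun q x j hj => absurd hj (Finset.notMem_empty j)
    | insert j S hj ih =>
      have h1 := rare_and (h j) ih
      simpa only [Finset.forall_mem_insert] using h1
  simpa only [Finset.mem_univ, true_imp_iff] using key Finset.univ

theorem rare_goodS (U : Set ℕ) (hU : Pool.Agent.W484.TB.Dense U) {I : Type} [Fintype I] (g : I → ℕ)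
    (hg : ∀ i, 0 < g i) (d : ℕ) (hd : 3 ≤ d → ∀ i, 3 ≤ g i) : Rare g (GoodS U g d) := by
  classical
  have h1 : Rare g (GoodU U g) := by
    obtain ⟨C, hC, h⟩ := bad_count' g U hU hg
    refine ⟨C, hC, fun p a t m hp ht hR => ?_⟩
    convert h p a t m hp ht hR
  unfold GoodS
  refine rare_and h1 ?_
  by_cases h3 : 3 ≤ d
  · have hcyc : ∀ i n, n + 2 ≤ g i → Rare g (fun (_ : ℕ) x =>
        ∃ l : ℕ, l.Prime ∧ l ∈ U ∧ CycPat (polys g x i) l n) := by
      intro i n hn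
      obtain ⟨C, hC, h⟩ := cyc_count g U hU hg i n hn
      refine ⟨C, hC, fun p a t m hp ht hR => ?_⟩
      convert h p a t m hp ht hR
    have h4 : Rare g (fun (_ : ℕ) x => ∀ i, FullPat U (polys g x i)) := by
      refine rare_all fun i => ?_
      have h5 := hd h3 i
      have h6 := rare_and (hcyc i 0 (by omega)) (rare_and (hcyc i 1 (by omega))
        (hcyc i (g i - 2) (by omega)))
      unfold FullPat
      have hdeg : ∀ x : (Σ i, Fin (g i)) → ℤ, (polys g x i).natDegree = g i :=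
        fun x => mkPoly_natDegree (g i) _
      simpa only [hdeg] using h6
    simpa only [h3, true_imp_iff] using h4
  · exact rare_true fun q x h4 => absurd h4 h3

/-- **The count.** -/
theorem every_count {I : Type} [Fintype I] (g : I → ℕ) (hg : ∀ i, 0 < g i) (d : ℕ) (hd : Dims g d)
    (E : IntermediateField ℚ ℂ) [FiniteDimensional ℚ E]
    (P : ℕ → (I → ℤ[X]) → IntermediateField ℚ ℂ → ℕ → Prop)
    (hP : ∀ q : ℕ, IsPrimePow q → ∀ x : (Σ i, Fin (g i)) → ℤ, Good g q x →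
      ∀ (K : IntermediateField ℚ ℂ) (r : ℕ), PairProp K g q r x →
        P q (fun i => weil q (polys g x i)) K r) :
    ∃ C : ℝ, ∀ p a t : ℕ, p.Prime → 0 < a → 0 < t → ∀ S : I → Set ℤ[X],
      (∀ i, IsStratum p a (g i) t (S i)) →
      (∀ i, (S i).Finite ∧ (4 ^ g i ≤ p ^ t → (S i).Nonempty)) ∧
      ({f : I → ℤ[X] | (∀ i, f i ∈ S i) ∧
        ¬ (NoRoot f (lowField E d) ∧ ForEveryField g f (P (p ^ a) f))}.ncard : ℝ) ≤
        C * (Real.log ((p ^ t : ℕ) : ℝ) * ((p ^ t : ℕ) : ℝ) ^ (-(1 / 6) : ℝ)) *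
          ∏ i, ((S i).ncard : ℝ) :=
  strata_count_gen g (GoodS (splitPrimes E) g d)
    (rare_goodS _ (dense_splitPrimes E) g hg d fun h3 i => h3.trans (hd h3 i).1)
    hg (fun q f => NoRoot f (lowField E d) ∧ ForEveryField g f (P q f)) fun q hq x hx =>
      ⟨fun i z hz hmem => noRoot_of_good g E hq.pos.ne' d hd x hx i z hz
        (lowField_mono (le_gal E) d hmem),
      fun K hK hroots r hr => by
        have hgood := Pool.Agent.N205.NS.good_of_goodU hx.1
        exact hP q hq x hgood K r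
          (pairProp_normal g K hq.pos.ne' r hr x hgood fun i z hz => hroots i z hz)⟩

end Pool.Agent.N205.SD
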