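import Mathlib
import Pool.Agent.N205.SD.Gal

/-!
# Incompatible patterns of two polynomials with roots which generate the same field
-/

set_option autoImplicit false

namespace Pool.Agent.N205.SD

open Polynomial NumberField Pool.Agent.W484.TB Pool.Agent.W484.AA Pool.Agent.W521.Frob
  Pool.Agent.W521.Criterion

/-- `h` splits modulo `l`, exactly one root is not a trace of a number in the prime field. -/
def Flip1 (q : ℕ) (h : ℤ[X]) (l : ℕ) : Prop :=
  ∃ (T : Finset (ZMod l)) (t₀ : ZMod l), t₀ ∈ T ∧ ¬ IsSquare (t₀ ^ 2 - 4 * (q : ZMod l)) ∧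
    h.map (Int.castRingHom (ZMod l)) = ∏ t ∈ T, (X - C t) ∧
    ∀ t ∈ T, t ≠ t₀ → IsSquare (t ^ 2 - 4 * (q : ZMod l)) ∧ t ^ 2 - 4 * (q : ZMod l) ≠ 0

/-- `h` splits modulo `l`, all roots are traces of numbers in the prime field. -/
def Split1 (q : ℕ) (h : ℤ[X]) (l : ℕ) : Prop :=
  ∃ T : Finset (ZMod l), h.map (Int.castRingHom (ZMod l)) = ∏ t ∈ T, (X - C t) ∧
    ∀ t ∈ T, IsSquare (t ^ 2 - 4 * (q : ZMod l)) ∧ t ^ 2 - 4 * (q : ZMod l) ≠ 0

theorem minpoly_of {h : ℤ[X]} (hm : h.Monic) (hirr : Irreducible (h.map (Int.castRingHom ℚ)))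
    {L : Type*} [Field L] [Algebra ℚ L] (θ : L) (hθ : aeval θ h = 0) :
    minpoly ℚ θ = h.map (Int.castRingHom ℚ) := by
  refine (minpoly.eq_of_irreducible_of_monic hirr ?_ (hm.map _)).symm
  rw [aeval_def, eval₂_map, RingHom.ext_int ((algebraMap ℚ L).comp _) (algebraMap ℤ L)]
  exact hθ

theorem eq_of_common_root {h h' : ℤ[X]} (hm : h.Monic) (hm' : h'.Monic)
    (hirr : Irreducible (h.map (Int.castRingHom ℚ)))
    (hirr' : Irreducible (h'.map (Int.castRingHom ℚ)))
    {L : Type*} [Field L] [Algebra ℚ L] (θ : L) (hθ : aeval θ h = 0) (hθ' : aeval θ h' = 0) :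
    h = h' := by
  have h1 := (minpoly_of hm hirr θ hθ).symm.trans (minpoly_of hm' hirr' θ hθ')
  exact Polynomial.map_injective (Int.castRingHom ℚ) Int.cast_injective h1

/-- The first trap. -/
theorem trap_flip {q : ℕ} {h h' : ℤ[X]} (hm : h.Monic) (hm' : h'.Monic)
    (hirr : Irreducible (h.map (Int.castRingHom ℚ)))
    (hirr' : Irreducible (h'.map (Int.castRingHom ℚ))) {l : ℕ} (hl : l.Prime) (hl2 : l ≠ 2)
    (hlq : ¬ l ∣ q) (hflip : Flip1 q h l) (hsplit : Split1 q h' l) (z z' : ℂ)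
    (hz : aeval z (weil q h) = 0) (hz' : aeval z' (weil q h') = 0)
    (hzz : z ∈ IntermediateField.adjoin ℚ {z'}) : False := by
  classical
  have hq : q ≠ 0 := by
    rintro rfl
    exact hlq (dvd_zero _)
  have : Fact l.Prime := ⟨hl⟩
  obtain ⟨T, t₀, ht₀, hns, hfac, hsq⟩ := hflip
  obtain ⟨T', hfac', hsq'⟩ := hsplit
  -- the polynomials are different
  have hne : h ≠ h' := by
    rintro rfl
    rw [hfac] at hfac'
    have h1 := congrArg roots hfac'
    have h2 : ∀ S : Finset (ZMod l), (∏ t ∈ S, (X - C t) : (ZMod l)[X]).roots = S.val := by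
      intro S
      exact roots_prod_X_sub_C S
    rw [h2, h2] at h1
    have h3 : T = T' := Finset.val_inj.1 h1
    rw [h3] at ht₀
    exact hns (hsq' t₀ ht₀).1
  let H : Bool → ℤ[X] := fun b => if b then h else h'
  have hHm : ∀ b, (H b).Monic := by
    intro b
    cases b
    · exact hm'
    · exact hm
  let S : Finset ℂ := Finset.univ.biUnion fun b => ((weil q (H b)).map (algebraMap ℤ ℂ)).roots.toFinset
  have hSint : ∀ y : S, IsIntegral ℚ (y : ℂ) := by
    rintro ⟨y, hy⟩
    obtain ⟨b, -, h2⟩ := Finset.mem_biUnion.1 hy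
    have h3 := (mem_roots'.1 (Multiset.mem_toFinset.1 h2)).2
    rw [IsRoot.def, eval_map] at h3
    have h4 : IsIntegral ℤ y := ⟨weil q (H b), weil_monic q (hHm b), h3⟩
    exact h4.tower_top
  obtain ⟨L, hL1, hL2, j, hj⟩ := exists_galois_of_rat (fun y : S => (y : ℂ)) hSint
  have hL : ∀ b, ∀ z : ℂ, aeval z (weil q (H b)) = 0 → ∃ x : L, j x = z := by
    intro b z hz
    refine hj ⟨z, Finset.mem_biUnion.2 ⟨b, Finset.mem_univ _, ?_⟩⟩
    rw [Multiset.mem_toFinset, mem_roots ((weil_monic q (hHm b)).map _).ne_zero, IsRoot.def,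
      eval_map]
    exact hz
  obtain ⟨α, hα⟩ := hL true z hz
  obtain ⟨β, hβ⟩ := hL false z' hz'
  have hback : ∀ (p : ℤ[X]) (x : L), aeval (j x) p = 0 → aeval x p = 0 := by
    intro p x hx
    apply j.injective
    have h2 := Polynomial.hom_eval₂ p (algebraMap ℤ L) j x
    rw [RingHom.ext_int (j.comp (algebraMap ℤ L)) (algebraMap ℤ ℂ)] at h2
    rw [map_zero]
    exact h2.trans hx
  have hαr : aeval α (weil q (H true)) = 0 := hback _ _ (by rw [hα]; exact hz)
  have hβr : aeval β (weil q (H false)) = 0 := hback _ _ (by rw [hβ]; exact hz')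
  have hpat : FlipPattern q H true l := by
    refine ⟨fun b => if b then T else T', t₀, ?_, hns, ?_, ?_⟩
    · exact ht₀
    · intro b
      cases b
      · exact hfac'
      · exact hfac
    · intro b t ht hb
      cases b
      · exact hsq' t ht
      · exact hsq t ht fun h1 => hb ⟨rfl, h1⟩
  obtain ⟨σ, hσ1, hσ2, hσ3⟩ := all_flippable hq hHm L j hL true hirr hl hl2 hlq hpat α hαr
  have hα' := (root_iff hq hm α).1 hαr
  have hβ' := (root_iff hq hm' β).1 hβr
  have hqL : (q : L) ≠ 0 := by exact_mod_cast hq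
  have hβfix : σ β = β := by
    refine hσ3 false β hβr ?_ ?_
    · rintro rfl
      exact hne (eq_of_common_root hm hm' hirr hirr' _ hα'.2 hβ'.2)
    · intro h1
      have h2 : β + q / β = α + q / α := by
        rw [h1, div_div_cancel₀ hqL, add_comm]
      rw [h2] at hβ'
      exact hne (eq_of_common_root hm hm' hirr hirr' _ hα'.2 hβ'.2)
  -- the field generated by `β`
  have hαβ : α ∈ IntermediateField.adjoin ℚ {β} := by
    let jA : L →ₐ[ℚ] ℂ := j.toRatAlgHom
    have h1 : IntermediateField.adjoin ℚ {z'} = (IntermediateField.adjoin ℚ {β}).map jA := by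
      rw [IntermediateField.adjoin_map, Set.image_singleton]
      congr 2
      exact hβ.symm
    rw [h1] at hzz
    obtain ⟨y, hy, hyz⟩ := hzz
    have h2 : y = α := j.injective (hyz.trans hα.symm)
    rw [← h2]
    exact hy
  have hle : IntermediateField.adjoin ℚ {β} ≤ IntermediateField.fixedField (Subgroup.zpowers σ) := by
    rw [IntermediateField.adjoin_simple_le_iff, IntermediateField.mem_fixedField_iff]
    rintro τ ⟨n, rfl⟩
    have h3 : (σ ^ n) • β = β := by
      have h4 : σ ∈ MulAction.stabilizer (L ≃ₐ[ℚ] L) β := hβfix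
      exact zpow_mem h4 n
    exact h3
  have h5 := (IntermediateField.mem_fixedField_iff _ _).1 (hle hαβ) σ (Subgroup.mem_zpowers σ)
  exact hσ2 (h5.symm.trans hσ1)

open Classical in
/-- The second trap. -/
theorem trap_cyc {h h' : ℤ[X]} (hm : h.Monic) (hm' : h'.Monic)
    (hirr : Irreducible (h.map (Int.castRingHom ℚ)))
    (hirr' : Irreducible (h'.map (Int.castRingHom ℚ))) {l : ℕ} (hl : l.Prime)
    (hdeg : 2 ≤ h'.natDegree) (hpat : CycPat h l 1) (hpat' : CycPat h' l 0) (z z' : ℂ)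
    (hz : aeval z h = 0) (hz' : aeval z' h' = 0)
    (hzz : z' ∈ IntermediateField.adjoin ℚ {z}) : False := by
  have : Fact l.Prime := ⟨hl⟩
  let S : Finset ℂ := (h.map (algebraMap ℤ ℂ)).roots.toFinset ∪ (h'.map (algebraMap ℤ ℂ)).roots.toFinset
  have hint : ∀ {p : ℤ[X]} (_ : p.Monic) {y : ℂ}, aeval y p = 0 → IsIntegral ℚ y := by
    intro p hp y hy
    have h4 : IsIntegral ℤ y := ⟨p, hp, hy⟩
    exact h4.tower_top
  have hSint : ∀ y : S, IsIntegral ℚ (y : ℂ) := by
    rintro ⟨y, hy⟩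
    rcases Finset.mem_union.1 hy with h1 | h1
    · have h3 := (mem_roots'.1 (Multiset.mem_toFinset.1 h1)).2
      rw [IsRoot.def, eval_map] at h3
      exact hint hm h3
    · have h3 := (mem_roots'.1 (Multiset.mem_toFinset.1 h1)).2
      rw [IsRoot.def, eval_map] at h3
      exact hint hm' h3
  obtain ⟨L, hL1, hL2, j, hj⟩ := exists_galois_of_rat (fun y : S => (y : ℂ)) hSint
  obtain ⟨jA, hjA⟩ := exists_jA j
  have hL : ∀ y : AA, aeval y h = 0 → ∃ x : L, jA x = y := by
    intro y hy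
    have h1 : aeval ((y : AA) : ℂ) h = 0 := by
      have h2 := aeval_algebraMap_apply ℂ y h
      rw [hy, map_zero] at h2
      exact h2
    obtain ⟨x, hx⟩ := hj ⟨(y : ℂ), Finset.mem_union.2 (Or.inl (by
      rw [Multiset.mem_toFinset, mem_roots ((hm.map _).ne_zero), IsRoot.def, eval_map]
      exact h1))⟩
    exact ⟨x, Subtype.ext ((hjA x).trans hx)⟩
  have hL' : ∀ y : AA, aeval y h' = 0 → ∃ x : L, jA x = y := by
    intro y hy
    have h1 : aeval ((y : AA) : ℂ) h' = 0 := by
      have h2 := aeval_algebraMap_apply ℂ y h'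
      rw [hy, map_zero] at h2
      exact h2
    obtain ⟨x, hx⟩ := hj ⟨(y : ℂ), Finset.mem_union.2 (Or.inr (by
      rw [Multiset.mem_toFinset, mem_roots ((hm'.map _).ne_zero), IsRoot.def, eval_map]
      exact h1))⟩
    exact ⟨x, Subtype.ext ((hjA x).trans hx)⟩
  obtain ⟨k, _, hchar, φ, σ, hσ⟩ := exists_frob L l hl
  obtain ⟨s, hs⟩ := lift_exists jA σ
  obtain ⟨A, hA1, hA2, -⟩ := cyc_frob hm hirr jA hL hpat φ σ hσ s hs
  obtain ⟨A', hA1', -, hA3'⟩ := cyc_frob hm' hirr' jA hL' hpat' φ σ hσ s hs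
  rw [Finset.card_eq_zero] at hA1'
  subst hA1'
  obtain ⟨a, ha⟩ := Finset.card_eq_one.1 hA1
  have hfa : s a.1 = a.1 := congrArg Subtype.val (hA2 a (by rw [ha]; exact Finset.mem_singleton_self a))
  -- the algebraic numbers
  have hcl : IsAlgClosure ℚ AA := algebraicClosure.isAlgClosure ℚ ℂ
  have hN : Normal ℚ AA := IsAlgClosure.normal ℚ AA
  have hzA : z ∈ AA := by
    rw [mem_algebraicClosure_iff]
    exact isAlgebraic_iff_isIntegral.2 (hint hm hz)
  have hzA' : z' ∈ AA := by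
    rw [mem_algebraicClosure_iff]
    exact isAlgebraic_iff_isIntegral.2 (hint hm' hz')
  have hzr : aeval (⟨z, hzA⟩ : AA) h = 0 := by
    apply (algebraMap AA ℂ).injective
    rw [← aeval_algebraMap_apply, map_zero]
    exact hz
  have hzr' : aeval (⟨z', hzA'⟩ : AA) h' = 0 := by
    apply (algebraMap AA ℂ).injective
    rw [← aeval_algebraMap_apply, map_zero]
    exact hz'
  obtain ⟨τ, hτ⟩ := isConjRoot_iff_exists_algEquiv.1
    ((minpoly_of hm hirr a.1 a.2).trans (minpoly_of hm hirr _ hzr).symm :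
      IsConjRoot ℚ a.1 (⟨z, hzA⟩ : AA))
  -- the fixed field
  let K : IntermediateField ℚ AA :=
    { carrier := {y | s (τ y) = τ y}
      mul_mem' := by
        intro x y hx hy
        rw [Set.mem_ofPred_eq] at hx hy ⊢
        rw [map_mul, map_mul, hx, hy]
      add_mem' := by
        intro x y hx hy
        rw [Set.mem_ofPred_eq] at hx hy ⊢
        rw [map_add, map_add, hx, hy]
      algebraMap_mem' := by
        intro r
        rw [Set.mem_ofPred_eq, τ.commutes, s.commutes]
      inv_mem' := by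
        intro x hx
        rw [Set.mem_ofPred_eq] at hx ⊢
        rw [map_inv₀, map_inv₀, hx] }
  have hzK : z ∈ IntermediateField.lift K := by
    have h1 : (⟨z, hzA⟩ : AA) ∈ K := by
      change s (τ ⟨z, hzA⟩) = τ ⟨z, hzA⟩
      rw [hτ]
      exact hfa
    exact (IntermediateField.mem_lift (⟨z, hzA⟩ : AA)).2 h1
  have hzK' : z' ∈ IntermediateField.lift K :=
    (IntermediateField.adjoin_simple_le_iff.2 hzK) hzz
  have hfix : s (τ ⟨z', hzA'⟩) = τ ⟨z', hzA'⟩ :=
    (IntermediateField.mem_lift (⟨z', hzA'⟩ : AA)).1 hzK'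
  -- only one root
  let b : Rt h' := ⟨τ ⟨z', hzA'⟩, aeval_aut h' τ _ hzr'⟩
  have hb : permRt h' s b = b := Subtype.ext hfix
  have hbpow : ∀ m : ℕ, (permRt h' s ^ m) b = b := by
    intro m
    induction m with
    | zero => rfl
    | succ m ih => rw [pow_succ, Equiv.Perm.mul_apply, hb, ih]
  have hfin : Fintype (Rt h') := @Fintype.ofFinite _ (finite_rt hm')
  have hcard : Fintype.card (Rt h') = h'.natDegree := card_rt hm' hirr'
  have h1 : Fintype.card (Rt h') ≤ 1 := by
    rw [Fintype.card_le_one_iff_subsingleton]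
    refine ⟨fun c e => ?_⟩
    obtain ⟨m, hm1⟩ := hA3' b (Finset.notMem_empty b) c (Finset.notMem_empty c)
    obtain ⟨n, hn1⟩ := hA3' b (Finset.notMem_empty b) e (Finset.notMem_empty e)
    rw [← hm1, ← hn1, hbpow, hbpow]
  omega

end Pool.Agent.N205.SD
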