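import Mathlib
import Pool.Agent.N205.SD.Trap
import Pool.Agent.N205.SD.Main
import Pool.Agent.N205.SD.Grp2

/-!
# Counts which are uniform in the field
-/

set_option autoImplicit false

namespace Pool.Agent.N205.SD

open Polynomial Pool.Agent.W521.Frob Pool.Agent.W521.Descent Pool.Agent.W521.Density
  Pool.Agent.W521.Count Pool.Agent.W521.Turan Pool.Agent.W521.Total Pool.Agent.W521.Sieve
  Pool.Agent.W521.Bad Pool.Agent.W484.TB Pool.Agent.N205.NS

theorem subfields_gen {K L : Type*} [Field K] [Field L] [Algebra K L] (E : IntermediateField K L)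
    [IsGalois K E] [FiniteDimensional K E] :
    ∃ S : Finset (IntermediateField K L), (∀ F ≤ E, F ∈ S) ∧
      S.card ≤ 2 ^ Module.finrank K E := by
  classical
  have hfin : Finite (IntermediateField K E) :=
    Finite.of_equiv _ (IsGalois.intermediateFieldEquivSubgroup (F := K) (E := E)).toEquiv.symm
  have hfin' : Fintype (IntermediateField K E) := Fintype.ofFinite _
  refine ⟨Finset.univ.image (IntermediateField.lift : IntermediateField K E → IntermediateField K L),
    fun F hF => ?_, ?_⟩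
  · rw [Finset.mem_image]
    exact ⟨IntermediateField.restrict hF, Finset.mem_univ _, IntermediateField.lift_restrict hF⟩
  · refine Finset.card_image_le.trans ?_
    rw [Finset.card_univ, ← Nat.card_eq_fintype_card]
    have h1 : Nat.card (IntermediateField K E) ≤ Nat.card (Gal(E/K) → Prop) :=
      Nat.card_le_card_of_injective (fun H : IntermediateField K E =>
        (fun σ => σ ∈ (H.fixingSubgroup : Subgroup Gal(E/K)) : Gal(E/K) → Prop)) (by
          intro H H' h
          have h2 : H.fixingSubgroup = H'.fixingSubgroup := by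
            ext σ
            exact iff_of_eq (congrFun h σ)
          rw [← IsGalois.fixedField_fixingSubgroup H, h2, IsGalois.fixedField_fixingSubgroup])
    refine h1.trans ?_
    rw [Nat.card_fun, Nat.card_eq_fintype_card (α := Prop), Fintype.card_prop,
      IsGalois.card_aut_eq_finrank]

theorem galois' (E : IntermediateField ℚ ℂ) (h : Normal ℚ E) :
    @IsGalois ℚ _ E _ E.algebra' := by
  have h0 : E.algebra' = DivisionRing.toRatAlgebra := Subsingleton.elim _ _
  rw [h0]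
  exact { to_isSeparable := inferInstance, to_normal := h }

theorem subfields_count (E : IntermediateField ℚ ℂ) [hN : Normal ℚ E] [FiniteDimensional ℚ E] :
    ∃ S : Finset (IntermediateField ℚ ℂ), (∀ F ≤ E, F ∈ S) ∧
      S.card ≤ 2 ^ Module.finrank ℚ E := by
  have h1 := galois' E hN
  exact subfields_gen E

open Classical in
/-- the exceptional points are rare, with a constant which does not depend on the parameter -/
def RareFor {I : Type} [Fintype I] (g : I → ℕ) {J : Type}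
    (G : J → ℕ → ((Σ i, Fin (g i)) → ℤ) → Prop) : Prop :=
  ∃ C : ℝ, 0 < C ∧ ∀ (j : J) (p a t : ℕ) (m : I → ℕ → ℕ), p.Prime → 0 < t → Room g m a t →
    (((box (nlo g m p a) (nlen g m p a)).filter
      (fun y => ¬ G j (p ^ a) (xx g m p y))).card : ℝ) ≤
      C * rate (p ^ t) * ∏ s, (nlen g m p a s : ℝ)

section trap

variable {I : Type} [Fintype I] (g : I → ℕ) {J : Type}

theorem trap_count (c : ℝ) (hc : 0 < c) (l₀ : ℕ)
    (Ω : J → ℕ → ∀ l : ℕ, Finset ((Σ i, Fin (g i)) → ZMod l))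
    (hΩ : ∀ j q l, l.Prime → l₀ ≤ l → ¬ l ∣ q → c * (l : ℝ) ^ (∑ i, g i) ≤ ((Ω j q l).card : ℝ))
    (G : J → ℕ → ((Σ i, Fin (g i)) → ℤ) → Prop)
    (hG : ∀ j q x, ¬ G j q x → ∀ l : ℕ, l.Prime → l₀ ≤ l → ¬ l ∣ q → red l x ∉ Ω j q l) :
    RareFor g G := by
  classical
  have hcardι : Fintype.card (Σ i, Fin (g i)) = ∑ i, g i := by
    rw [Fintype.card_sigma]
    simp
  obtain ⟨C, hC, h⟩ := sieve_bound (Fintype.card (Σ i, Fin (g i))) c hc l₀
  refine ⟨C, hC, ?_⟩
  intro j p a t m hp ht hR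
  have hpp : IsPrimePow (p ^ t) := hp.isPrimePow.pow ht.ne'
  have hlen : ∀ s, Real.sqrt ((p ^ t : ℕ) : ℝ) ≤ (nlen g m p a s : ℝ) := sqrt_le_nlen hp hR
  have hlp : ∀ l : ℕ, l.Prime → ¬ l ∣ p ^ t → ¬ l ∣ p := fun l hl h h' =>
    h (h'.trans (dvd_pow_self p ht.ne'))
  have hla : ∀ l : ℕ, l.Prime → ¬ l ∣ p → ¬ l ∣ p ^ a := fun l hl h h' =>
    h (hl.dvd_of_dvd_pow h')
  have h1 := h (p ^ t) hpp rfl (fun l => pull p (ex g m) l (Ω j (p ^ a) l)) (by
    intro l hl hl0 hlt
    have hlp' := hlp l hl hlt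
    rw [card_pull _ hl hlp', hcardι]
    exact hΩ j (p ^ a) l hl hl0 (hla l hl hlp')) (nlo g m p a) (nlen g m p a) hlen
  refine le_trans ?_ h1
  have h2 : ((box (nlo g m p a) (nlen g m p a)).filter
      (fun y => ¬ G j (p ^ a) (xx g m p y))) ⊆
      (box (nlo g m p a) (nlen g m p a)).filter
        (fun x => ∀ l : ℕ, l.Prime → l₀ ≤ l → ¬ l ∣ p ^ t →
          red l x ∉ pull p (ex g m) l (Ω j (p ^ a) l)) := by
    intro y hy
    obtain ⟨hy1, hy2⟩ := Finset.mem_filter.1 hy
    refine Finset.mem_filter.2 ⟨hy1, ?_⟩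
    intro l hl hl0 hlt hmem
    have hlp' := hlp l hl hlt
    exact hG j (p ^ a) _ hy2 l hl hl0 (hla l hl hlp')
      (mem_of_pull (ex g m) hl hlp' _ y hmem)
  exact_mod_cast Finset.card_le_card h2

theorem rareFor_sub (D : ℕ) (G : IntermediateField ℚ ℂ → ℕ → ((Σ i, Fin (g i)) → ℤ) → Prop)
    (h : RareFor g G) :
    RareFor g (J := {E : IntermediateField ℚ ℂ // Normal ℚ E ∧ FiniteDimensional ℚ E ∧
      Module.finrank ℚ E ≤ D}) (fun E q x => ∀ F ≤ E.1, G F q x) := by
  classical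
  obtain ⟨C, hC, h⟩ := h
  refine ⟨2 ^ D * C, by positivity, ?_⟩
  rintro ⟨E, hE1, hE2, hE3⟩ p a t m hp ht hR
  obtain ⟨S, hS, hScard⟩ := subfields_count E
  have hsub : ((box (nlo g m p a) (nlen g m p a)).filter
      (fun y => ¬ ∀ F ≤ E, G F (p ^ a) (xx g m p y))) ⊆
      S.biUnion fun F => (box (nlo g m p a) (nlen g m p a)).filter
        (fun y => ¬ G F (p ^ a) (xx g m p y)) := by
    intro y hy
    obtain ⟨hy1, hy2⟩ := Finset.mem_filter.1 hy
    push Not at hy2
    obtain ⟨F, hF, hy3⟩ := hy2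
    exact Finset.mem_biUnion.2 ⟨F, hS F hF, Finset.mem_filter.2 ⟨hy1, hy3⟩⟩
  have h1 := (Finset.card_le_card hsub).trans Finset.card_biUnion_le
  have h2 : (((box (nlo g m p a) (nlen g m p a)).filter
      (fun y => ¬ ∀ F ≤ E, G F (p ^ a) (xx g m p y))).card : ℝ) ≤
      ∑ F ∈ S, (((box (nlo g m p a) (nlen g m p a)).filter
        (fun y => ¬ G F (p ^ a) (xx g m p y))).card : ℝ) := by
    exact_mod_cast h1
  have h3 : ∑ F ∈ S, (((box (nlo g m p a) (nlen g m p a)).filter
        (fun y => ¬ G F (p ^ a) (xx g m p y))).card : ℝ) ≤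
      ∑ _F ∈ S, (C * rate (p ^ t) * ∏ s, (nlen g m p a s : ℝ)) := by
    refine Finset.sum_le_sum fun F _ => ?_
    exact h F p a t m hp ht hR
  have hnn : 0 ≤ C * rate (p ^ t) * ∏ s, (nlen g m p a s : ℝ) :=
    mul_nonneg (mul_nonneg hC.le (rate_nonneg _)) (Finset.prod_nonneg fun s _ => Nat.cast_nonneg _)
  have h4 : (S.card : ℝ) ≤ 2 ^ D := by
    have h5 := hScard.trans (Nat.pow_le_pow_right two_pos hE3)
    exact_mod_cast h5
  rw [Finset.sum_const, nsmul_eq_mul] at h3
  refine le_trans (h2.trans (h3.trans (mul_le_mul_of_nonneg_right h4 hnn))) (le_of_eq ?_)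
  ring

open Classical in
/-- the block `i₀` has the pattern of `splitSet` -/
noncomputable def splitEv (q : ℕ) (i₀ : I) (l : ℕ) [Fact l.Prime] :
    Finset ((Σ i, Fin (g i)) → ZMod l) :=
  blocks g (fun i => if i = i₀ then splitSet l q (g i) else Finset.univ)

open Classical in
/-- the block `i₀` has the pattern of `flipSet` -/
noncomputable def flipEv (q : ℕ) (i₀ : I) (l : ℕ) [Fact l.Prime] :
    Finset ((Σ i, Fin (g i)) → ZMod l) :=
  blocks g (fun i => if i = i₀ then flipSet l q (g i) else Finset.univ)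

theorem splitEv_lower (q : ℕ) (i₀ : I) (l : ℕ) [Fact l.Prime]
    (hl : ∀ i, 4 * g i + 12 ≤ l) (hlq : ¬ l ∣ q) :
    l ^ (∑ i, g i) ≤ (∏ i, 4 ^ g i * (g i).factorial) * (splitEv g q i₀ l).card := by
  classical
  unfold splitEv
  rw [card_blocks, ← Finset.prod_mul_distrib, ← Finset.prod_pow_eq_pow_sum]
  refine Finset.prod_le_prod' fun i _ => ?_
  split_ifs with h
  · exact splitSet_lower l q (g i) (hl i) hlq
  · rw [Finset.card_univ, Fintype.card_fun, ZMod.card, Fintype.card_fin]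
    exact Nat.le_mul_of_pos_left _ (by positivity)

theorem flipEv_lower (hg : ∀ i, 0 < g i) (q : ℕ) (i₀ : I) (l : ℕ) [Fact l.Prime]
    (hl : ∀ i, 4 * g i + 12 ≤ l) (hlq : ¬ l ∣ q) :
    l ^ (∑ i, g i) ≤ (∏ i, 4 ^ g i * (g i).factorial) * (flipEv g q i₀ l).card := by
  classical
  unfold flipEv
  rw [card_blocks, ← Finset.prod_mul_distrib, ← Finset.prod_pow_eq_pow_sum]
  refine Finset.prod_le_prod' fun i _ => ?_
  split_ifs with h
  · exact flipSet_lower l q (g i) (hg i) (hl i) hlq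
  · rw [Finset.card_univ, Fintype.card_fun, ZMod.card, Fintype.card_fin]
    exact Nat.le_mul_of_pos_left _ (by positivity)

omit [Fintype I] in
theorem map_polys (l : ℕ) (x : (Σ i, Fin (g i)) → ℤ) (i : I) :
    (polys g x i).map (Int.castRingHom (ZMod l)) =
      mkPoly (g i) (fun k => ((x ⟨i, k⟩ : ℤ) : ZMod l)) := by
  unfold polys
  rw [map_mkPoly]
  rfl

theorem split1_of_mem (q : ℕ) (i₀ : I) (l : ℕ) [Fact l.Prime]
    (x : (Σ i, Fin (g i)) → ℤ) (hx : red l x ∈ splitEv g q i₀ l) :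
    Split1 q (polys g x i₀) l := by
  classical
  unfold splitEv at hx
  rw [mem_blocks] at hx
  have h0 := hx i₀
  rw [if_pos rfl] at h0
  obtain ⟨T, hT, hv⟩ := Finset.mem_image.1 h0
  obtain ⟨h3, h4⟩ := Finset.mem_powersetCard.1 hT
  refine ⟨T, ?_, fun t ht => (mem_SS l q t).1 (h3 ht)⟩
  rw [map_polys, ← mkPoly_vec l T h4, hv]
  rfl

theorem flip1_of_mem (hg : ∀ i, 0 < g i) (q : ℕ) (i₀ : I) (l : ℕ) [Fact l.Prime]
    (x : (Σ i, Fin (g i)) → ℤ) (hx : red l x ∈ flipEv g q i₀ l) :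
    Flip1 q (polys g x i₀) l := by
  classical
  unfold flipEv at hx
  rw [mem_blocks] at hx
  have h0 := hx i₀
  rw [if_pos rfl] at h0
  obtain ⟨T₀, hT₀, hv₀⟩ := Finset.mem_image.1 h0
  obtain ⟨t₀, ht₀, T', hT', -, htT', hins, hcard⟩ := mem_flipFam l q (hg i₀) T₀ hT₀
  refine ⟨T₀, t₀, ?_, (mem_NN l q t₀).1 ht₀, ?_, ?_⟩
  · simp [hins]
  · rw [map_polys, ← mkPoly_vec l T₀ hcard, hv₀]
    rfl
  · intro t ht hne
    rw [hins, Finset.mem_insert] at ht
    rcases ht with e | e
    · exact absurd e hne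
    · exact (mem_SS l q t).1 (hT' e)

/-- the field `F` is generated by an eigenvalue -/
def TrA (i₀ : I) (F : IntermediateField ℚ ℂ) (q : ℕ) (x : (Σ i, Fin (g i)) → ℤ) : Prop :=
  Irreducible ((polys g x i₀).map (Int.castRingHom ℚ)) ∧
    ∃ z : ℂ, aeval z (weil q (polys g x i₀)) = 0 ∧ IntermediateField.adjoin ℚ {z} = F

/-- the field `F` is generated by a trace -/
def TrT (i₀ : I) (F : IntermediateField ℚ ℂ) (x : (Σ i, Fin (g i)) → ℤ) : Prop :=
  Irreducible ((polys g x i₀).map (Int.castRingHom ℚ)) ∧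
    ∃ z : ℂ, aeval z (polys g x i₀) = 0 ∧ IntermediateField.adjoin ℚ {z} = F

theorem rare_trA (hg : ∀ i, 0 < g i) (i₀ : I) :
    RareFor g (fun F q x => ¬ TrA g i₀ F q x) := by
  classical
  have hpos : 0 < (∏ i, 4 ^ g i * (g i).factorial : ℕ) := Finset.prod_pos fun i _ => by positivity
  set cF : ℝ := 1 / (∏ i, 4 ^ g i * (g i).factorial : ℕ) with hcF
  have hcFpos : 0 < cF := by positivity
  set l₀ : ℕ := ∑ i, (4 * g i + 12) + 3 with hl₀
  have hl₀' : ∀ i l, l₀ ≤ l → 4 * g i + 12 ≤ l := by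
    intro i l hl
    have := Finset.single_le_sum (f := fun i => 4 * g i + 12) (fun j _ => Nat.zero_le _)
      (Finset.mem_univ i)
    omega
  let Ω : IntermediateField ℚ ℂ → ℕ → ∀ l : ℕ, Finset ((Σ i, Fin (g i)) → ZMod l) := fun F q l =>
    if h : l.Prime then
      (haveI := Fact.mk h
       if ∃ x', TrA g i₀ F q x' ∧ Flip1 q (polys g x' i₀) l then splitEv g q i₀ l
       else flipEv g q i₀ l)
    else ∅
  refine trap_count g cF hcFpos l₀ Ω ?_ _ ?_
  · intro F q l hl hl0 hlq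
    have : Fact l.Prime := ⟨hl⟩
    have h2 : Ω F q l = if ∃ x', TrA g i₀ F q x' ∧ Flip1 q (polys g x' i₀) l then splitEv g q i₀ l
       else flipEv g q i₀ l := dif_pos hl
    rw [h2, hcF, one_div, inv_mul_le_iff₀ (by exact_mod_cast hpos)]
    split_ifs with h3
    · exact_mod_cast splitEv_lower g q i₀ l (fun j => hl₀' j l hl0) hlq
    · exact_mod_cast flipEv_lower g hg q i₀ l (fun j => hl₀' j l hl0) hlq
  · intro F q x hx l hl hl0 hlq hmem
    rw [not_not] at hx
    have : Fact l.Prime := ⟨hl⟩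
    have h2 : Ω F q l = if ∃ x', TrA g i₀ F q x' ∧ Flip1 q (polys g x' i₀) l then splitEv g q i₀ l
       else flipEv g q i₀ l := dif_pos hl
    rw [h2] at hmem
    split_ifs at hmem with h3
    · obtain ⟨x', hx', hflip⟩ := h3
      obtain ⟨hirr, z, hz, hzF⟩ := hx
      obtain ⟨hirr', z', hz', hzF'⟩ := hx'
      refine trap_flip (mkPoly_monic (g i₀) _) (mkPoly_monic (g i₀) _) hirr' hirr hl (by omega) hlq
        hflip (split1_of_mem g q i₀ l x hmem) z' z hz' hz ?_
      rw [hzF, ← hzF']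
      exact IntermediateField.mem_adjoin_simple_self ℚ z'
    · exact h3 ⟨x, hx, flip1_of_mem g hg q i₀ l x hmem⟩

theorem rare_trT (hg : ∀ i, 0 < g i) (i₀ : I) (h3 : 3 ≤ g i₀) :
    RareFor g (fun F _ x => ¬ TrT g i₀ F x) := by
  classical
  have hpos : 0 < (∏ i, (2 * g i * (2 ^ g i * (g i).factorial)) : ℕ) :=
    Finset.prod_pos fun i _ => by have := hg i; positivity
  set cF : ℝ := 1 / (∏ i, (2 * g i * (2 ^ g i * (g i).factorial)) : ℕ) with hcF
  have hcFpos : 0 < cF := by positivity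
  set l₀ : ℕ := ∑ i, (4 * g i + 12) + 3 with hl₀
  have hl₀' : ∀ i l, l₀ ≤ l → 4 * g i + 12 ≤ l := by
    intro i l hl
    have := Finset.single_le_sum (f := fun i => 4 * g i + 12) (fun j _ => Nat.zero_le _)
      (Finset.mem_univ i)
    omega
  let Ω : IntermediateField ℚ ℂ → ℕ → ∀ l : ℕ, Finset ((Σ i, Fin (g i)) → ZMod l) := fun F _ l =>
    if h : l.Prime then
      (haveI := Fact.mk h
       if ∃ x', TrT g i₀ F x' ∧ CycPat (polys g x' i₀) l 0 then cycEvent g i₀ 1 l
       else cycEvent g i₀ 0 l)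
    else ∅
  refine trap_count g cF hcFpos l₀ Ω ?_ _ ?_
  · intro F q l hl hl0 hlq
    have : Fact l.Prime := ⟨hl⟩
    have h2 : Ω F q l = if ∃ x', TrT g i₀ F x' ∧ CycPat (polys g x' i₀) l 0 then
      cycEvent g i₀ 1 l else cycEvent g i₀ 0 l := dif_pos hl
    rw [h2, hcF, one_div, inv_mul_le_iff₀ (by exact_mod_cast hpos)]
    split_ifs with h4
    · exact_mod_cast cycEvent_lower g hg i₀ 1 (by omega) l (fun j => hl₀' j l hl0)
    · exact_mod_cast cycEvent_lower g hg i₀ 0 (by omega) l (fun j => hl₀' j l hl0)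
  · intro F q x hx l hl hl0 hlq hmem
    rw [not_not] at hx
    have : Fact l.Prime := ⟨hl⟩
    have h2 : Ω F q l = if ∃ x', TrT g i₀ F x' ∧ CycPat (polys g x' i₀) l 0 then
      cycEvent g i₀ 1 l else cycEvent g i₀ 0 l := dif_pos hl
    rw [h2] at hmem
    split_ifs at hmem with h4
    · obtain ⟨x', hx', hpat⟩ := h4
      obtain ⟨hirr, z, hz, hzF⟩ := hx
      obtain ⟨hirr', z', hz', hzF'⟩ := hx'
      refine trap_cyc (mkPoly_monic (g i₀) _) (mkPoly_monic (g i₀) _) hirr hirr' hl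
        (by rw [mkPoly_natDegree]; omega) (pat_of_mem g i₀ 1 (by omega) l x hmem) hpat z z' hz hz' ?_
      rw [hzF, ← hzF']
      exact IntermediateField.mem_adjoin_simple_self ℚ z'
    · exact h4 ⟨x, hx, pat_of_mem g i₀ 0 (by omega) l x hmem⟩

end trap

/-- **The criterion.** -/
theorem noRoot_low {h : ℤ[X]} {q : ℕ} (hm : h.Monic) (hq : q ≠ 0)
    (hirr : Irreducible (h.map (Int.castRingHom ℚ)))
    (E : IntermediateField ℚ ℂ) [Normal ℚ E] [FiniteDimensional ℚ E] (d : ℕ)
    (hd : d ≤ h.natDegree) (h35 : h.natDegree = 3 ∨ 5 ≤ h.natDegree)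
    (hpat : FullPat Set.univ h) (hE : ∀ z : ℂ, aeval z h = 0 → z ∉ E)
    (z : ℂ) (hz : aeval z (weil q h) = 0) :
    z ∉ lowField E d := by
  classical
  have hE' := (galois' E inferInstance).to_normal
  have hgal : gal E = E := IntermediateField.normalClosure_of_normal E
  have hfin : Fintype (Rt h) := @Fintype.ofFinite _ (finite_rt hm)
  have hcard : Fintype.card (Rt h) = h.natDegree := card_rt hm hirr
  have h3 : 3 ≤ Fintype.card (Rt h) := by omega
  -- a number field with all roots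
  have hint : ∀ y : (h.map (algebraMap ℤ ℂ)).roots.toFinset, IsIntegral ℚ (y : ℂ) := by
    rintro ⟨y, hy⟩
    have h3 := (mem_roots'.1 (Multiset.mem_toFinset.1 hy)).2
    rw [IsRoot.def, eval_map] at h3
    have h4 : IsIntegral ℤ y := ⟨h, hm, h3⟩
    exact h4.tower_top
  obtain ⟨L, hL1, hL2, j, hj⟩ := Pool.Agent.W484.AA.exists_galois_of_rat
    (fun y : (h.map (algebraMap ℤ ℂ)).roots.toFinset => (y : ℂ)) hint
  obtain ⟨jA, hjA⟩ := exists_jA j
  have hL : ∀ y : AA, aeval y h = 0 → ∃ x : L, jA x = y := by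
    intro y hy
    have h1 : aeval ((y : AA) : ℂ) h = 0 := by
      have h2 := aeval_algebraMap_apply ℂ y h
      rw [hy, map_zero] at h2
      exact h2
    obtain ⟨x, hx⟩ := hj ⟨(y : ℂ), by
      rw [Multiset.mem_toFinset, mem_roots ((hm.map _).ne_zero), IsRoot.def, eval_map]
      exact h1⟩
    exact ⟨x, Subtype.ext ((hjA x).trans hx)⟩
  obtain ⟨⟨l0, hl0, -, hp0⟩, ⟨l1, hl1, -, hp1⟩, ⟨l2, hl2, -, hp2⟩⟩ := hpat
  have htop : (permRt h).range = ⊤ :=
    top_of_cyc _ h3 (exists_cyc_top hm hirr jA hL hl0 hp0) (exists_cyc_top hm hirr jA hL hl1 hp1)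
      (by
        rw [hcard]
        exact exists_cyc_top hm hirr jA hL hl2 hp2)
  have hsurj : Function.Surjective (permRt h) := MonoidHom.range_eq_top.1 htop
  have hNorm : ((Gam E).map (permRt h)).Normal := (gam_normal E).map _ hsurj
  -- the image is not trivial
  have hcl : IsAlgClosure ℚ AA := algebraicClosure.isAlgClosure ℚ ℂ
  have hN : Normal ℚ AA := IsAlgClosure.normal ℚ AA
  have hGal : IsGalois ℚ AA := ⟨⟩
  have hnt : ∃ s ∈ Gam E, permRt h s ≠ 1 := by
    by_contra hcon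
    push Not at hcon
    have hne : Nonempty (Rt h) := Fintype.card_pos_iff.1 (by omega)
    obtain ⟨y⟩ := hne
    have hEA : E ≤ AA := by
      intro w hw
      rw [mem_algebraicClosure_iff]
      have h1 : IsAlgebraic ℚ (⟨w, hw⟩ : E) := Algebra.IsAlgebraic.isAlgebraic _
      exact h1.algebraMap (A := ℂ)
    have h1 : y.1 ∈ IntermediateField.fixedField
        (IntermediateField.restrict hEA).fixingSubgroup := by
      rw [IntermediateField.mem_fixedField_iff]
      intro s hs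
      have hsG : s ∈ Gam E := by
        intro w hw
        rw [hgal] at hw
        exact (IntermediateField.mem_fixingSubgroup_iff _ s).1 hs w
          ((IntermediateField.mem_restrict hEA w).2 hw)
      have h2 := congrArg (fun π : Equiv.Perm (Rt h) => (π y).1) (hcon s hsG)
      exact h2
    rw [InfiniteGalois.fixedField_fixingSubgroup] at h1
    refine hE (y.1 : ℂ) ?_ ((IntermediateField.mem_restrict hEA y.1).1 h1)
    have h2 := aeval_algebraMap_apply ℂ y.1 h
    rw [y.2, map_zero] at h2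
    exact h2
  obtain ⟨s, hs, hs1⟩ := hnt
  have halt := alt_le_of_normal _ hNorm (permRt h s) ⟨s, hs, rfl⟩ hs1 (by rw [hcard]; omega)
  intro hmem
  have h1 := lowField_le_fix E d
  rw [hgal] at h1
  exact noRoot_of_alt hm hq E d (by convert halt) (by rw [hcard]; exact hd) h3
    (fun h4 => by rw [hcard]; omega) z hz (h1 hmem)

end Pool.Agent.N205.SD
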