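import Mathlib
import Pool.Agent.N205.SD.Unif

/-!
# The count in Newton strata with a parameter
-/

set_option autoImplicit false

namespace Pool.Agent.N205.SD

open Polynomial Pool.Agent.W521.Frob Pool.Agent.W521.Lower Pool.Agent.W521.Descent
  Pool.Agent.W521.Density Pool.Agent.W521.Count Pool.Agent.W521.Turan Pool.Agent.W521.Sieve
  Pool.Agent.W521.Bad Pool.Agent.W521.Total Pool.Agent.W484.TB Pool.Agent.N205.NS

section

variable {I : Type} [Fintype I] (g : I → ℕ) {J : Type}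
  (G : J → ℕ → ((Σ i, Fin (g i)) → ℤ) → Prop)

theorem main_count_for (hG : RareFor g G) (hg : ∀ i, 0 < g i) :
    ∃ C : ℝ, 0 < C ∧ ∀ (j : J) (p a t : ℕ), p.Prime → 0 < t →
    (∀ i, (2 : ℝ) ^ g i ≤ Real.sqrt p ^ t) →
    ∀ (m : I → ℕ → ℕ) (T : I → ℕ → Prop), (∀ i, IsData a (g i) (m i) (T i)) → Room g m a t →
    ∀ P : (I → ℤ[X]) → Prop, (∀ x, G j (p ^ a) x → P (fun i => weil (p ^ a) (polys g x i))) →
    ({f : I → ℤ[X] | (∀ i, f i ∈ Closed p a (g i) (m i)) ∧ ¬ P f}.ncard : ℝ) ≤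
      C * rate (p ^ t) * ∏ i, ((Open p a (g i) (m i) (T i)).ncard : ℝ) := by
  classical
  obtain ⟨C, hC, hbad⟩ := hG
  have hK : 0 < ∏ i, ((3 * 4 ^ g i) ^ g i * (4 ^ g i * 2 ^ (g i ^ 2)) : ℝ) :=
    Finset.prod_pos fun i _ => by positivity
  refine ⟨C * ∏ i, ((3 * 4 ^ g i) ^ g i * (4 ^ g i * 2 ^ (g i ^ 2))), mul_pos hC hK, ?_⟩
  intro j p a t hp ht htl m T hD hR P hP
  let F : ((Σ i, Fin (g i)) → ℤ) → (I → ℤ[X]) := fun y i => weil (p ^ a) (polys g (xx g m p y) i)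
  have hsub : {f : I → ℤ[X] | (∀ i, f i ∈ Closed p a (g i) (m i)) ∧ ¬ P f} ⊆
      F '' (((box (nlo g m p a) (nlen g m p a)).filter
        (fun y => ¬ G j (p ^ a) (xx g m p y)) : Finset _) : Set _) := by
    rintro f ⟨hf, hPf⟩
    choose y hy hyb using fun i => exists_point_closed hp (hD i) (hf i)
    have hfx : f = F (fun s => y s.1 s.2) := by
      funext i
      exact hy i
    refine ⟨fun s => y s.1 s.2, ?_, hfx.symm⟩
    rw [Finset.mem_coe, Finset.mem_filter]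
    constructor
    · unfold box
      rw [Fintype.mem_piFinset]
      intro s
      rw [Finset.mem_Ico]
      have h1 := abs_le.1 (hyb s.1 s.2)
      have h2 : (hs g m p a s : ℤ) =
        ((bd (p ^ a) (g s.1) s.2 / p ^ m s.1 (g s.1 - (s.2 : ℕ)) : ℕ) : ℤ) := rfl
      rw [← h2] at h1
      unfold nlo nlen
      push_cast
      omega
    · intro hgood
      apply hPf
      rw [hfx]
      exact hP _ hgood
  have h1 := Set.ncard_le_ncard hsub ((Finset.finite_toSet _).image _)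
  have h2 := h1.trans (Set.ncard_image_le (Finset.finite_toSet _))
  rw [Set.ncard_coe_finset] at h2
  have h3 := hbad j p a t m hp ht hR
  have h4 : ({f : I → ℤ[X] | (∀ i, f i ∈ Closed p a (g i) (m i)) ∧ ¬ P f}.ncard : ℝ) ≤
      (((box (nlo g m p a) (nlen g m p a)).filter
        (fun y => ¬ G j (p ^ a) (xx g m p y))).card : ℝ) := by
    exact_mod_cast h2
  calc ({f : I → ℤ[X] | (∀ i, f i ∈ Closed p a (g i) (m i)) ∧ ¬ P f}.ncard : ℝ) ≤
      C * rate (p ^ t) * ∏ s, (nlen g m p a s : ℝ) := h4.trans h3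
    _ ≤ C * rate (p ^ t) * ((∏ i, ((3 * 4 ^ g i) ^ g i * (4 ^ g i * 2 ^ (g i ^ 2)))) *
      ∏ i, ((Open p a (g i) (m i) (T i)).ncard : ℝ)) :=
        mul_le_mul_of_nonneg_left (prod_nlen_le g hp hg hD hR htl)
          (mul_nonneg hC.le (rate_nonneg _))
    _ = _ := by ring

end

/-- **The count in Newton strata.** -/
theorem newton_count_for {I : Type} [Fintype I]
    (g : I → ℕ) {J : Type} (G : J → ℕ → ((Σ i, Fin (g i)) → ℤ) → Prop) (hG : RareFor g G) (hg : ∀ i, 0 < g i) :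
    ∃ C : ℝ, ∀ (j : J) (p a t : ℕ), p.Prime → 0 < t →
    ∀ (m : I → ℕ → ℕ) (T : I → ℕ → Prop), (∀ i, IsData a (g i) (m i) (T i)) → Room g m a t →
    ∀ P : (I → ℤ[X]) → Prop, (∀ x, G j (p ^ a) x → P (fun i => weil (p ^ a) (polys g x i))) →
    ∀ S : I → Set ℤ[X],
      (∀ i, Open p a (g i) (m i) (T i) ⊆ S i ∧ S i ⊆ Closed p a (g i) (m i)) →
      (∀ i, (S i).Finite ∧ (4 ^ g i ≤ p ^ t → (S i).Nonempty)) ∧
      ({f : I → ℤ[X] | (∀ i, f i ∈ S i) ∧ ¬ P f}.ncard : ℝ) ≤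
        C * (Real.log ((p ^ t : ℕ) : ℝ) * ((p ^ t : ℕ) : ℝ) ^ (-(1 / 6) : ℝ)) *
          ∏ i, ((S i).ncard : ℝ) := by
  classical
  obtain ⟨C, hC, h⟩ := main_count_for g G hG hg
  -- the bound on `p ^ t`
  set Q : ℕ := ∏ i, 4 ^ g i with hQ
  have hQpos : 0 < Q := Finset.prod_pos fun i _ => by positivity
  have hQi : ∀ i, 4 ^ g i ≤ Q := by
    intro i
    exact Finset.single_le_prod' (f := fun i => 4 ^ g i) (fun j _ => Nat.one_le_pow _ _ (by norm_num))
      (Finset.mem_univ i)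
  set c₀ : ℝ := Real.log 2 * (Q : ℝ) ^ (-(1 / 6) : ℝ) with hc₀
  have hQr : (0 : ℝ) < Q := by exact_mod_cast hQpos
  have hc₀pos : 0 < c₀ := mul_pos (Real.log_pos (by norm_num)) (Real.rpow_pos_of_pos hQr _)
  refine ⟨C + 1 / c₀, ?_⟩
  intro k p a t hp ht m T hD hR P hP S hS
  have hfinS : ∀ i, (S i).Finite := fun i => (finite_closed hp a (g i) (m i)).subset (hS i).2
  have hsq : ∀ i, 4 ^ g i ≤ p ^ t → (2 : ℝ) ^ g i ≤ Real.sqrt p ^ t := by
    intro i hi
    rw [← sqrt_pow_nat]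
    apply Real.le_sqrt_of_sq_le
    rw [← pow_mul, mul_comm, pow_mul]
    norm_num
    exact_mod_cast hi
  have hr : 0 ≤ Real.log ((p ^ t : ℕ) : ℝ) * ((p ^ t : ℕ) : ℝ) ^ (-(1 / 6) : ℝ) := rate_nonneg _
  have hprod : (0 : ℝ) ≤ ∏ i, ((S i).ncard : ℝ) := Finset.prod_nonneg fun i _ => Nat.cast_nonneg _
  refine ⟨fun i => ⟨hfinS i, fun hi => ?_⟩, ?_⟩
  · have h1 := open_lower hp (hg i) (hD i) (hR i) (hsq i hi)
    have h2 : 0 < (Open p a (g i) (m i) (T i)).ncard := by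
      by_contra hcon
      have h3 : (Open p a (g i) (m i) (T i)).ncard = 0 := by omega
      rw [h3] at h1
      have := h1.1
      have := h1.2
      simp only [Nat.cast_zero, mul_zero] at this
      linarith
    exact ((Set.ncard_pos (finite_open hp a (g i) (m i) (T i))).1 h2).mono (hS i).1
  · rcases Nat.lt_or_ge (p ^ t) Q with hlt | hge
    · -- the trivial bound
      have h1 : {f : I → ℤ[X] | (∀ i, f i ∈ S i) ∧ ¬ P f} ⊆ Set.pi Set.univ S :=
        fun f hf i _ => hf.1 i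
      have hfin : (Set.pi Set.univ S).Finite := Set.Finite.pi fun i => hfinS i
      have h2 := Set.ncard_le_ncard h1 hfin
      have h3 : (Set.pi Set.univ S).ncard = ∏ i, (S i).ncard := by
        have h4 : Set.pi Set.univ S = ((Fintype.piFinset fun i => (hfinS i).toFinset :
            Finset (I → ℤ[X])) : Set (I → ℤ[X])) := by
          ext f
          simp
        rw [h4, Set.ncard_coe_finset, Fintype.card_piFinset]
        refine Finset.prod_congr rfl fun i _ => ?_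
        rw [Set.ncard_eq_toFinset_card _ (hfinS i)]
      rw [h3] at h2
      have h4 : ({f : I → ℤ[X] | (∀ i, f i ∈ S i) ∧ ¬ P f}.ncard : ℝ) ≤
          ∏ i, ((S i).ncard : ℝ) := by exact_mod_cast h2
      have h2t : 2 ≤ p ^ t := hp.two_le.trans (Nat.le_self_pow ht.ne' p)
      have h2t' : (2 : ℝ) ≤ ((p ^ t : ℕ) : ℝ) := by exact_mod_cast h2t
      have h5 : c₀ ≤ Real.log ((p ^ t : ℕ) : ℝ) * ((p ^ t : ℕ) : ℝ) ^ (-(1 / 6) : ℝ) := by
        rw [hc₀]
        refine mul_le_mul ?_ ?_ (Real.rpow_nonneg hQr.le _) (Real.log_nonneg (by linarith))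
        · exact Real.log_le_log (by norm_num) h2t'
        · apply Real.rpow_le_rpow_of_nonpos (by linarith)
          · exact_mod_cast hlt.le
          · norm_num
      have h6 : 1 ≤ (1 / c₀) *
          (Real.log ((p ^ t : ℕ) : ℝ) * ((p ^ t : ℕ) : ℝ) ^ (-(1 / 6) : ℝ)) := by
        rw [one_div, le_inv_mul_iff₀ hc₀pos, mul_one]
        exact h5
      have h7 : 1 ≤ (C + 1 / c₀) *
          (Real.log ((p ^ t : ℕ) : ℝ) * ((p ^ t : ℕ) : ℝ) ^ (-(1 / 6) : ℝ)) := by
        rw [add_mul]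
        have := mul_nonneg hC.le hr
        linarith
      exact h4.trans (le_mul_of_one_le_left hprod h7)
    · have htl : ∀ i, (2 : ℝ) ^ g i ≤ Real.sqrt p ^ t := fun i => hsq i ((hQi i).trans hge)
      have h1 := h k p a t hp ht htl m T hD hR P hP
      have hfin : {f : I → ℤ[X] | (∀ i, f i ∈ Closed p a (g i) (m i)) ∧ ¬ P f}.Finite :=
        (Pool.Agent.W521.Total.finite_tuples g (pow_ne_zero a hp.ne_zero)).subset
          fun f hf i => (hf.1 i).1
      have h2 : {f : I → ℤ[X] | (∀ i, f i ∈ S i) ∧ ¬ P f}.ncard ≤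
          {f : I → ℤ[X] | (∀ i, f i ∈ Closed p a (g i) (m i)) ∧ ¬ P f}.ncard :=
        Set.ncard_le_ncard (fun f hf => ⟨fun i => (hS i).2 (hf.1 i), hf.2⟩) hfin
      calc ({f : I → ℤ[X] | (∀ i, f i ∈ S i) ∧ ¬ P f}.ncard : ℝ) ≤ _ := by
            exact_mod_cast h2
        _ ≤ C * (Real.log ((p ^ t : ℕ) : ℝ) * ((p ^ t : ℕ) : ℝ) ^ (-(1 / 6) : ℝ)) *
              ∏ i, ((Open p a (g i) (m i) (T i)).ncard : ℝ) := h1
        _ ≤ C * (Real.log ((p ^ t : ℕ) : ℝ) * ((p ^ t : ℕ) : ℝ) ^ (-(1 / 6) : ℝ)) *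
              ∏ i, ((S i).ncard : ℝ) := by
            refine mul_le_mul_of_nonneg_left ?_ (mul_nonneg hC.le hr)
            refine Finset.prod_le_prod (fun i _ => Nat.cast_nonneg _) fun i _ => ?_
            exact_mod_cast Set.ncard_le_ncard (hS i).1 (hfinS i)
        _ ≤ _ := by
            refine mul_le_mul_of_nonneg_right ?_ hprod
            refine mul_le_mul_of_nonneg_right ?_ hr
            have : 0 < 1 / c₀ := by positivity
            linarith


/-- **The count.** -/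
theorem strata_count_for {I : Type} [Fintype I]
    (g : I → ℕ) {J : Type} (G : J → ℕ → ((Σ i, Fin (g i)) → ℤ) → Prop) (hG : RareFor g G)
    (hg : ∀ i, 0 < g i) (P : J → ℕ → (I → ℤ[X]) → Prop)
    (hP : ∀ j, ∀ q : ℕ, IsPrimePow q → ∀ x : (Σ i, Fin (g i)) → ℤ,
      G j q x → P j q (fun i => weil q (polys g x i))) :
    ∃ C : ℝ, ∀ j, ∀ p a t : ℕ, p.Prime → 0 < a → 0 < t → ∀ S : I → Set ℤ[X],
      (∀ i, IsStratum p a (g i) t (S i)) →
      (∀ i, (S i).Finite ∧ (4 ^ g i ≤ p ^ t → (S i).Nonempty)) ∧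
      ({f : I → ℤ[X] | (∀ i, f i ∈ S i) ∧ ¬ P j (p ^ a) f}.ncard : ℝ) ≤
        C * (Real.log ((p ^ t : ℕ) : ℝ) * ((p ^ t : ℕ) : ℝ) ^ (-(1 / 6) : ℝ)) *
          ∏ i, ((S i).ncard : ℝ) := by
  obtain ⟨C, hC⟩ := newton_count_for g G hG hg
  refine ⟨C, fun j p a t hp ha ht S hS => ?_⟩
  choose m T hD hR hS1 hS2 using hS
  exact hC j p a t hp ht m T hD (fun i j => hR i j) (P j (p ^ a))
    (fun x hx => hP j _ (hp.isPrimePow.pow ha.ne') x hx) S (fun i => ⟨hS1 i, hS2 i⟩)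



theorem rareFor_and {I : Type} [Fintype I] {g : I → ℕ} {J : Type}
    {G G' : J → ℕ → ((Σ i, Fin (g i)) → ℤ) → Prop}
    (h : RareFor g G) (h' : RareFor g G') : RareFor g (fun j q x => G j q x ∧ G' j q x) := by
  classical
  obtain ⟨C, hC, h1⟩ := h
  obtain ⟨C', hC', h2⟩ := h'
  refine ⟨C + C', by linarith, ?_⟩
  intro j p a t m hp ht hR
  have e1 := h1 j p a t m hp ht hR
  have e2 := h2 j p a t m hp ht hR
  have h3 : ((box (nlo g m p a) (nlen g m p a)).filter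
      (fun y => ¬ (G j (p ^ a) (xx g m p y) ∧ G' j (p ^ a) (xx g m p y)))) ⊆
      ((box (nlo g m p a) (nlen g m p a)).filter (fun y => ¬ G j (p ^ a) (xx g m p y))) ∪
      ((box (nlo g m p a) (nlen g m p a)).filter (fun y => ¬ G' j (p ^ a) (xx g m p y))) := by
    intro y hy
    obtain ⟨hy1, hy2⟩ := Finset.mem_filter.1 hy
    rw [Finset.mem_union, Finset.mem_filter, Finset.mem_filter]
    by_cases h4 : G j (p ^ a) (xx g m p y)
    · exact Or.inr ⟨hy1, fun h5 => hy2 ⟨h4, h5⟩⟩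
    · exact Or.inl ⟨hy1, h4⟩
  have h4 := (Finset.card_le_card h3).trans (Finset.card_union_le _ _)
  have h5 : (((box (nlo g m p a) (nlen g m p a)).filter
      (fun y => ¬ (G j (p ^ a) (xx g m p y) ∧ G' j (p ^ a) (xx g m p y)))).card : ℝ) ≤
      (((box (nlo g m p a) (nlen g m p a)).filter
        (fun y => ¬ G j (p ^ a) (xx g m p y))).card : ℝ) +
      (((box (nlo g m p a) (nlen g m p a)).filter
        (fun y => ¬ G' j (p ^ a) (xx g m p y))).card : ℝ) := by
    exact_mod_cast h4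
  have h6 := h5.trans (add_le_add e1 e2)
  rw [← add_mul, ← add_mul] at h6
  refine le_trans (le_of_eq ?_) h6
  congr!

theorem rareFor_of_rare {I : Type} [Fintype I] {g : I → ℕ} {J : Type}
    {G : ℕ → ((Σ i, Fin (g i)) → ℤ) → Prop} (h : Rare g G) :
    RareFor g (J := J) (fun _ q x => G q x) := by
  obtain ⟨C, hC, h1⟩ := h
  exact ⟨C, hC, fun _ p a t m hp ht hR => h1 p a t m hp ht hR⟩

theorem rareFor_all {I K : Type} [Fintype I] [Fintype K] {g : I → ℕ} {J : Type}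
    {G : K → J → ℕ → ((Σ i, Fin (g i)) → ℤ) → Prop} (h : ∀ k, RareFor g (G k)) :
    RareFor g (fun j q x => ∀ k, G k j q x) := by
  classical
  have key : ∀ S : Finset K, RareFor g (fun j q x => ∀ k ∈ S, G k j q x) := by
    intro S
    induction S using Finset.induction_on with
    | empty =>
      exact rareFor_of_rare (G := fun q x => ∀ k ∈ (∅ : Finset K), True) (rare_true fun q x k hk =>
        absurd hk (Finset.notMem_empty k)) |> fun h => by simpa using h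
    | insert k S hk ih =>
      have h1 := rareFor_and (h k) ih
      simpa only [Finset.forall_mem_insert] using h1
  simpa only [Finset.mem_univ, true_imp_iff] using key Finset.univ

theorem RareFor.mono {I : Type} [Fintype I] {g : I → ℕ} {J : Type}
    {G G' : J → ℕ → ((Σ i, Fin (g i)) → ℤ) → Prop} (h : RareFor g G)
    (hGG : ∀ j q x, q ≠ 0 → G j q x → G' j q x) : RareFor g G' := by
  classical
  obtain ⟨C, hC, h1⟩ := h
  refine ⟨C, hC, fun j p a t m hp ht hR => ?_⟩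
  refine le_trans ?_ (h1 j p a t m hp ht hR)
  have h2 : ((box (nlo g m p a) (nlen g m p a)).filter
      (fun y => ¬ G' j (p ^ a) (xx g m p y))) ⊆
      ((box (nlo g m p a) (nlen g m p a)).filter (fun y => ¬ G j (p ^ a) (xx g m p y))) := by
    intro y hy
    obtain ⟨hy1, hy2⟩ := Finset.mem_filter.1 hy
    exact Finset.mem_filter.2 ⟨hy1, fun h3 => hy2 (hGG j _ _ (pow_ne_zero a hp.ne_zero) h3)⟩
  exact_mod_cast Finset.card_le_card h2

end Pool.Agent.N205.SD
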