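import Mathlib
import Pool.Agent.N205.SD.Pair

/-!
# The hypothesis of the theorems of the following files
-/

set_option autoImplicit false

namespace Pool.Agent.N205.SD

open Polynomial Pool.Agent.W521.Frob Pool.Agent.W521.Bad Pool.Agent.W521.Descent
  Pool.Agent.W521.Density

/-- good points for the field `E` and the number `r` -/
structure GoodP {I : Type} (E : IntermediateField ℚ ℂ) (g : I → ℕ) (q r : ℕ)
    (x : (Σ i, Fin (g i)) → ℤ) : Prop where
  good : Good g q x
  pair : PairProp E g q r x

end Pool.Agent.N205.SD
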