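import Mathlib
import Pool.Agent.N205.SD.Defs2
import Pool.Agent.N205.SD.Nrm

/-!
# Splitting fields; the facts on the fields of the theorem
-/

set_option autoImplicit false

namespace Pool.Agent.N205.SD

open Polynomial

theorem split_gen {K L : Type*} [Field K] [Field L] [Algebra K L] [IsAlgClosed L] [CharZero K]
    (P : K[X]) : ∃ E : IntermediateField K L, IsGalois K E ∧ FiniteDimensional K E ∧
      Module.finrank K E ≤ P.natDegree.factorial ∧ ∀ z : L, P ≠ 0 → aeval z P = 0 → z ∈ E := by
  classical
  have hsp : (P.map (algebraMap K L)).Splits := IsAlgClosed.splits _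
  have hE := IntermediateField.adjoin_rootSet_isSplittingField hsp
  set E : IntermediateField K L := IntermediateField.adjoin K (P.rootSet L) with hEdef
  have hfd : FiniteDimensional K E := IsSplittingField.finiteDimensional E P
  have hN : Normal K E := Normal.of_isSplittingField P
  have hG : IsGalois K E := ⟨⟩
  refine ⟨E, hG, hfd, ?_, ?_⟩
  · have h1 : Module.finrank K E = Nat.card P.Gal := by
      have e := IsSplittingField.algEquiv E P
      rw [e.toLinearEquiv.finrank_eq]
      have hG2 : IsGalois K P.SplittingField := ⟨⟩
      exact (IsGalois.card_aut_eq_finrank K P.SplittingField).symm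
    rw [h1]
    have : Fact ((P.map (algebraMap K L)).Splits) := ⟨hsp⟩
    have h2 := Nat.card_le_card_of_injective _ (Polynomial.Gal.galActionHom_injective P L)
    refine h2.trans ?_
    rw [Nat.card_perm]
    exact Nat.factorial_le (ncard_rootSet_le P L)
  · intro z hP hz
    exact IntermediateField.subset_adjoin _ _ ((mem_rootSet_of_ne hP).2 hz)

theorem splitFact : SplitFact := by
  intro P hP
  obtain ⟨E, h1, h2, h3, h4⟩ := split_gen (L := ℂ) P
  have h0 : E.algebra' = DivisionRing.toRatAlgebra := Subsingleton.elim _ _
  refine ⟨E, ?_, h2, h3, fun z hz => h4 z hP hz⟩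
  have h5 := h1.to_normal
  rw [h0] at h5
  exact h5

theorem fieldFacts : FieldFacts := ⟨lowFacts, splitFact⟩

end Pool.Agent.N205.SD
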