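import Mathlib
import Pool.Agent.N205.SD.For
import Pool.Agent.N205.SD.GoodP
import Pool.Agent.N205.SD.Split

/-!
# The main theorem, uniformly in the field
-/

set_option autoImplicit false

namespace Pool.Agent.N205.SD

open Polynomial Pool.Agent.W521.Frob Pool.Agent.W521.Descent Pool.Agent.W521.Density
  Pool.Agent.W521.Count Pool.Agent.W521.Turan Pool.Agent.W521.Total Pool.Agent.W521.Sieve
  Pool.Agent.W521.Bad Pool.Agent.W484.TB Pool.Agent.N205.NS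

theorem FullPat.mono {U V : Set ℕ} (h : U ⊆ V) {p : ℤ[X]} (hp : FullPat U p) : FullPat V p := by
  obtain ⟨⟨l0, hl0, hU0, hp0⟩, ⟨l1, hl1, hU1, hp1⟩, ⟨l2, hl2, hU2, hp2⟩⟩ := hp
  exact ⟨⟨l0, hl0, h hU0, hp0⟩, ⟨l1, hl1, h hU1, hp1⟩, ⟨l2, hl2, h hU2, hp2⟩⟩

theorem Rare.mono {I : Type} [Fintype I] {g : I → ℕ}
    {G G' : ℕ → ((Σ i, Fin (g i)) → ℤ) → Prop} (h : Rare g G)
    (hGG : ∀ q x, G q x → G' q x) : Rare g G' := by
  classical
  obtain ⟨C, hC, h1⟩ := h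
  refine ⟨C, hC, fun p a t m hp ht hR => ?_⟩
  refine le_trans ?_ (h1 p a t m hp ht hR)
  have h2 : ((box (nlo g m p a) (nlen g m p a)).filter
      (fun y => ¬ G' (p ^ a) (xx g m p y))) ⊆
      ((box (nlo g m p a) (nlen g m p a)).filter (fun y => ¬ G (p ^ a) (xx g m p y))) := by
    intro y hy
    obtain ⟨hy1, hy2⟩ := Finset.mem_filter.1 hy
    exact Finset.mem_filter.2 ⟨hy1, fun h3 => hy2 (hGG _ _ h3)⟩
  exact_mod_cast Finset.card_le_card h2

theorem rare_good {I : Type} [Fintype I] (g : I → ℕ) (hg : ∀ i, 0 < g i) (d : ℕ)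
    (hd : 3 ≤ d → ∀ i, 3 ≤ g i) :
    Rare g (fun q x => Good g q x ∧ (3 ≤ d → ∀ i, FullPat Set.univ (polys g x i))) := by
  refine (rare_goodS (splitPrimes (⊥ : IntermediateField ℚ ℂ))
    (dense_splitPrimes (⊥ : IntermediateField ℚ ℂ)) g hg d hd).mono ?_
  intro q x h3
  exact ⟨good_of_goodU h3.1, fun h4 i => (h3.2 h4 i).mono (Set.subset_univ _)⟩

/-- Almost all points have no eigenvalue in a given field of bounded degree. -/
theorem rare_noRoot {I : Type} [Fintype I] (g : I → ℕ) (hg : ∀ i, 0 < g i) (d : ℕ)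
    (hd : DimsU g d) (D : ℕ) :
    RareFor g (J := {E : IntermediateField ℚ ℂ // Normal ℚ E ∧ FiniteDimensional ℚ E ∧
      Module.finrank ℚ E ≤ D})
      (fun E q x => NoRoot (fun i => weil q (polys g x i)) (lowField E.1 d)) := by
  classical
  have h1 := rareFor_all fun i => rareFor_sub g D _ (rare_trA g hg i)
  rcases Nat.lt_or_ge d 3 with h | h
  · refine (rareFor_and h1 (rareFor_of_rare (rare_good g hg d fun h3 => by omega))).mono ?_
    rintro ⟨E, hE1, hE2, hE3⟩ q x hq ⟨hx1, hx2, -⟩ i z hz hmem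
    have hmem' : z ∈ E := by
      rw [lowField_eq E (by omega : d ≤ 2)] at hmem
      exact hmem
    exact hx1 i (IntermediateField.adjoin ℚ {z})
      (IntermediateField.adjoin_simple_le_iff.2 hmem') ⟨hx2.2.1 i, z, hz, rfl⟩
  · have h2 := rareFor_all fun i => rareFor_sub g D _ (rare_trT g hg i (h.trans (hd h i).1))
    refine (rareFor_and h2 (rareFor_of_rare (rare_good g hg d fun h3 i =>
      h3.trans (hd h3 i).1))).mono ?_
    rintro ⟨E, hE1, hE2, hE3⟩ q x hq ⟨hx1, hx2, hx3⟩ i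
    have hdeg : (polys g x i).natDegree = g i := mkPoly_natDegree (g i) _
    have hm : (polys g x i).Monic := mkPoly_monic (g i) _
    obtain ⟨h3, h4⟩ := hd h i
    refine noRoot_low hm hq (hx2.2.1 i) E d (by rw [hdeg]; exact h3) (by rw [hdeg]; exact h4)
      (hx3 h i) fun z hz hmem => ?_
    exact hx1 i (IntermediateField.adjoin ℚ {z})
      (IntermediateField.adjoin_simple_le_iff.2 hmem) ⟨hx2.2.1 i, z, hz, rfl⟩

/-- **The count.** -/
theorem every_unif {I : Type} [Fintype I] (g : I → ℕ) (hg : ∀ i, 0 < g i) (d : ℕ)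
    (hd : DimsU g d) (D : ℕ) (P : ℕ → (I → ℤ[X]) → IntermediateField ℚ ℂ → ℕ → Prop)
    (hP : ∀ q : ℕ, IsPrimePow q → ∀ (K : IntermediateField ℚ ℂ) (r : ℕ), (∀ i, r < g i) →
      ∀ x : (Σ i, Fin (g i)) → ℤ, GoodP K g q r x → P q (fun i => weil q (polys g x i)) K r) :
    ∃ C : ℝ, ∀ p a t : ℕ, p.Prime → 0 < a → 0 < t → ∀ S : I → Set ℤ[X],
      (∀ i, IsStratum p a (g i) t (S i)) →
      (∀ i, (S i).Finite ∧ (4 ^ g i ≤ p ^ t → (S i).Nonempty)) ∧
      ({f : I → ℤ[X] | (∀ i, f i ∈ S i) ∧ ¬ ForEveryField g f (P (p ^ a) f)}.ncard : ℝ) ≤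
        C * (Real.log ((p ^ t : ℕ) : ℝ) * ((p ^ t : ℕ) : ℝ) ^ (-(1 / 6) : ℝ)) *
          ∏ i, ((S i).ncard : ℝ) ∧
      ∀ E : IntermediateField ℚ ℂ, Normal ℚ E → FiniteDimensional ℚ E → Module.finrank ℚ E ≤ D →
        ({f : I → ℤ[X] | (∀ i, f i ∈ S i) ∧ ¬ NoRoot f (lowField E d)}.ncard : ℝ) ≤
          C * (Real.log ((p ^ t : ℕ) : ℝ) * ((p ^ t : ℕ) : ℝ) ^ (-(1 / 6) : ℝ)) *
            ∏ i, ((S i).ncard : ℝ) := by
  classical
  obtain ⟨C, hC⟩ := strata_count_for g (J := Unit) _ (rareFor_of_rare (rare_good g hg 0 (by omega)))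
    hg (fun _ q f => ForEveryField g f (P q f)) (by
      intro _ q hq x hx K hK hroots r hr
      exact hP q hq K r hr x ⟨hx.1,
        pairProp_normal g K hq.pos.ne' r hr x hx.1 fun i z hz => hroots i z hz⟩)
  obtain ⟨C', hC'⟩ := strata_count_for g _ (rare_noRoot g hg d hd D) hg
    (fun E _ f => NoRoot f (lowField E.1 d)) (fun E q hq x hx => hx)
  refine ⟨max C C', fun p a t hp ha ht S hS => ?_⟩
  have h1 := hC () p a t hp ha ht S hS
  have hr : 0 ≤ (Real.log ((p ^ t : ℕ) : ℝ) * ((p ^ t : ℕ) : ℝ) ^ (-(1 / 6) : ℝ)) := rate_nonneg _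
  have hprod : (0 : ℝ) ≤ ∏ i, ((S i).ncard : ℝ) := Finset.prod_nonneg fun i _ => Nat.cast_nonneg _
  have hmono : ∀ c, c ≤ max C C' →
      c * (Real.log ((p ^ t : ℕ) : ℝ) * ((p ^ t : ℕ) : ℝ) ^ (-(1 / 6) : ℝ)) *
          ∏ i, ((S i).ncard : ℝ) ≤
      max C C' * (Real.log ((p ^ t : ℕ) : ℝ) * ((p ^ t : ℕ) : ℝ) ^ (-(1 / 6) : ℝ)) *
          ∏ i, ((S i).ncard : ℝ) := fun c hc =>
    mul_le_mul_of_nonneg_right (mul_le_mul_of_nonneg_right hc hr) hprod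
  refine ⟨h1.1, h1.2.trans (hmono C (le_max_left _ _)), fun E hE1 hE2 hE3 => ?_⟩
  exact (hC' ⟨E, hE1, hE2, hE3⟩ p a t hp ha ht S hS).2.trans (hmono C' (le_max_right _ _))

end Pool.Agent.N205.SD
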